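import Pool.Agent.R292.BB.Stm

/-!
Project BB (helper292), part AC: basic properties of the block-beta distribution.
-/

set_option autoImplicit false

open MeasureTheory Set Filter Topology
open scoped ENNReal

namespace Pool.Agent.R292.BB

open Pool.Agent.W712.RP

namespace AC

theorem pi_ac : ∀ (n : ℕ) (α : Fin n → Type) [∀ i, MeasurableSpace (α i)]
    (μ ν : ∀ i, Measure (α i)) [∀ i, SigmaFinite (μ i)] [∀ i, SigmaFinite (ν i)],
    (∀ i, μ i ≪ ν i) → Measure.pi μ ≪ Measure.pi ν := by
  intro n
  induction n with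
  | zero =>
    intro α _ μ ν _ _ _
    rw [Measure.pi_of_empty, Measure.pi_of_empty]
  | succ n ih =>
    intro α _ μ ν _ _ h
    have h1 := measurePreserving_piFinSuccAbove μ 0
    have h2 := measurePreserving_piFinSuccAbove ν 0
    have h3 := (h1.symm (MeasurableEquiv.piFinSuccAbove α 0)).map_eq
    have h4 := (h2.symm (MeasurableEquiv.piFinSuccAbove α 0)).map_eq
    rw [← h3, ← h4]
    exact ((h 0).prod (ih _ _ _ fun i => h _)).map (MeasurableEquiv.measurable _)

end AC

theorem t_AC (h1 : T_BM) : T_AC := by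
  intro m d hd β hβ
  have hk : ∀ i, 1 ≤ d i := fun i => hd i
  have hp : ∀ i, IsProbabilityMeasure (betaM (d i) (β i)) := fun i =>
    (h1 (d i) (β i) (hk i) (hβ i)).2.2.1
  refine ⟨?_, ?_, ?_⟩
  · unfold blockBeta
    infer_instance
  · unfold blockBeta
    rw [volume_pi]
    exact AC.pi_ac m _ _ _ fun i => (h1 (d i) (β i) (hk i) (hβ i)).2.2.2.1
  · unfold blockBeta
    rw [ae_all_iff]
    intro i
    have h := (h1 (d i) (β i) (hk i) (hβ i)).2.2.2.2
    exact (Measure.tendsto_eval_ae_ae (μ := fun i => betaM (d i) (β i)) (i := i)).eventually h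

end Pool.Agent.R292.BB
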