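import Pool.Agent.R292.BB.Stm

set_option autoImplicit false

open MeasureTheory Set Filter Topology
open scoped ENNReal

namespace Pool.Agent.R292.BB

namespace BM

/-- radial density -/
noncomputable def FF (b : ℝ) : ℝ → ℝ := (Iic (1 : ℝ)).indicator fun r => (1 - r ^ 2) ^ b

lemma FF_meas (b : ℝ) : Measurable (FF b) := by
  unfold FF
  refine Measurable.indicator ?_ measurableSet_Iic
  fun_prop

lemma dens_le {b y : ℝ} (hy0 : 0 < y) (hy1 : y ≤ 1) :
    (1 - y ^ 2) ^ b ≤ (1 - y) ^ b + 1 := by
  have h1 : 0 ≤ 1 - y := by linarith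
  have h2 : 0 ≤ 1 - y ^ 2 := by nlinarith
  have h3 : 1 - y ≤ 1 - y ^ 2 := by nlinarith
  have h4 := Real.rpow_nonneg h1 b
  rcases le_or_gt 0 b with hb | hb
  · have : (1 - y ^ 2) ^ b ≤ 1 := Real.rpow_le_one h2 (by nlinarith) hb
    linarith
  · rcases hy1.eq_or_lt with rfl | hlt
    · norm_num
    · have := Real.rpow_le_rpow_of_nonpos (show 0 < 1 - y by linarith) h3 hb.le
      linarith

lemma int_rad {b : ℝ} (hb : -1 < b) (n : ℕ) :
    IntegrableOn (fun y : ℝ => y ^ n • FF b y) (Ioi 0) volume := by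
  have h1 : IntervalIntegrable (fun x : ℝ => (1 - x) ^ b) volume 0 1 := by
    have := (intervalIntegral.intervalIntegrable_rpow' (a := 1) (b := 0) hb).comp_sub_left 1
    simpa using this
  have h2 : IntegrableOn (fun y : ℝ => (1 - y) ^ b + 1) (Ioc 0 1) volume :=
    ((intervalIntegrable_iff_integrableOn_Ioc_of_le zero_le_one).1 h1).add
      (integrableOn_const (by simp))
  have h3 : Integrable ((Ioc (0 : ℝ) 1).indicator fun y : ℝ => (1 - y) ^ b + 1) volume :=
    (integrable_indicator_iff measurableSet_Ioc).2 h2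
  refine Integrable.mono' h3.integrableOn ?_ ?_
  · exact ((measurable_id.pow_const n).smul (FF_meas b)).aestronglyMeasurable
  · refine (ae_restrict_iff' measurableSet_Ioi).2 (Eventually.of_forall fun y hy => ?_)
    have hy0 : 0 < y := hy
    rw [smul_eq_mul, norm_mul]
    by_cases h : y ≤ 1
    · have e1 : FF b y = (1 - y ^ 2) ^ b := indicator_of_mem (mem_Iic.2 h) _
      rw [e1, indicator_of_mem (show y ∈ Ioc (0 : ℝ) 1 from ⟨hy0, h⟩)]
      have h5 : 0 ≤ (1 - y ^ 2) ^ b := Real.rpow_nonneg (by nlinarith) b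
      rw [Real.norm_of_nonneg h5, Real.norm_of_nonneg (by positivity)]
      calc y ^ n * (1 - y ^ 2) ^ b ≤ 1 * (1 - y ^ 2) ^ b :=
            mul_le_mul_of_nonneg_right (pow_le_one₀ hy0.le h) h5
        _ ≤ (1 - y) ^ b + 1 := by rw [one_mul]; exact dens_le hy0 h
    · have e1 : FF b y = 0 := indicator_of_notMem (by simpa using h) _
      rw [e1, norm_zero, mul_zero]
      rw [indicator_of_notMem (by intro h'; exact h h'.2)]

lemma int_ball {k : ℕ} (hk : 1 ≤ k) {b : ℝ} (hb : -1 < b) :
    IntegrableOn (fun y : EuclideanSpace ℝ (Fin k) => (1 - ‖y‖ ^ 2) ^ b)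
      (Metric.closedBall 0 1) volume := by
  have : Nonempty (Fin k) := ⟨⟨0, hk⟩⟩
  have : Nontrivial (EuclideanSpace ℝ (Fin k)) := by
    refine Module.nontrivial_of_finrank_pos (R := ℝ) ?_
    rw [finrank_euclideanSpace_fin]
    exact hk
  rw [← integrable_indicator_iff Metric.isClosed_closedBall.measurableSet]
  have h1 : Integrable (fun y : EuclideanSpace ℝ (Fin k) => FF b ‖y‖) volume :=
    (integrable_fun_norm_addHaar volume).2 (int_rad hb _)
  refine h1.congr (Eventually.of_forall fun y => ?_)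
  show FF b ‖y‖ = _
  unfold FF
  by_cases h : ‖y‖ ≤ 1
  · rw [indicator_of_mem (mem_Iic.2 h), indicator_of_mem (mem_closedBall_zero_iff.2 h)]
  · rw [indicator_of_notMem (by simpa using h), indicator_of_notMem (by simpa using h)]

end BM

open BM in
theorem t_BM : T_BM := by
  intro k b hk hb
  have hme : Measurable fun y : EuclideanSpace ℝ (Fin k) =>
      ENNReal.ofReal ((1 - ‖y‖ ^ 2) ^ b) := by fun_prop
  have hraw : betaRaw k b Set.univ =
      ∫⁻ y in Metric.closedBall (0 : EuclideanSpace ℝ (Fin k)) 1,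
        ENNReal.ofReal ((1 - ‖y‖ ^ 2) ^ b) := by
    rw [betaRaw, withDensity_apply _ MeasurableSet.univ, Measure.restrict_univ]
  have hne : betaRaw k b Set.univ ≠ 0 := by
    rw [hraw]
    refine ((lintegral_pos_iff_support hme).2 ?_).ne'
    have hsub : Metric.ball (0 : EuclideanSpace ℝ (Fin k)) 1 ⊆
        Function.support fun y : EuclideanSpace ℝ (Fin k) =>
          ENNReal.ofReal ((1 - ‖y‖ ^ 2) ^ b) := by
      intro y hy
      have h1 : ‖y‖ < 1 := mem_ball_zero_iff.1 hy
      have h2 : 0 < 1 - ‖y‖ ^ 2 := by nlinarith [norm_nonneg y]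
      rw [Function.mem_support]
      exact (ENNReal.ofReal_pos.2 (Real.rpow_pos_of_pos h2 b)).ne'
    refine lt_of_lt_of_le ?_ (measure_mono hsub)
    rw [Measure.restrict_apply Metric.isOpen_ball.measurableSet,
      inter_eq_left.2 Metric.ball_subset_closedBall]
    exact Metric.measure_ball_pos _ _ one_pos
  have hfin : betaRaw k b Set.univ ≠ ∞ := by
    rw [hraw]
    exact (Integrable.lintegral_lt_top (int_ball hk hb)).ne
  have hac0 : betaM k b ≪
      (volume : Measure (EuclideanSpace ℝ (Fin k))).restrict (Metric.closedBall 0 1) :=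
    Measure.smul_absolutelyContinuous.trans (withDensity_absolutelyContinuous _ _)
  refine ⟨hne, hfin, ⟨?_⟩, hac0.trans (Measure.absolutelyContinuous_of_le
    Measure.restrict_le_self), ?_⟩
  · rw [betaM, Measure.smul_apply, smul_eq_mul, ENNReal.inv_mul_cancel hne hfin]
  · refine hac0.ae_le ?_
    have h1 : ∀ᵐ y ∂((volume : Measure (EuclideanSpace ℝ (Fin k))).restrict
        (Metric.closedBall 0 1)), y ∉ Metric.sphere (0 : EuclideanSpace ℝ (Fin k)) 1 := by
      refine ae_restrict_of_ae ?_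
      exact measure_eq_zero_iff_ae_notMem.1
        (Measure.addHaar_sphere_of_ne_zero volume 0 one_ne_zero)
    filter_upwards [h1, ae_restrict_mem Metric.isClosed_closedBall.measurableSet] with y hy1 hy2
    rw [mem_sphere_zero_iff_norm] at hy1
    exact lt_of_le_of_ne (mem_closedBall_zero_iff.1 hy2) hy1

end Pool.Agent.R292.BB
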