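import Pool.Agent.R292.BB.Stm

/-! BB-CAPU (helper861, subtask 4134): upper bound for the beta measure of a cap. -/

set_option autoImplicit false

open MeasureTheory Set Filter Topology
open scoped ENNReal

namespace Pool.Agent.R292.BB

namespace CAPU

theorem meas_secR {k : ℕ} (v : EuclideanSpace ℝ (Fin k)) (t r R : ℝ) :
    MeasurableSet (secR v t r R) := by
  have h1 : MeasurableSet {y : EuclideanSpace ℝ (Fin k) | r < ‖y‖} :=
    measurableSet_lt measurable_const measurable_norm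
  have h2 : MeasurableSet {y : EuclideanSpace ℝ (Fin k) | ‖y‖ ≤ R} :=
    measurableSet_le measurable_norm measurable_const
  have h3 : MeasurableSet {y : EuclideanSpace ℝ (Fin k) | (1 - t) * ‖y‖ ≤ inner ℝ v y} := by
    refine measurableSet_le (measurable_const.mul measurable_norm) ?_
    exact (continuous_const.inner continuous_id).measurable
  exact h1.inter (h2.inter h3)

theorem dens_bound {b s x : ℝ} (hs : 0 < s) (h1 : s / 2 ≤ x) (h2 : x ≤ 2 * s) :
    x ^ b ≤ 2 ^ |b| * s ^ b := by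
  have hx : 0 < x := by linarith
  rcases le_total 0 b with hb | hb
  · rw [abs_of_nonneg hb]
    calc x ^ b ≤ (2 * s) ^ b := Real.rpow_le_rpow hx.le h2 hb
      _ = 2 ^ b * s ^ b := Real.mul_rpow (by norm_num) hs.le
  · rw [abs_of_nonpos hb]
    calc x ^ b ≤ (s / 2) ^ b := Real.rpow_le_rpow_of_nonpos (by positivity) h1 hb
      _ = 2 ^ (-b) * s ^ b := by
        rw [Real.div_rpow hs.le (by norm_num), Real.rpow_neg (by norm_num)]
        rw [div_eq_mul_inv, mul_comm]

theorem pow_sub_le (k : ℕ) {r R : ℝ} (hr : 0 ≤ r) (hrR : r ≤ R) (hR : R ≤ 1) :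
    R ^ k - r ^ k ≤ k * (R - r) := by
  induction k with
  | zero => simp
  | succ k ih =>
    have h1 : R ^ (k + 1) - r ^ (k + 1) = R * (R ^ k - r ^ k) + r ^ k * (R - r) := by ring
    have h2 : R * (R ^ k - r ^ k) ≤ 1 * (k * (R - r)) := by
      have h3 : 0 ≤ R ^ k - r ^ k := sub_nonneg.2 (pow_le_pow_left₀ hr hrR k)
      exact mul_le_mul hR ih h3 (by norm_num)
    have h4 : r ^ k * (R - r) ≤ 1 * (R - r) :=
      mul_le_mul_of_nonneg_right (pow_le_one₀ hr (hrR.trans hR)) (by linarith)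
    rw [h1]
    push_cast
    linarith

theorem layer (hSC : T_SC) {k : ℕ} {b : ℝ} (hk : 1 ≤ k) (v : EuclideanSpace ℝ (Fin k))
    {t s V : ℝ} (hs0 : 0 < s) (hs1 : s ≤ 1 / 2)
    (hvol : volume (sec v t) ≤ ENNReal.ofReal V) :
    betaRaw k b (secR v t (1 - s) (1 - s / 2)) ≤
      ENNReal.ofReal (2 ^ |b| * s ^ b * (k * (s / 2)) * V) := by
  have hc : 0 ≤ 2 ^ |b| * s ^ b := by positivity
  unfold betaRaw
  rw [withDensity_apply _ (meas_secR v t _ _)]
  calc ∫⁻ y in secR v t (1 - s) (1 - s / 2), ENNReal.ofReal ((1 - ‖y‖ ^ 2) ^ b)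
        ∂((volume : Measure (EuclideanSpace ℝ (Fin k))).restrict (Metric.closedBall 0 1))
      ≤ ∫⁻ _y in secR v t (1 - s) (1 - s / 2), ENNReal.ofReal (2 ^ |b| * s ^ b)
        ∂((volume : Measure (EuclideanSpace ℝ (Fin k))).restrict (Metric.closedBall 0 1)) := by
        refine setLIntegral_mono' (meas_secR v t _ _) fun y hy => ?_
        refine ENNReal.ofReal_le_ofReal (dens_bound hs0 ?_ ?_)
        · have h1 := hy.1
          have h2 := hy.2.1
          have h3 := norm_nonneg y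
          nlinarith
        · have h1 := hy.1
          have h2 := hy.2.1
          have h3 := norm_nonneg y
          nlinarith
    _ = ENNReal.ofReal (2 ^ |b| * s ^ b) *
        ((volume : Measure (EuclideanSpace ℝ (Fin k))).restrict (Metric.closedBall 0 1))
          (secR v t (1 - s) (1 - s / 2)) := by rw [setLIntegral_const]
    _ ≤ ENNReal.ofReal (2 ^ |b| * s ^ b) * volume (secR v t (1 - s) (1 - s / 2)) := by
        gcongr
        exact Measure.restrict_le_self
    _ = ENNReal.ofReal (2 ^ |b| * s ^ b) *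
        (ENNReal.ofReal ((1 - s / 2) ^ k - (1 - s) ^ k) * volume (sec v t)) := by
        rw [hSC k hk v t (1 - s) (1 - s / 2) (by linarith) (by linarith) (by linarith)]
    _ ≤ ENNReal.ofReal (2 ^ |b| * s ^ b) *
        (ENNReal.ofReal (k * (s / 2)) * ENNReal.ofReal V) := by
        gcongr
        refine (pow_sub_le k (by linarith) (by linarith) (by linarith)).trans (le_of_eq ?_)
        ring
    _ = ENNReal.ofReal (2 ^ |b| * s ^ b * (k * (s / 2)) * V) := by
        rw [← mul_assoc, ← ENNReal.ofReal_mul hc, ← ENNReal.ofReal_mul (by positivity)]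

theorem cover {k : ℕ} (v : EuclideanSpace ℝ (Fin k)) (hv : ‖v‖ = 1) {t : ℝ} (ht : 0 < t)
    (ht1 : t ≤ 1 / 4) (y : EuclideanSpace ℝ (Fin k)) (hy : y ∈ capS v t) (hy1 : ‖y‖ < 1) :
    ∃ j : ℕ, y ∈ secR v t (1 - 2 * t * (1 / 2) ^ j) (1 - 2 * t * (1 / 2) ^ j / 2) := by
  classical
  obtain ⟨hy2, hy3⟩ := hy
  have hin : inner ℝ v y ≤ ‖y‖ := by
    have := real_inner_le_norm v y
    rwa [hv, one_mul] at this
  have hu0 : 0 < 1 - ‖y‖ := by linarith
  have hex : ∃ j : ℕ, 2 * t * (1 / 2) ^ (j + 1) ≤ 1 - ‖y‖ := by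
    obtain ⟨n, hn⟩ := exists_pow_lt_of_lt_one (show 0 < (1 - ‖y‖) / (2 * t) by positivity)
      (show (1 / 2 : ℝ) < 1 by norm_num)
    refine ⟨n, ?_⟩
    rw [lt_div_iff₀ (by positivity)] at hn
    have h1 : (1 / 2 : ℝ) ^ (n + 1) ≤ (1 / 2 : ℝ) ^ n :=
      pow_le_pow_of_le_one (by norm_num) (by norm_num) (Nat.le_succ n)
    nlinarith
  have hspec := Nat.find_spec hex
  have hmin := fun (q : ℕ) (hq : q < Nat.find hex) => Nat.find_min hex hq
  refine ⟨Nat.find hex, ?_, ?_, ?_⟩
  · cases hfind : Nat.find hex with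
    | zero => rw [pow_zero]; linarith
    | succ i =>
      have := hmin i (by rw [hfind]; exact Nat.lt_succ_self i)
      push Not at this
      linarith
  · rw [pow_succ] at hspec
    linarith
  · have : (1 - t) * ‖y‖ ≤ (1 - t) * 1 := mul_le_mul_of_nonneg_left hy1.le (by linarith)
    linarith

end CAPU

open CAPU

theorem t_CAPU (h1 : T_BM) (h2 : T_CONE) (h3 : T_SC) : T_CAPU := by
  intro k b hk hb
  obtain ⟨hZ0, hZt, hprob, -, hae⟩ := h1 k b hk hb
  obtain ⟨c₁, C₁, hc₁, hC₁, hcone⟩ := h2 k hk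
  have hk1 : (1 : ℝ) ≤ k := by exact_mod_cast hk
  have hα : 0 < alp k b := by unfold alp; linarith
  set q : ℝ := (1 / 2 : ℝ) ^ (1 + b) with hq
  have hq0 : 0 < q := by positivity
  have hq1 : q < 1 := Real.rpow_lt_one (by norm_num) (by norm_num) (by linarith)
  set Z' : ℝ := ((betaRaw k b univ)⁻¹).toReal with hZ'
  have hZ'eq : (betaRaw k b univ)⁻¹ = ENNReal.ofReal Z' := by
    rw [hZ', ENNReal.ofReal_toReal (ENNReal.inv_ne_top.2 hZ0)]
  have hZ'0 : 0 ≤ Z' := ENNReal.toReal_nonneg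
  set C₂ : ℝ := Z' * ((2 ^ |b| * (k / 2) * C₁ * 2 ^ (1 + b)) / (1 - q)) with hC₂
  have h1q : 0 < 1 - q := by linarith
  have hC₂0 : 0 ≤ C₂ := by
    rw [hC₂]
    positivity
  refine ⟨4 ^ alp k b + C₂, by positivity, ?_⟩
  intro v hv t ht
  have htα : 0 ≤ t ^ alp k b := by positivity
  rcases le_or_gt t (1 / 4) with ht1 | ht1
  · set s : ℕ → ℝ := fun j => 2 * t * (1 / 2) ^ j with hs
    have hs0 : ∀ j, 0 < s j := fun j => by simp only [hs]; positivity
    have hs1 : ∀ j, s j ≤ 1 / 2 := fun j => by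
      simp only [hs]
      have : (1 / 2 : ℝ) ^ j ≤ 1 := pow_le_one₀ (by norm_num) (by norm_num)
      nlinarith
    set V : ℝ := C₁ * t ^ (((k : ℝ) - 1) / 2) with hV
    have hvol : volume (sec v t) ≤ ENNReal.ofReal V := (hcone v hv t ht (by linarith)).2
    have hcov : betaM k b (capS v t) ≤ betaM k b (⋃ j, secR v t (1 - s j) (1 - s j / 2)) := by
      refine measure_mono_ae ?_
      filter_upwards [hae] with y hy1 hy
      obtain ⟨j, hj⟩ := cover v hv ht ht1 y hy hy1
      exact mem_iUnion.2 ⟨j, hj⟩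
    have hlayer : ∀ j, betaM k b (secR v t (1 - s j) (1 - s j / 2)) ≤
        ENNReal.ofReal (Z' * ((2 ^ |b| * (k / 2) * C₁ * 2 ^ (1 + b)) * t ^ alp k b) * q ^ j) := by
      intro j
      unfold betaM
      rw [Measure.smul_apply, smul_eq_mul, hZ'eq]
      refine (mul_le_mul_right (layer h3 hk v (b := b) (hs0 j) (hs1 j) hvol) _).trans
        (le_of_eq ?_)
      rw [← ENNReal.ofReal_mul hZ'0]
      congr 1
      have e1 : s j ^ b * s j = 2 ^ (1 + b) * t ^ (1 + b) * q ^ j := by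
        have e2 : s j ^ b * s j = s j ^ (1 + b) := by
          rw [Real.rpow_add (hs0 j), Real.rpow_one, mul_comm]
        rw [e2]
        simp only [hs]
        rw [Real.mul_rpow (by positivity) (by positivity), Real.mul_rpow (by norm_num) ht.le,
          ← Real.rpow_natCast, ← Real.rpow_mul (by norm_num), hq, ← Real.rpow_natCast,
          ← Real.rpow_mul (by norm_num), mul_comm (j : ℝ) (1 + b)]
      have e3 : t ^ alp k b = t ^ (1 + b) * t ^ (((k : ℝ) - 1) / 2) := by
        rw [← Real.rpow_add ht]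
        congr 1
        unfold alp
        ring
      calc Z' * (2 ^ |b| * s j ^ b * (k * (s j / 2)) * V)
          = Z' * (2 ^ |b| * (k / 2) * (s j ^ b * s j) * V) := by ring
        _ = Z' * ((2 ^ |b| * (k / 2) * C₁ * 2 ^ (1 + b)) * t ^ alp k b) * q ^ j := by
            rw [e1, e3, hV]; ring
    have hsum : Summable fun j : ℕ =>
        Z' * ((2 ^ |b| * (k / 2) * C₁ * 2 ^ (1 + b)) * t ^ alp k b) * q ^ j :=
      (summable_geometric_of_lt_one hq0.le hq1).mul_left _
    calc betaM k b (capS v t) ≤ betaM k b (⋃ j, secR v t (1 - s j) (1 - s j / 2)) := hcov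
      _ ≤ ∑' j, betaM k b (secR v t (1 - s j) (1 - s j / 2)) := measure_iUnion_le _
      _ ≤ ∑' j, ENNReal.ofReal
          (Z' * ((2 ^ |b| * (k / 2) * C₁ * 2 ^ (1 + b)) * t ^ alp k b) * q ^ j) :=
          ENNReal.tsum_le_tsum hlayer
      _ = ENNReal.ofReal (∑' j : ℕ,
          Z' * ((2 ^ |b| * (k / 2) * C₁ * 2 ^ (1 + b)) * t ^ alp k b) * q ^ j) :=
          (ENNReal.ofReal_tsum_of_nonneg (fun j => by positivity) hsum).symm
      _ = ENNReal.ofReal (C₂ * t ^ alp k b) := by
          rw [tsum_mul_left, tsum_geometric_of_lt_one hq0.le hq1, hC₂]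
          congr 1
          ring
      _ ≤ ENNReal.ofReal ((4 ^ alp k b + C₂) * t ^ alp k b) := by
          refine ENNReal.ofReal_le_ofReal (mul_le_mul_of_nonneg_right ?_ htα)
          have : (0 : ℝ) < 4 ^ alp k b := by positivity
          linarith
  · have h4 : 1 ≤ (4 ^ alp k b + C₂) * t ^ alp k b := by
      have e1 : (4 : ℝ) ^ alp k b * t ^ alp k b = (4 * t) ^ alp k b :=
        (Real.mul_rpow (by norm_num) ht.le).symm
      have e2 : 1 ≤ (4 * t) ^ alp k b := Real.one_le_rpow (by linarith) hα.le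
      have e3 : 0 ≤ C₂ * t ^ alp k b := by positivity
      rw [add_mul, e1]
      linarith
    calc betaM k b (capS v t) ≤ 1 := prob_le_one
      _ = ENNReal.ofReal 1 := ENNReal.ofReal_one.symm
      _ ≤ ENNReal.ofReal ((4 ^ alp k b + C₂) * t ^ alp k b) := ENNReal.ofReal_le_ofReal h4

end Pool.Agent.R292.BB
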