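import Pool.Agent.R292.BB.Stm

/-!
Project BB, part CONE: the volume of the sectors of the ball (helper209).
-/

set_option autoImplicit false

open MeasureTheory Set Filter Topology
open scoped ENNReal

namespace Pool.Agent.R292.BB

open Pool.Agent.W712.RP

namespace CONE

/-- The sector around the first basis vector. -/
def S0 (n : ℕ) (t : ℝ) : Set (EuclideanSpace ℝ (Fin (n + 1))) :=
  {z | ‖z‖ ≤ 1 ∧ (1 - t) * ‖z‖ ≤ z 0}

lemma sec_eq {n : ℕ} {v : EuclideanSpace ℝ (Fin (n + 1))} (hv : ‖v‖ = 1) (t : ℝ) :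
    volume (sec v t) = volume (S0 n t) := by
  have hon : Orthonormal ℝ (({0} : Set (Fin (n + 1))).domRestrict
      (fun _ : Fin (n + 1) => v)) := by
    constructor
    · intro i
      exact hv
    · intro i j hij
      exact absurd (Subsingleton.elim i j) hij
  obtain ⟨b, hb⟩ := Orthonormal.exists_orthonormalBasis_extension_of_card_eq
    (by simp) hon
  have hb0 : b 0 = v := hb 0 rfl
  have hpre : sec v t = b.repr ⁻¹' S0 n t := by
    ext y
    have h1 : b.repr y 0 = inner ℝ v y := by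
      rw [OrthonormalBasis.repr_apply_apply, hb0]
    simp only [sec, S0, Set.mem_preimage, Set.mem_setOf_eq, LinearIsometryEquiv.norm_map, h1]
  rw [hpre]
  exact b.measurePreserving_measurableEquiv.measure_preimage_equiv _

lemma vol_coord (n : ℕ) (A : Set (EuclideanSpace ℝ (Fin (n + 1)))) :
    volume A = volume ((WithLp.toLp 2 : (Fin (n + 1) → ℝ) → EuclideanSpace ℝ (Fin (n + 1))) ⁻¹' A) :=
  ((EuclideanSpace.volume_preserving_symm_measurableEquiv_toLp
    (Fin (n + 1))).symm.measure_preimage_equiv A).symm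

lemma norm_sq_succ {n : ℕ} (z : Fin (n + 1) → ℝ) :
    ‖(WithLp.toLp 2 z : EuclideanSpace ℝ (Fin (n + 1)))‖ ^ 2 =
      z 0 ^ 2 + ∑ j : Fin n, z j.succ ^ 2 := by
  rw [EuclideanSpace.real_norm_sq_eq, Fin.sum_univ_succ]

/-- Volume of a box. -/
lemma box_vol (n : ℕ) (p q s : ℝ) :
    volume (Icc (Fin.cons p (fun _ => -s) : Fin (n + 1) → ℝ) (Fin.cons q (fun _ => s))) =
      ENNReal.ofReal (q - p) * ENNReal.ofReal (2 * s) ^ n := by
  rw [Real.volume_Icc_pi, Fin.prod_univ_succ]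
  simp only [Fin.cons_zero, Fin.cons_succ, sub_neg_eq_add, ← two_mul, Finset.prod_const,
    Finset.card_univ, Fintype.card_fin]

lemma box_mem {n : ℕ} {p q s : ℝ} {z : Fin (n + 1) → ℝ} :
    z ∈ Icc (Fin.cons p (fun _ => -s) : Fin (n + 1) → ℝ) (Fin.cons q (fun _ => s)) ↔
      (p ≤ z 0 ∧ z 0 ≤ q) ∧ ∀ j : Fin n, |z j.succ| ≤ s := by
  simp only [mem_Icc, Pi.le_def, Fin.forall_fin_succ, Fin.cons_zero, Fin.cons_succ, abs_le,
    forall_and]
  tauto

end CONE

open CONE in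
theorem t_CONE : T_CONE := by
  intro k hk
  obtain ⟨n, rfl⟩ : ∃ n, k = n + 1 := ⟨k - 1, by omega⟩
  have ha : (0 : ℝ) < 1 / (8 * (n + 1)) := by positivity
  refine ⟨1 / 4 * (2 * (1 / (8 * (n + 1)))) ^ n, 2 * (2 * √2) ^ n, by positivity, by positivity,
    fun v hv t ht ht1 => ?_⟩
  have hexp : t ^ ((((n + 1 : ℕ) : ℝ) - 1) / 2) = √t ^ n := by
    rw [Real.sqrt_eq_rpow, ← Real.rpow_natCast, ← Real.rpow_mul ht.le]
    congr 1
    push_cast
    ring
  have hst : 0 < √t := Real.sqrt_pos.2 ht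
  have hst2 : √t ^ 2 = t := Real.sq_sqrt ht.le
  rw [hexp, sec_eq hv, vol_coord]
  constructor
  · -- lower bound
    have h1 : ENNReal.ofReal (1 / 4 * (2 * (1 / (8 * (n + 1)))) ^ n * √t ^ n) =
        volume (Icc (Fin.cons (1 / 4) (fun _ => -(1 / (8 * (n + 1)) * √t)) : Fin (n + 1) → ℝ)
          (Fin.cons (1 / 2) (fun _ => 1 / (8 * (n + 1)) * √t))) := by
      rw [box_vol, ← ENNReal.ofReal_pow (by positivity), ← ENNReal.ofReal_mul (by norm_num)]
      congr 1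
      rw [mul_assoc, ← mul_pow]
      ring
    rw [h1]
    refine measure_mono fun z hz => ?_
    obtain ⟨⟨h2, h3⟩, h4⟩ := box_mem.1 hz
    have hσ : ∑ j : Fin n, z j.succ ^ 2 ≤ t / 64 := by
      have h5 : ∀ j ∈ (Finset.univ : Finset (Fin n)),
          z j.succ ^ 2 ≤ (1 / (8 * (n + 1)) * √t) ^ 2 := by
        intro j _
        rw [← sq_abs (z j.succ)]
        exact pow_le_pow_left₀ (abs_nonneg _) (h4 j) 2
      refine (Finset.sum_le_sum h5).trans ?_
      rw [Finset.sum_const, Finset.card_univ, Fintype.card_fin, nsmul_eq_mul, mul_pow, hst2]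
      have h6 : (n : ℝ) * ((1 / (8 * ((n : ℝ) + 1))) ^ 2 * t) =
          (n : ℝ) / ((n : ℝ) + 1) ^ 2 * (t / 64) := by
        field_simp
        ring
      rw [h6]
      refine mul_le_of_le_one_left (by positivity) ?_
      rw [div_le_one (by positivity)]
      nlinarith [Nat.cast_nonneg (α := ℝ) n]
    have hσ0 : 0 ≤ ∑ j : Fin n, z j.succ ^ 2 := Finset.sum_nonneg fun _ _ => sq_nonneg _
    have hn := norm_sq_succ z
    have hn0 := norm_nonneg (WithLp.toLp 2 z : EuclideanSpace ℝ (Fin (n + 1)))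
    refine ⟨?_, ?_⟩
    · refine (sq_le_sq₀ hn0 zero_le_one).1 ?_
      rw [hn]
      nlinarith
    · change (1 - t) * ‖(WithLp.toLp 2 z : EuclideanSpace ℝ (Fin (n + 1)))‖ ≤ z 0
      refine (sq_le_sq₀ (mul_nonneg (by linarith) hn0) (by linarith)).1 ?_
      rw [mul_pow, hn]
      have h7 : (1 - t) ^ 2 * (∑ j : Fin n, z j.succ ^ 2) ≤ t / 64 := by
        refine (mul_le_of_le_one_left hσ0 ?_).trans hσ
        nlinarith
      have h8 : t / 16 ≤ z 0 ^ 2 * (1 - (1 - t) ^ 2) := by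
        have h9 : (1 / 4 : ℝ) ^ 2 ≤ z 0 ^ 2 := pow_le_pow_left₀ (by norm_num) h2 2
        have h10 : t ≤ 1 - (1 - t) ^ 2 := by nlinarith
        calc t / 16 = (1 / 4 : ℝ) ^ 2 * t := by ring
          _ ≤ z 0 ^ 2 * (1 - (1 - t) ^ 2) := mul_le_mul h9 h10 ht.le (sq_nonneg _)
      nlinarith
  · -- upper bound
    have h1 : ENNReal.ofReal (2 * (2 * √2) ^ n * √t ^ n) =
        volume (Icc (Fin.cons (-1) (fun _ => -(√2 * √t)) : Fin (n + 1) → ℝ)
          (Fin.cons 1 (fun _ => √2 * √t))) := by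
      rw [box_vol, ← ENNReal.ofReal_pow (by positivity), ← ENNReal.ofReal_mul (by norm_num)]
      congr 1
      rw [mul_assoc, ← mul_pow]
      ring
    rw [h1]
    refine measure_mono fun z hz => ?_
    obtain ⟨h2, h3⟩ := hz
    change (1 - t) * ‖(WithLp.toLp 2 z : EuclideanSpace ℝ (Fin (n + 1)))‖ ≤ z 0 at h3
    have hn := norm_sq_succ z
    have hn0 := norm_nonneg (WithLp.toLp 2 z : EuclideanSpace ℝ (Fin (n + 1)))
    have hσ0 : 0 ≤ ∑ j : Fin n, z j.succ ^ 2 := Finset.sum_nonneg fun _ _ => sq_nonneg _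
    have hn1 : ‖(WithLp.toLp 2 z : EuclideanSpace ℝ (Fin (n + 1)))‖ ^ 2 ≤ 1 :=
      pow_le_one₀ hn0 h2
    have h4 : ((1 - t) * ‖(WithLp.toLp 2 z : EuclideanSpace ℝ (Fin (n + 1)))‖) ^ 2 ≤ z 0 ^ 2 :=
      pow_le_pow_left₀ (mul_nonneg (by linarith) hn0) h3 2
    have hσ : ∑ j : Fin n, z j.succ ^ 2 ≤ 2 * t := by
      rw [mul_pow] at h4
      have h5 : ∑ j : Fin n, z j.succ ^ 2 ≤ ‖(WithLp.toLp 2 z : EuclideanSpace ℝ (Fin (n + 1)))‖ ^ 2
          * (1 - (1 - t) ^ 2) := by nlinarith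
      refine h5.trans ?_
      have h6 : 0 ≤ 1 - (1 - t) ^ 2 := by nlinarith
      have h7 : 1 - (1 - t) ^ 2 ≤ 2 * t := by nlinarith
      calc ‖(WithLp.toLp 2 z : EuclideanSpace ℝ (Fin (n + 1)))‖ ^ 2 * (1 - (1 - t) ^ 2)
          ≤ 1 * (1 - (1 - t) ^ 2) := mul_le_mul_of_nonneg_right hn1 h6
        _ ≤ 2 * t := by linarith
    refine box_mem.2 ⟨abs_le.1 ?_, fun j => ?_⟩
    · refine (sq_le_sq₀ (abs_nonneg _) zero_le_one).1 ?_
      rw [sq_abs]
      nlinarith
    · refine (sq_le_sq₀ (abs_nonneg _) (by positivity)).1 ?_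
      rw [sq_abs, mul_pow, hst2, Real.sq_sqrt (by norm_num)]
      exact (Finset.single_le_sum (f := fun j : Fin n => z j.succ ^ 2)
        (fun _ _ => sq_nonneg _) (Finset.mem_univ j)).trans hσ

end Pool.Agent.R292.BB
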