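import Pool.Agent.R292.BB.Stm

/-!
# Project BB, part EFB: comparison of expected face numbers (general probability measures)
-/

set_option autoImplicit false
set_option maxHeartbeats 400000

open MeasureTheory Set Filter Topology
open scoped ENNReal

namespace Pool.Agent.R292.BB

open Pool.Agent.W712.RP

namespace EFB

theorem count_eq {E : Type} [NormedAddCommGroup E] [NormedSpace ℝ E] {n : ℕ} (s : ℕ)
    (x : Fin n → E) :
    ((Set.ncard {I : Finset (Fin n) | I.card = s ∧ FaceSet x I} : ℕ) : ℝ≥0∞) =
      ∑ I ∈ Finset.powersetCard s (Finset.univ : Finset (Fin n)),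
        ({x : Fin n → E | FaceSet x I} : Set (Fin n → E)).indicator (fun _ => (1 : ℝ≥0∞)) x := by
  classical
  have h1 : {I : Finset (Fin n) | I.card = s ∧ FaceSet x I} =
      (((Finset.powersetCard s (Finset.univ : Finset (Fin n))).filter
        (fun I => FaceSet x I) : Finset (Finset (Fin n))) : Set (Finset (Fin n))) := by
    ext I
    simp [Finset.mem_powersetCard]
  rw [h1, Set.ncard_coe_finset, Finset.card_filter, Nat.cast_sum]
  apply Finset.sum_congr rfl
  intro I _
  by_cases hI : FaceSet x I
  · simp [hI]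
  · simp [hI]

theorem int_count {E : Type} [NormedAddCommGroup E] [NormedSpace ℝ E] [FiniteDimensional ℝ E]
    [MeasurableSpace E] [BorelSpace E] (hMF : S_MF) (ν : Measure E) (n s : ℕ) :
    ∫⁻ x, ((Set.ncard {I : Finset (Fin n) | I.card = s ∧ FaceSet x I} : ℕ) : ℝ≥0∞)
      ∂(Measure.pi fun _ : Fin n => ν) =
      ∑ I ∈ Finset.powersetCard s (Finset.univ : Finset (Fin n)), faceQ ν n I := by
  simp_rw [count_eq]
  rw [lintegral_finsetSum _ (fun I _ => measurable_const.indicator (hMF E n I))]
  apply Finset.sum_congr rfl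
  intro I _
  rw [lintegral_indicator_const (hMF E n I), one_mul]
  rfl

end EFB

theorem t_EFB (h1 : T_GP) (h2 : S_FS) (h3 : S_FE) (h4 : S_CNT) (h5 : S_MF) : T_EFB := by
  intro E _ _ _ _ _ μ _ ν _ hν n hn j hj
  have hgp := h1 E μ ν hν (by omega) n
  have key : ∀ x : Fin n → E, GenPos x →
      Set.ncard {I : Finset (Fin n) | I.card = 1 ∧ FaceSet x I} ≤
        (j + 1) * Set.ncard {I : Finset (Fin n) | I.card = j + 1 ∧ FaceSet x I} ∧
      Set.ncard {I : Finset (Fin n) | I.card = j + 1 ∧ FaceSet x I} ≤
        (Module.finrank ℝ E).choose (j + 1) *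
          Set.ncard {I : Finset (Fin n) | I.card = Module.finrank ℝ E ∧ FaceSet x I} := by
    intro x hx
    exact h4 n (Module.finrank ℝ E) (fun I => FaceSet x I)
      (fun I J hI hF hJI hJ => h2 E n x hx I J hI hF hJI hJ)
      (fun I hI hc hF => h3 E n x hx hn I hI hc hF) j hj
  have hm : ∀ s : ℕ, Measurable fun x : Fin n → E =>
      ((Set.ncard {I : Finset (Fin n) | I.card = s ∧ FaceSet x I} : ℕ) : ℝ≥0∞) := by
    intro s
    simp_rw [EFB.count_eq]
    exact Finset.measurable_sum _ fun I _ => measurable_const.indicator (h5 E n I)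
  constructor
  · rw [← EFB.int_count h5 ν n 1, ← EFB.int_count h5 ν n (j + 1),
      ← lintegral_const_mul _ (hm (j + 1))]
    apply lintegral_mono_ae
    filter_upwards [hgp] with x hx
    exact_mod_cast (key x hx).1
  · rw [← EFB.int_count h5 ν n (Module.finrank ℝ E), ← EFB.int_count h5 ν n (j + 1),
      ← lintegral_const_mul _ (hm (Module.finrank ℝ E))]
    apply lintegral_mono_ae
    filter_upwards [hgp] with x hx
    exact_mod_cast (key x hx).2

end Pool.Agent.R292.BB
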