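import Pool.Agent.R292.BB.Stm

/-!
Project BB (helper292), piece FIN: the final statements.
-/

set_option autoImplicit false

open MeasureTheory Set Filter Topology
open scoped ENNReal

namespace Pool.Agent.R292.BB

open Pool.Agent.W712.RP

namespace FIN

theorem adim_one_le {k : ℕ} {b : ℝ} (hk : 0 < k) (hb : -1 < b) : 1 ≤ adim k b := by
  have h1 : (0 : ℝ) < 1 + b := by linarith
  have h2 : (1 : ℝ) ≤ k := by exact_mod_cast hk
  unfold adim
  rw [le_div_iff₀ h1]
  linarith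

theorem gam_eq {k : ℕ} {b : ℝ} (hk : 0 < k) (hb : -1 < b) : gam k b = 2 / (adim k b + 1) := by
  have h1 : (0 : ℝ) < 1 + b := by linarith
  have h2 : (1 : ℝ) ≤ k := by exact_mod_cast hk
  have h3 : (0 : ℝ) < (k : ℝ) + 1 + 2 * b := by linarith
  have e1 : adim k b + 1 = ((k : ℝ) + 1 + 2 * b) / (1 + b) := by
    unfold adim
    field_simp
    ring
  have e2 : alp k b = ((k : ℝ) + 1 + 2 * b) / 2 := by
    unfold alp
    ring
  unfold gam
  rw [e1, e2]
  field_simp

theorem two_div_eq_iff {x y : ℝ} (hx : 0 < x) (hy : 0 < y) : 2 / x = 2 / y ↔ x = y := by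
  constructor
  · intro h
    rw [div_eq_div_iff hx.ne' hy.ne'] at h
    linarith
  · rintro rfl
    rfl

end FIN

theorem t_FINA (h1 : T_MAIN) (h2 : T_RHO) (h3 : T_WX) : FinalA := by
  intro m hm d hd β hβ
  obtain ⟨hprob, hint, c, C, hc, hC, n₀, hmain⟩ := h1 m hm d hd β hβ
  refine ⟨hprob, hint, ?_⟩
  obtain ⟨hgam, -, -⟩ := h2 m hm d hd β hβ
  have : Nonempty (Fin m) := ⟨⟨0, hm⟩⟩
  -- the maximum
  have hle : ∀ i, adim (d i) (β i) ≤ kmax d β := fun i =>
    le_ciSup (f := fun i => adim (d i) (β i)) (Set.finite_range _).bddAbove i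
  obtain ⟨i₀, hi₀⟩ : ∃ i, adim (d i) (β i) = kmax d β :=
    exists_eq_ciSup_of_finite (f := fun i => adim (d i) (β i))
  have hk1 : 1 ≤ kmax d β := (FIN.adim_one_le (hd i₀) (hβ i₀)).trans (hle i₀)
  set a₀ : ℝ := 2 / (kmax d β + 1) with ha₀
  have hlow : ∀ i, a₀ ≤ gam (d i) (β i) := by
    intro i
    rw [FIN.gam_eq (hd i) (hβ i), ha₀]
    have := FIN.adim_one_le (hd i) (hβ i)
    have := hle i
    gcongr
  have hset : {i | gam (d i) (β i) = a₀} = {i : Fin m | adim (d i) (β i) = kmax d β} := by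
    ext i
    simp only [Set.mem_ofPred_eq]
    rw [FIN.gam_eq (hd i) (hβ i), ha₀]
    have := FIN.adim_one_le (hd i) (hβ i)
    rw [FIN.two_div_eq_iff (by linarith) (by linarith)]
    constructor <;> intro h <;> linarith
  have hex : ∃ i, gam (d i) (β i) = a₀ := ⟨i₀, by
    rw [FIN.gam_eq (hd i₀) (hβ i₀), ha₀, hi₀]⟩
  obtain ⟨c₁, C₁, hc₁, hC₁, hw⟩ := h3 m hm (fun i => gam (d i) (β i)) (fun i => (hgam i).1) a₀
    hlow hex
  rw [hset] at hw
  have hN : Set.ncard {i : Fin m | adim (d i) (β i) = kmax d β} = numMax d β := rfl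
  rw [hN] at hw
  set p : ℕ := numMax d β - 1 with hp
  intro j hj
  refine ⟨c * c₁, C * C₁ * 2 ^ p, by positivity, max n₀ 3, ?_⟩
  intro n hn
  have hn0 : n₀ ≤ n := (le_max_left _ _).trans hn
  have hn3 : 3 ≤ n := (le_max_right _ _).trans hn
  have hnR : (3 : ℝ) ≤ n := by exact_mod_cast hn3
  have hnpos : (0 : ℝ) < n := by linarith
  have hlog : 1 ≤ Real.log n := by
    rw [Real.le_log_iff_exp_le hnpos]
    have := Real.exp_one_lt_d9
    linarith
  obtain ⟨k1, k2, k3⟩ := hmain n hn0 j hj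
  obtain ⟨w1, w2⟩ := hw (1 / n) (by positivity) (by
    rw [div_le_one hnpos]; linarith)
  have elog : Real.log (1 / (1 / (n : ℝ))) = Real.log n := by
    rw [one_div_one_div]
  rw [elog] at w1 w2
  set W := Wf (fun i => gam (d i) (β i)) (1 / n) with hW
  have hWtop : W ≠ ⊤ := ne_top_of_le_ne_top ENNReal.ofReal_ne_top w2
  have w1' := (ENNReal.ofReal_le_iff_le_toReal hWtop).1 w1
  have hpos1 : (0 : ℝ) ≤ (1 / (n : ℝ)) ^ a₀ := Real.rpow_nonneg (by positivity) _
  have w2' := ENNReal.toReal_le_of_le_ofReal (by positivity) w2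
  have epow : (n : ℝ) * (1 / (n : ℝ)) ^ a₀ = (n : ℝ) ^ ((kmax d β - 1) / (kmax d β + 1)) := by
    have e1 : (kmax d β - 1) / (kmax d β + 1) = 1 - a₀ := by
      rw [ha₀]
      field_simp
      ring
    rw [e1, Real.rpow_sub hnpos, Real.rpow_one, one_div, Real.inv_rpow hnpos.le, div_eq_mul_inv]
  set E : ℝ := (n : ℝ) ^ ((kmax d β - 1) / (kmax d β + 1)) with hE
  have hEpos : 0 < E := Real.rpow_pos_of_pos hnpos _
  have hlp : (0 : ℝ) < (Real.log n) ^ p := by positivity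
  have hl1 : (Real.log n) ^ p ≤ (1 + Real.log n) ^ p :=
    pow_le_pow_left₀ (by linarith) (by linarith) _
  have hl2 : (1 + Real.log n) ^ p ≤ 2 ^ p * (Real.log n) ^ p := by
    rw [← mul_pow]
    exact pow_le_pow_left₀ (by linarith) (by linarith) _
  refine ⟨mul_pos hEpos hlp, ?_, ?_⟩
  · calc c * c₁ * (E * (Real.log n) ^ p) ≤ c * c₁ * (E * (1 + Real.log n) ^ p) := by gcongr
      _ = c * n * (c₁ * ((1 / (n : ℝ)) ^ a₀ * (1 + Real.log n) ^ p)) := by
          rw [← epow]; ring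
      _ ≤ c * n * W.toReal := by gcongr
      _ ≤ expF d β n j := k1
  · calc expF d β n j ≤ C * n * W.toReal := k2
      _ ≤ C * n * (C₁ * ((1 / (n : ℝ)) ^ a₀ * (1 + Real.log n) ^ p)) := by gcongr
      _ = C * C₁ * (E * (1 + Real.log n) ^ p) := by rw [← epow]; ring
      _ ≤ C * C₁ * (E * (2 ^ p * (Real.log n) ^ p)) := by gcongr
      _ = C * C₁ * 2 ^ p * (E * (Real.log n) ^ p) := by ring

theorem t_FINB (h1 : T_MAIN) : FinalB := by
  intro m hm d hd β hβ
  obtain ⟨hprob, hint, c, C, hc, hC, n₀, hmain⟩ := h1 m hm d hd β hβ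
  refine ⟨hprob, hint, ?_⟩
  intro j hj
  refine ⟨c / C, C / c, by positivity, max n₀ 1, ?_⟩
  intro n hn
  have hn0 : n₀ ≤ n := (le_max_left _ _).trans hn
  have hn1 : 1 ≤ n := (le_max_right _ _).trans hn
  have hnpos : (0 : ℝ) < n := by exact_mod_cast hn1
  obtain ⟨k1, k2, k3⟩ := hmain n hn0 j hj
  obtain ⟨l1, l2, -⟩ := hmain n hn0 ((∑ i, d i) - 1) (by omega)
  set W := (Wf (fun i => gam (d i) (β i)) (1 / n)).toReal with hW
  have hpos : 0 < c * n * W := by positivity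
  refine ⟨lt_of_lt_of_le hpos l1, ?_, ?_⟩
  · calc c / C * expF d β n ((∑ i, d i) - 1) ≤ c / C * (C * n * W) := by gcongr
      _ = c * n * W := by field_simp
      _ ≤ expF d β n j := k1
  · calc expF d β n j ≤ C * n * W := k2
      _ = C / c * (c * n * W) := by field_simp
      _ ≤ C / c * expF d β n ((∑ i, d i) - 1) := by gcongr

end Pool.Agent.R292.BB
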