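import Pool.Agent.R292.BB.Stm

/-!
Project BB: GEO, the good centres are good.
-/

set_option autoImplicit false

open MeasureTheory Set Filter Topology
open scoped ENNReal

namespace Pool.Agent.R292.BB

theorem GEO.tri {k : ℕ} (x y z : EuclideanSpace ℝ (Fin k)) :
    ‖x - z‖ ^ 2 ≤ 2 * ‖x - y‖ ^ 2 + 2 * ‖y - z‖ ^ 2 := by
  have h := norm_sub_le_norm_sub_add_norm_sub x y z
  have h0 := norm_nonneg (x - z)
  have h1 := pow_le_pow_left₀ h0 h 2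
  nlinarith [sq_nonneg (‖x - y‖ - ‖y - z‖)]

theorem t_GEO : T_GEO := by
  intro k m hm v z t hv ht0 ht2 hz
  have hm1 : (1 : ℝ) ≤ m := by exact_mod_cast hm
  have hm0 : (0 : ℝ) < m := by linarith
  set s : ℝ := t / (16 * m) with hs
  have hs0 : 0 < s := by positivity
  have hts : t = 16 * m * s := by rw [hs]; field_simp
  have hsm : s ≤ m * s := by nlinarith
  obtain ⟨hz1, hz2, hz3⟩ := hz
  have hz0 : 0 ≤ ‖z‖ := norm_nonneg z
  have hzle : ‖z‖ ≤ 1 := by linarith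
  have ez : ‖v - z‖ ^ 2 = ‖v‖ ^ 2 - 2 * inner ℝ v z + ‖z‖ ^ 2 := norm_sub_sq_real v z
  rw [hv] at ez
  have hvz : ‖v - z‖ ^ 2 ≤ 4 * s := by nlinarith
  constructor
  · rintro y ⟨hy1, hy2⟩
    refine ⟨hy1, ?_⟩
    have hy0 : 0 ≤ ‖y‖ := norm_nonneg y
    have ey : ‖v - y‖ ^ 2 = ‖v‖ ^ 2 - 2 * inner ℝ v y + ‖y‖ ^ 2 := norm_sub_sq_real v y
    rw [hv] at ey
    have hc : inner ℝ v y ≤ ‖y‖ := by
      have := real_inner_le_norm v y
      rwa [hv, one_mul] at this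
    have hvy : ‖v - y‖ ^ 2 ≤ 2 * t := by nlinarith
    have ezy : ‖z - y‖ ^ 2 = ‖z‖ ^ 2 - 2 * inner ℝ z y + ‖y‖ ^ 2 := norm_sub_sq_real z y
    have htri := GEO.tri z v y
    rw [norm_sub_rev z v] at htri
    have h1 : 1 - ‖y‖ ^ 2 ≤ 2 * t := by nlinarith
    have h2 : 1 - ‖z‖ ^ 2 ≤ 2 * s := by nlinarith
    have h3 : 1 - inner ℝ z y ≤ 3 * t + 5 * s := by linarith
    have h4 : 64 * (m * s) ≤ 128 * m * (1 - ‖z‖) := by
      have : s / 2 ≤ 1 - ‖z‖ := by linarith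
      have h5 := mul_le_mul_of_nonneg_left this (show 0 ≤ 128 * (m : ℝ) by positivity)
      linarith
    have h6 : 3 * t + 5 * s ≤ 53 * (m * s) := by rw [hts]; linarith
    have h7 : 0 ≤ m * s := by positivity
    linarith
  · rintro y ⟨hy1, hy2⟩
    refine ⟨hy1, ?_⟩
    have hy0 : 0 ≤ ‖y‖ := norm_nonneg y
    have ey : ‖v - y‖ ^ 2 = ‖v‖ ^ 2 - 2 * inner ℝ v y + ‖y‖ ^ 2 := norm_sub_sq_real v y
    rw [hv] at ey
    have hc : inner ℝ z y ≤ ‖y‖ := by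
      have h1 := real_inner_le_norm z y
      have h2 : ‖z‖ * ‖y‖ ≤ 1 * ‖y‖ := mul_le_mul_of_nonneg_right hzle hy0
      linarith
    have ezy : ‖z - y‖ ^ 2 = ‖z‖ ^ 2 - 2 * inner ℝ z y + ‖y‖ ^ 2 := norm_sub_sq_real z y
    have hz2' : ‖z‖ ^ 2 ≤ 1 := pow_le_one₀ hz0 hzle
    have hy2' : ‖y‖ ^ 2 ≤ 1 := pow_le_one₀ hy0 hy1
    have hzy : ‖z - y‖ ^ 2 ≤ 4 * s := by linarith
    have htri := GEO.tri v z y
    have h1 : 1 - ‖y‖ ^ 2 ≤ 4 * s := by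
      have h0 : 1 - ‖y‖ ≤ 2 * s := by linarith
      have h2 : (1 - ‖y‖) * (1 + ‖y‖) ≤ 2 * s * 2 :=
        mul_le_mul h0 (by linarith) (by linarith) (by linarith)
      linarith [h2, show (1 - ‖y‖) * (1 + ‖y‖) = 1 - ‖y‖ ^ 2 by ring]
    have h2 : 1 - inner ℝ v y ≤ 10 * s := by linarith
    have h3 : t / m = 16 * s := by rw [hts]; field_simp
    rw [h3]
    linarith

end Pool.Agent.R292.BB
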