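import Pool.Agent.R292.BB.Stm
import Pool.Agent.W371.RP.GP

/-!
# Project BB, piece GP: general position almost surely
-/

set_option autoImplicit false

open MeasureTheory Set Filter Topology
open scoped ENNReal

namespace Pool.Agent.R292.BB

open Pool.Agent.W712.RP

namespace GP

open Pool.Agent.W371.RP

theorem null_one {E : Type} [NormedAddCommGroup E] [NormedSpace ℝ E] [FiniteDimensional ℝ E]
    [MeasurableSpace E] [BorelSpace E] (μ : Measure E) [μ.IsAddHaarMeasure] (ν : Measure E)
    [IsProbabilityMeasure ν] (hν : ν ≪ μ) (hd : 1 ≤ Module.finrank ℝ E) {n : ℕ} (J : Finset (Fin n))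
    (hJ : J.card ≤ Module.finrank ℝ E) (k : Fin n) (hk : k ∉ J) :
    ∀ᵐ x ∂(Measure.pi fun _ : Fin n => ν), AffineIndependent ℝ (fun i : J => x i) →
      AffineIndependent ℝ (fun i : (insert k J : Finset (Fin n)) => x i) := by
  classical
  obtain ⟨m, rfl⟩ : ∃ m, n = m + 1 := ⟨n - 1, by have := k.pos; omega⟩
  set B : Set (Fin (m + 1) → E) := {x | AffineIndependent ℝ (fun i : J => x i)} ∩
    {x | AffineIndependent ℝ (fun i : (insert k J : Finset (Fin (m + 1))) => x i)}ᶜ with hB
  have hBm : MeasurableSet B :=
    (isOpen_indep J).measurableSet.inter (isOpen_indep _).measurableSet.compl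
  have hnull : (Measure.pi fun _ : Fin (m + 1) => ν) B = 0 := by
    have hmp := measurePreserving_piFinSuccAbove (fun _ : Fin (m + 1) => ν) k
    have hsym := hmp.symm
    have h1 := hsym.measure_preimage hBm.nullMeasurableSet
    rw [← h1, Measure.prod_apply_symm (hsym.measurable hBm)]
    rw [lintegral_eq_zero_iff (measurable_measure_prodMk_right (hsym.measurable hBm))]
    filter_upwards with z
    apply measure_mono_null (t := (affineSpan ℝ ((fun i => k.insertNth (0 : E) z i) '' J) : Set E))
    · rintro y ⟨hy1, hy2⟩
      by_contra hy3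
      apply hy2
      apply indep_insert hk hy1
      intro hy4
      apply hy3
      have e1 : (MeasurableEquiv.piFinSuccAbove (fun _ : Fin (m + 1) => E) k).symm (y, z) =
          k.insertNth y z := rfl
      rw [e1] at hy4
      rw [Fin.insertNth_apply_same] at hy4
      have e2 : (k.insertNth y z : Fin (m + 1) → E) '' J =
          (fun i => k.insertNth (0 : E) z i) '' J := by
        apply Set.image_congr
        intro i hi
        have hik : i ≠ k := fun h => hk (h ▸ hi)
        obtain ⟨j, rfl⟩ := Fin.exists_succAbove_eq hik
        rw [Fin.insertNth_apply_succAbove, Fin.insertNth_apply_succAbove]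
      rw [e2] at hy4
      exact hy4
    · apply hν
      exact Measure.addHaar_affineSubspace μ _ (span_ne_top hd _ J hJ)
  have := measure_eq_zero_iff_ae_notMem.1 hnull
  filter_upwards [this] with x hx h1
  by_contra h2
  exact hx ⟨h1, h2⟩

end GP

theorem t_GP : T_GP := by
  intro E _ _ _ _ _ μ _ ν _ hν hd n
  classical
  have hall : ∀ᵐ x ∂(Measure.pi fun _ : Fin n => ν), ∀ (J : Finset (Fin n)) (k : Fin n),
      J.card ≤ Module.finrank ℝ E → k ∉ J → AffineIndependent ℝ (fun i : J => x i) →
      AffineIndependent ℝ (fun i : (insert k J : Finset (Fin n)) => x i) := by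
    rw [ae_all_iff]
    intro J
    rw [ae_all_iff]
    intro k
    by_cases hJ : J.card ≤ Module.finrank ℝ E
    · by_cases hk : k ∉ J
      · filter_upwards [GP.null_one μ ν hν hd J hJ k hk] with x hx _ _ using hx
      · exact Eventually.of_forall fun x _ h => absurd h hk
    · exact Eventually.of_forall fun x h => absurd h hJ
  filter_upwards [hall] with x hx
  intro J
  induction J using Finset.induction_on with
  | empty =>
    intro _
    exact affineIndependent_of_subsingleton ℝ _
  | insert k J hk ih =>
    intro hc
    rw [Finset.card_insert_of_notMem hk] at hc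
    exact hx J k (by omega) hk (ih (by omega))

end Pool.Agent.R292.BB
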