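import Pool.Agent.R292.BB.Stm

/-!
Project BB: piece GSET.
-/

set_option autoImplicit false

open MeasureTheory Set Filter Topology
open scoped ENNReal

namespace Pool.Agent.R292.BB

namespace GSET

theorem meas_secR {k : ℕ} (v : EuclideanSpace ℝ (Fin k)) (t r R : ℝ) :
    MeasurableSet (secR v t r R) := by
  unfold secR
  have h1 : MeasurableSet {y : EuclideanSpace ℝ (Fin k) | r < ‖y‖} :=
    measurableSet_lt measurable_const continuous_norm.measurable
  have h2 : MeasurableSet {y : EuclideanSpace ℝ (Fin k) | ‖y‖ ≤ R} :=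
    measurableSet_le continuous_norm.measurable measurable_const
  have h3 : MeasurableSet {y : EuclideanSpace ℝ (Fin k) | (1 - t) * ‖y‖ ≤ inner ℝ v y} :=
    measurableSet_le (continuous_const.mul continuous_norm).measurable
      (continuous_const.inner continuous_id).measurable
  exact h1.inter (h2.inter h3)

theorem secR_sub {k : ℕ} (v : EuclideanSpace ℝ (Fin k)) (t : ℝ) (h0 : 0 < t) (h1 : t ≤ 1) :
    secR v t (1 - t) (1 - 3 * t / 4) ⊆ gset v t := by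
  rintro y ⟨h2, h3, h4⟩
  refine ⟨h2.le, by linarith, ?_⟩
  nlinarith [mul_nonneg (sub_nonneg.mpr h1) (sub_nonneg.mpr h2.le)]

theorem dens (b t x : ℝ) (h0 : 0 < t) (hx1 : 3 * t / 4 ≤ x) (hx2 : x ≤ 2 * t) :
    min ((3 / 4 : ℝ) ^ b) ((2 : ℝ) ^ b) * t ^ b ≤ x ^ b := by
  have hx : 0 < x := by linarith
  rcases le_or_gt 0 b with hb | hb
  · calc min ((3 / 4 : ℝ) ^ b) ((2 : ℝ) ^ b) * t ^ b ≤ (3 / 4 : ℝ) ^ b * t ^ b :=
        mul_le_mul_of_nonneg_right (min_le_left _ _) (Real.rpow_nonneg h0.le _)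
      _ = (3 / 4 * t) ^ b := (Real.mul_rpow (by norm_num) h0.le).symm
      _ ≤ x ^ b := Real.rpow_le_rpow (by positivity) (by linarith) hb
  · calc min ((3 / 4 : ℝ) ^ b) ((2 : ℝ) ^ b) * t ^ b ≤ (2 : ℝ) ^ b * t ^ b :=
        mul_le_mul_of_nonneg_right (min_le_right _ _) (Real.rpow_nonneg h0.le _)
      _ = (2 * t) ^ b := (Real.mul_rpow (by norm_num) h0.le).symm
      _ ≤ x ^ b := Real.rpow_le_rpow_of_nonpos hx hx2 hb.le

theorem pow_diff (k : ℕ) (hk : 1 ≤ k) (t : ℝ) (h0 : 0 < t) (h1 : t ≤ 1) :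
    t * (1 / 4 : ℝ) ^ k ≤ (1 - 3 * t / 4) ^ k - (1 - t) ^ k := by
  obtain ⟨j, rfl⟩ : ∃ j, k = j + 1 := ⟨k - 1, by omega⟩
  have hR : (1 / 4 : ℝ) ≤ 1 - 3 * t / 4 := by linarith
  have hr : 0 ≤ 1 - t := by linarith
  have h2 : (1 - t) ^ j ≤ (1 - 3 * t / 4) ^ j := pow_le_pow_left₀ hr (by linarith) j
  have h3 : (1 / 4 : ℝ) ^ j ≤ (1 - 3 * t / 4) ^ j := pow_le_pow_left₀ (by norm_num) hR j
  have h4 : (1 - t) * (1 - t) ^ j ≤ (1 - t) * (1 - 3 * t / 4) ^ j :=
    mul_le_mul_of_nonneg_left h2 hr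
  have h5 : t / 4 * (1 / 4 : ℝ) ^ j ≤ t / 4 * (1 - 3 * t / 4) ^ j :=
    mul_le_mul_of_nonneg_left h3 (by positivity)
  rw [pow_succ, pow_succ, pow_succ]
  nlinarith

end GSET

open GSET in
/-- BB-GSET. -/
theorem t_GSET (h1 : T_BM) (h2 : T_CONE) (h3 : T_SC) : T_GSET := by
  intro k b hk hb
  obtain ⟨c0, C0, hc0, _, hcone⟩ := h2 k hk
  obtain ⟨hZ0, hZ1, _, _, _⟩ := h1 k b hk hb
  set Z := betaRaw k b Set.univ with hZ
  set m : ℝ := min ((3 / 4 : ℝ) ^ b) ((2 : ℝ) ^ b) with hm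
  have hmpos : 0 < m := lt_min (Real.rpow_pos_of_pos (by norm_num) _)
    (Real.rpow_pos_of_pos (by norm_num) _)
  have hZr : 0 < Z.toReal := ENNReal.toReal_pos hZ0 hZ1
  refine ⟨(Z.toReal)⁻¹ * (m * (1 / 4 : ℝ) ^ k * c0), by positivity, ?_⟩
  intro v hv t ht0 ht1
  have hmono : betaM k b (secR v t (1 - t) (1 - 3 * t / 4)) ≤ betaM k b (gset v t) :=
    measure_mono (secR_sub v t ht0 ht1)
  refine le_trans ?_ hmono
  set S := secR v t (1 - t) (1 - 3 * t / 4) with hS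
  have hSm : MeasurableSet S := meas_secR v t _ _
  have hSball : S ⊆ Metric.closedBall (0 : EuclideanSpace ℝ (Fin k)) 1 := by
    rintro y ⟨_, h5, _⟩
    rw [mem_closedBall_zero_iff]
    linarith
  have hvol : ENNReal.ofReal (t * (1 / 4 : ℝ) ^ k) *
      ENNReal.ofReal (c0 * t ^ (((k : ℝ) - 1) / 2)) ≤ volume S := by
    rw [hS, h3 k hk v t (1 - t) (1 - 3 * t / 4) (by linarith) (by linarith) (by linarith)]
    exact mul_le_mul' (ENNReal.ofReal_le_ofReal (pow_diff k hk t ht0 ht1))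
      (hcone v hv t ht0 ht1).1
  have hraw : ENNReal.ofReal (m * t ^ b) * volume S ≤ betaRaw k b S := by
    unfold betaRaw
    rw [withDensity_apply _ hSm, Measure.restrict_restrict hSm,
      Set.inter_eq_left.mpr hSball, ← setLIntegral_const]
    apply setLIntegral_mono' hSm
    rintro y ⟨h5, h6, _⟩
    apply ENNReal.ofReal_le_ofReal
    apply dens b t _ ht0
    · nlinarith [norm_nonneg y]
    · nlinarith [norm_nonneg y]
  have hkey : ENNReal.ofReal (m * (1 / 4 : ℝ) ^ k * c0 * t ^ alp k b) ≤ betaRaw k b S := by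
    refine le_trans ?_ (le_trans (mul_le_mul' le_rfl hvol) hraw)
    rw [← ENNReal.ofReal_mul (by positivity), ← ENNReal.ofReal_mul (by positivity)]
    apply ENNReal.ofReal_le_ofReal
    have hp : t ^ alp k b = t ^ b * (t * t ^ (((k : ℝ) - 1) / 2)) := by
      have h7 : t * t ^ (((k : ℝ) - 1) / 2) = t ^ (1 + ((k : ℝ) - 1) / 2) := by
        rw [Real.rpow_add ht0, Real.rpow_one]
      rw [h7, ← Real.rpow_add ht0]
      congr 1
      unfold alp
      ring
    rw [hp]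
    apply le_of_eq
    ring
  have hbm : betaM k b S = Z⁻¹ * betaRaw k b S := by
    unfold betaM
    rw [Measure.smul_apply, smul_eq_mul]
  rw [hbm]
  have hZi : Z⁻¹ = ENNReal.ofReal ((Z.toReal)⁻¹) := by
    rw [ENNReal.ofReal_inv_of_pos hZr, ENNReal.ofReal_toReal hZ1]
  rw [hZi]
  calc ENNReal.ofReal ((Z.toReal)⁻¹ * (m * (1 / 4 : ℝ) ^ k * c0) * t ^ alp k b)
      = ENNReal.ofReal ((Z.toReal)⁻¹) *
        ENNReal.ofReal (m * (1 / 4 : ℝ) ^ k * c0 * t ^ alp k b) := by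
        rw [← ENNReal.ofReal_mul (by positivity)]
        congr 1
        ring
    _ ≤ _ := mul_le_mul' le_rfl hkey

end Pool.Agent.R292.BB
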