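import Pool.Agent.R292.BB.Stm

/-!
Project BB (helper292): caps of the product are close to products of caps (HSC), and the
pointwise statement (PT).
-/

set_option autoImplicit false

open MeasureTheory Set Filter Topology
open scoped ENNReal

namespace Pool.Agent.R292.BB

open Pool.Agent.W712.RP

namespace HSC

/-- Representation of a continuous functional on a product of Euclidean spaces. -/
theorem repr_l {m : ℕ} {d : Fin m → ℕ}
    (l : (∀ i, EuclideanSpace ℝ (Fin (d i))) →L[ℝ] ℝ) :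
    ∃ a : ∀ i, EuclideanSpace ℝ (Fin (d i)), ∀ y, l y = ∑ i, inner ℝ (a i) (y i) := by
  refine ⟨fun i => (InnerProductSpace.toDual ℝ (EuclideanSpace ℝ (Fin (d i)))).symm
    (l.comp (ContinuousLinearMap.single ℝ (fun i => EuclideanSpace ℝ (Fin (d i))) i)), ?_⟩
  intro y
  have h1 : y = ∑ i, Pi.single i (y i) := (Finset.univ_sum_single y).symm
  conv_lhs => rw [h1]
  rw [map_sum]
  apply Finset.sum_congr rfl
  intro i _
  rw [InnerProductSpace.toDual_symm_apply]
  rfl

/-- A unit vector `v` with `a = ‖a‖ v`. -/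
theorem unit_dir {k : ℕ} (hk : 0 < k) (a : EuclideanSpace ℝ (Fin k)) :
    ∃ v : EuclideanSpace ℝ (Fin k), ‖v‖ = 1 ∧ ∀ y, inner ℝ a y = ‖a‖ * inner ℝ v y := by
  by_cases ha : a = 0
  · refine ⟨EuclideanSpace.single (⟨0, hk⟩ : Fin k) (1 : ℝ), by simp, fun y => ?_⟩
    simp [ha]
  · have hn : ‖a‖ ≠ 0 := norm_ne_zero_iff.mpr ha
    refine ⟨(‖a‖)⁻¹ • a, ?_, fun y => ?_⟩
    · rw [norm_smul, norm_inv, norm_norm, inv_mul_cancel₀ hn]
    · rw [real_inner_smul_left, ← mul_assoc, mul_inv_cancel₀ hn, one_mul]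

end HSC

theorem t_HSC : T_HSC := by
  intro m hm d hd l c hy0
  obtain ⟨a, ha⟩ := HSC.repr_l l
  choose v hv1 hv2 using fun i => HSC.unit_dir (hd i) (a i)
  have hl : ∀ y, l y = ∑ i, ‖a i‖ * inner ℝ (v i) (y i) := by
    intro y
    rw [ha y]
    exact Finset.sum_congr rfl fun i _ => hv2 i (y i)
  have hin : ∀ i, ∀ y : EuclideanSpace ℝ (Fin (d i)), ‖y‖ ≤ 1 → |inner ℝ (v i) y| ≤ ‖y‖ := by
    intro i y hy
    have := abs_real_inner_le_norm (v i) y
    rwa [hv1 i, one_mul] at this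
  set δ : ℝ := ∑ i, ‖a i‖ - c with hδ
  obtain ⟨y0, hy1, hy2⟩ := hy0
  have hδ0 : 0 ≤ δ := by
    have h1 : l y0 ≤ ∑ i, ‖a i‖ := by
      rw [hl]
      apply Finset.sum_le_sum
      intro i _
      have h2 := hin i (y0 i) (hy1 i).le
      have h3 := (abs_le.mp h2).2
      have h4 := hy1 i
      have h5 := norm_nonneg (a i)
      nlinarith
    linarith
  have hδ1 : ∀ i, a i ≠ 0 → 0 < δ := by
    intro i hi
    have h1 : l y0 < ∑ i, ‖a i‖ := by
      rw [hl]
      apply Finset.sum_lt_sum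
      · intro j _
        have h2 := hin j (y0 j) (hy1 j).le
        have h3 := (abs_le.mp h2).2
        have h4 := hy1 j
        have h5 := norm_nonneg (a j)
        nlinarith
      · refine ⟨i, Finset.mem_univ i, ?_⟩
        have h2 := hin i (y0 i) (hy1 i).le
        have h3 := (abs_le.mp h2).2
        have h4 := hy1 i
        have h5 : 0 < ‖a i‖ := norm_pos_iff.mpr hi
        nlinarith
    linarith
  set t : Fin m → ℝ := fun i => if a i = 0 then 2 else min (δ / ‖a i‖) 2 with ht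
  have ht0 : ∀ i, 0 < t i ∧ t i ≤ 2 := by
    intro i
    simp only [ht]
    split_ifs with h
    · norm_num
    · have h1 : 0 < ‖a i‖ := norm_pos_iff.mpr h
      exact ⟨lt_min (div_pos (hδ1 i h) h1) (by norm_num), min_le_right _ _⟩
  have hat : ∀ i, ‖a i‖ * t i ≤ δ := by
    intro i
    simp only [ht]
    split_ifs with h
    · rw [h]; simpa using hδ0
    · have h1 : 0 < ‖a i‖ := norm_pos_iff.mpr h
      have h2 : min (δ / ‖a i‖) 2 ≤ δ / ‖a i‖ := min_le_left _ _
      have h3 := mul_le_mul_of_nonneg_left h2 h1.le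
      rwa [mul_div_cancel₀ _ h1.ne'] at h3
  refine ⟨v, t, fun i => ⟨hv1 i, (ht0 i).1, (ht0 i).2⟩, ?_, ?_⟩
  · intro y hy hc i
    refine ⟨hy i, ?_⟩
    have h2 := hin i (y i) (hy i)
    have h3 := (abs_le.mp h2).1
    have h4 : 1 - inner ℝ (v i) (y i) ≤ 2 := by linarith [hy i]
    simp only [ht]
    split_ifs with h
    · exact h4
    · have h1 : 0 < ‖a i‖ := norm_pos_iff.mpr h
      refine le_min ?_ h4
      rw [le_div_iff₀ h1]
      have h5 : ‖a i‖ * (1 - inner ℝ (v i) (y i)) ≤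
          ∑ j, ‖a j‖ * (1 - inner ℝ (v j) (y j)) := by
        refine Finset.single_le_sum
          (f := fun j => ‖a j‖ * (1 - inner ℝ (v j) (y j))) (fun j _ => ?_) (Finset.mem_univ i)
        have h6 := (abs_le.mp (hin j (y j) (hy j))).2
        have h7 := hy j
        exact mul_nonneg (norm_nonneg _) (by linarith)
      have h8 : ∑ j, ‖a j‖ * (1 - inner ℝ (v j) (y j)) = ∑ j, ‖a j‖ - l y := by
        rw [hl y, ← Finset.sum_sub_distrib]
        exact Finset.sum_congr rfl fun j _ => by ring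
      rw [mul_comm]
      linarith
  · intro y hy
    have hm' : (0 : ℝ) < m := by exact_mod_cast hm
    have h1 : ∑ j, ‖a j‖ * (1 - inner ℝ (v j) (y j)) = ∑ j, ‖a j‖ - l y := by
      rw [hl y, ← Finset.sum_sub_distrib]
      exact Finset.sum_congr rfl fun j _ => by ring
    have h2 : ∑ j, ‖a j‖ * (1 - inner ℝ (v j) (y j)) ≤ ∑ _j : Fin m, δ / m := by
      apply Finset.sum_le_sum
      intro j _
      have h3 := (hy j).2
      have h4 : ‖a j‖ * (1 - inner ℝ (v j) (y j)) ≤ ‖a j‖ * (t j / m) :=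
        mul_le_mul_of_nonneg_left h3 (norm_nonneg _)
      have h5 : ‖a j‖ * (t j / m) = (‖a j‖ * t j) / m := by ring
      rw [h5] at h4
      exact h4.trans (div_le_div_of_nonneg_right (hat j) hm'.le)
    have h6 : ∑ _j : Fin m, δ / m = δ := by
      rw [Finset.sum_const, Finset.card_univ, Fintype.card_fin, nsmul_eq_mul]
      field_simp
    rw [h6, h1] at h2
    linarith

theorem t_PT (h1 : T_HSC) (h2 : T_GEO) : T_PT := by
  intro m hm d hd n x I hI hx hF
  obtain ⟨l, c, hlI, hlc⟩ := hF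
  obtain ⟨j0, hj0⟩ := hI
  obtain ⟨v, t, hvt, hout, hin⟩ := h1 m hm d hd l c ⟨x j0, hx j0, (hlI j0 hj0).ge⟩
  have hm' : (1 : ℝ) ≤ m := by exact_mod_cast hm
  refine ⟨v, fun i => t i / (16 * m), ?_, ?_⟩
  · intro i
    obtain ⟨ha, hb, hc⟩ := hvt i
    refine ⟨ha, by positivity, ?_⟩
    rw [div_le_one (by positivity)]
    linarith
  · intro z hz
    have hg := fun i => h2 (d i) m hm (v i) (z i) (t i) (hvt i).1 (hvt i).2.1 (hvt i).2.2 (hz i)
    constructor
    · intro j hj i
      exact (hg i).1 _ (hout (x j) (fun i => (hx j i).le) (hlI j hj).ge i)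
    · intro j hj hall
      have h3 := hin (x j) (fun i => (hg i).2 _ (hall i))
      exact absurd (hlc j hj) (not_lt.mpr h3)

end Pool.Agent.R292.BB
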