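import Pool.Agent.R292.BB.Stm

/-!
Project BB (helper292), part LOS: the lower bound for the vertex probability.
-/

set_option autoImplicit false

open MeasureTheory Set Filter Topology
open scoped ENNReal

namespace Pool.Agent.R292.BB

open Pool.Agent.W712.RP

namespace LOS

theorem rho_nonneg {m : ℕ} (d : Fin m → ℕ) (β : Fin m → ℝ)
    (z : ∀ i, EuclideanSpace ℝ (Fin (d i))) : 0 ≤ rho d β z := by
  unfold rho
  exact Finset.prod_nonneg fun i _ => Real.rpow_nonneg (le_max_right _ _) _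

theorem arith {c C : ℝ} (hc : 0 < c) (hC : 1 ≤ C) {F W W' : ℝ≥0∞}
    (h1 : ENNReal.ofReal c * W ≤ 4 * F) (h2 : W' ≤ ENNReal.ofReal C * W) :
    ENNReal.ofReal (c / (4 * C)) * W' ≤ F := by
  have hC0 : 0 < C := zero_lt_one.trans_le hC
  calc ENNReal.ofReal (c / (4 * C)) * W'
      ≤ ENNReal.ofReal (c / (4 * C)) * (ENNReal.ofReal C * W) := by gcongr
    _ = ENNReal.ofReal (1 / 4) * (ENNReal.ofReal c * W) := by
        rw [← mul_assoc, ← mul_assoc, ← ENNReal.ofReal_mul (by positivity),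
          ← ENNReal.ofReal_mul (by positivity)]
        congr 2
        field_simp
    _ ≤ ENNReal.ofReal (1 / 4) * (4 * F) := by gcongr
    _ = F := by
        rw [← mul_assoc]
        have h4 : (4 : ℝ≥0∞) = ENNReal.ofReal 4 := by norm_num
        rw [h4, ← ENNReal.ofReal_mul (by norm_num)]
        norm_num

end LOS

open LOS in
theorem t_LOS (h1 : T_BM) (h2 : T_AC) (h3 : T_LOW) (h4 : T_MC) (h5 : T_RHO) (h6 : S_WG) :
    T_LOS := by
  intro m hm d hd β hβ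
  obtain ⟨hP, -, hae⟩ := h2 m d hd β hβ
  obtain ⟨C, hC, hMC⟩ := h4 m hm d hd β hβ
  obtain ⟨hgam, hmeas, c₁, C₁, hc₁, -, hrho⟩ := h5 m hm d hd β hβ
  obtain ⟨-, -, hW⟩ := h6 m hm (fun i => gam (d i) (β i)) hgam
  obtain ⟨C', hC', hCC⟩ : ∃ C' : ℝ, 1 ≤ C' ∧ C ≤ C' := ⟨max C 1, le_max_right _ _, le_max_left _ _⟩
  have hC0 : 0 < C' := zero_lt_one.trans_le hC'
  refine ⟨c₁ / (4 * C'), by positivity, ?_⟩
  intro n hn i
  obtain ⟨n', rfl⟩ : ∃ n', n = n' + 1 := ⟨n - 1, by omega⟩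
  have hn0 : (0 : ℝ) < ((n' + 1 : ℕ) : ℝ) := by positivity
  have hn'0 : (0 : ℝ) < (n' : ℝ) := by
    have : 0 < n' := by omega
    exact_mod_cast this
  obtain ⟨s, hs⟩ : ∃ s : ℝ, s = 1 / (C' * ((n' + 1 : ℕ) : ℝ)) := ⟨_, rfl⟩
  have hs0 : 0 < s := by rw [hs]; positivity
  have hA : MeasurableSet {z : ∀ i, EuclideanSpace ℝ (Fin (d i)) |
      (∀ i, ‖z i‖ < 1) ∧ rho d β z ≤ s} := by
    have h7 : {z : ∀ i, EuclideanSpace ℝ (Fin (d i)) | (∀ i, ‖z i‖ < 1) ∧ rho d β z ≤ s}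
        = (⋂ i, {z | ‖z i‖ < 1}) ∩ {z | rho d β z ≤ s} := by
      ext z; simp
    rw [h7]
    exact (MeasurableSet.iInter fun j =>
      measurableSet_lt ((measurable_pi_apply j).norm) measurable_const).inter
      (measurableSet_le hmeas measurable_const)
  have key := h3 (∀ i, EuclideanSpace ℝ (Fin (d i))) (blockBeta d β) n' (by omega)
    {z | (∀ i, ‖z i‖ < 1) ∧ rho d β z ≤ s} hA (by
      rintro z ⟨hz1, hz2⟩
      obtain ⟨l, hl⟩ := hMC z hz1
      refine ⟨l, hl.trans (ENNReal.ofReal_le_ofReal ?_)⟩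
      calc C * rho d β z ≤ C' * s :=
            mul_le_mul hCC hz2 (rho_nonneg d β z) hC0.le
        _ = 1 / ((n' + 1 : ℕ) : ℝ) := by
            rw [hs]; field_simp
        _ ≤ 1 / (n' : ℝ) := one_div_le_one_div_of_le hn'0 (by push_cast; linarith)) i
  have hmono : blockBeta d β {z | rho d β z ≤ s} ≤
      blockBeta d β {z | (∀ i, ‖z i‖ < 1) ∧ rho d β z ≤ s} := by
    refine measure_mono_ae ?_
    filter_upwards [hae] with z hz hz2
    exact ⟨hz, hz2⟩
  refine arith hc₁ hC' (((hrho s hs0).1.trans hmono).trans key) ?_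
  have e : (1 : ℝ) / ((n' + 1 : ℕ) : ℝ) = C' * s := by
    rw [hs]; field_simp
  rw [e]
  exact hW C' s hC' hs0

end Pool.Agent.R292.BB
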