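import Pool.Agent.R292.BB.Stm

/-!
Project BB (helper292), piece LOW: the lower bound for the vertex probability (helper711;
adapted from `Pool.Agent.W371.RP.Low` and `Pool.Agent.W521.RP.EFC`).
-/

set_option autoImplicit false

open MeasureTheory Set Filter Topology
open scoped ENNReal

namespace Pool.Agent.R292.BB

open Pool.Agent.W712.RP

namespace LOW

theorem quarter (n : ℕ) (hn : 2 ≤ n) : (1 : ℝ) / 4 ≤ (1 - 1 / (n : ℝ)) ^ n := by
  have hn' : (2 : ℝ) ≤ n := by exact_mod_cast hn
  have hn0 : (0 : ℝ) < n := by linarith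
  have h1 : (1 : ℝ) / n ≤ 1 / 2 := one_div_le_one_div_of_le (by norm_num) hn'
  have h0 : (0 : ℝ) ≤ 1 - 1 / n := by linarith
  have hb := one_add_mul_self_le_rpow_one_add (s := -(1 / (n : ℝ))) (p := (n : ℝ) / 2)
    (by linarith) (by linarith)
  have e1 : 1 + (n : ℝ) / 2 * -(1 / (n : ℝ)) = 1 / 2 := by
    field_simp
    norm_num
  have e2 : (1 : ℝ) + -(1 / (n : ℝ)) = 1 - 1 / n := by ring
  rw [e1, e2] at hb
  have e3 : (1 - 1 / (n : ℝ)) ^ n = ((1 - 1 / (n : ℝ)) ^ ((n : ℝ) / 2)) ^ 2 := by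
    rw [← Real.rpow_natCast (((1 - 1 / (n : ℝ)) ^ ((n : ℝ) / 2))) 2, ← Real.rpow_mul h0,
      ← Real.rpow_natCast]
    congr 1
    push_cast
    ring
  rw [e3]
  nlinarith

theorem quarter' (n : ℕ) (hn : 2 ≤ n) : (1 : ℝ≥0∞) ≤ 4 * (1 - ENNReal.ofReal (1 / n)) ^ n := by
  have h := quarter n hn
  have hn' : (2 : ℝ) ≤ n := by exact_mod_cast hn
  have hn0 : (0 : ℝ) < n := by linarith
  have h1 : (1 : ℝ) / n ≤ 1 / 2 := one_div_le_one_div_of_le (by norm_num) hn'
  have h0 : (0 : ℝ) ≤ 1 - 1 / n := by linarith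
  have e1 : (1 : ℝ≥0∞) - ENNReal.ofReal (1 / n) = ENNReal.ofReal (1 - 1 / n) := by
    rw [ENNReal.ofReal_sub _ (by positivity), ENNReal.ofReal_one]
  have e2 : (4 : ℝ≥0∞) = ENNReal.ofReal 4 := by norm_num
  rw [e1, ← ENNReal.ofReal_pow h0, e2, ← ENNReal.ofReal_mul (by norm_num), ← ENNReal.ofReal_one]
  apply ENNReal.ofReal_le_ofReal
  linarith

end LOW

theorem t_LOW (h : S_MF) : T_LOW := by
  intro E _ _ _ _ _ ν _ n hn A hA hcap i
  have hms := h E (n + 1) {i}
  have hmp := measurePreserving_piFinSuccAbove (fun _ : Fin (n + 1) => ν) i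
  set e := MeasurableEquiv.piFinSuccAbove (fun _ : Fin (n + 1) => E) i with he
  have hms2 : MeasurableSet (e.symm ⁻¹' {x : Fin (n + 1) → E | FaceSet x {i}}) :=
    e.symm.measurable hms
  have h1 : faceQ ν (n + 1) {i} = (ν.prod (Measure.pi fun _ : Fin n => ν))
      (e.symm ⁻¹' {x : Fin (n + 1) → E | FaceSet x {i}}) := by
    unfold faceQ
    rw [← hmp.measure_preimage hms2.nullMeasurableSet]
    congr 1
    ext x
    simp
  rw [h1, Measure.prod_apply hms2, ← lintegral_const_mul' _ _ (by norm_num),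
    ← lintegral_indicator_one hA]
  apply lintegral_mono
  intro z
  by_cases hz : z ∈ A
  · simp only [hz, indicator_of_mem, Pi.one_apply]
    obtain ⟨l, hl⟩ := hcap z hz
    have hsub : (Set.pi Set.univ fun _ : Fin n => {y | l y < l z}) ⊆
        Prod.mk z ⁻¹' (e.symm ⁻¹' {x : Fin (n + 1) → E | FaceSet x {i}}) := by
      intro x hx
      change FaceSet (Fin.insertNth i z x) {i}
      refine ⟨l, l z, ?_, ?_⟩
      · intro j hj
        rw [Finset.mem_singleton] at hj
        subst hj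
        simp
      · intro k hk
        rw [Finset.mem_singleton] at hk
        obtain ⟨j, rfl⟩ := Fin.exists_succAbove_eq hk
        have h3 : (Fin.insertNth i z x : Fin (n + 1) → E) (i.succAbove j) = x j := by simp
        rw [h3]
        exact hx j (Set.mem_univ j)
    have hml : MeasurableSet {y | l z ≤ l y} :=
      measurableSet_le measurable_const l.continuous.measurable
    have h2 : 1 - ENNReal.ofReal (1 / n) ≤ ν {y | l y < l z} := by
      have e1 : {y | l y < l z} = {y | l z ≤ l y}ᶜ := by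
        ext y
        simp
      rw [e1, prob_compl_eq_one_sub hml]
      exact tsub_le_tsub_left hl 1
    calc (1 : ℝ≥0∞) ≤ 4 * (1 - ENNReal.ofReal (1 / n)) ^ n := LOW.quarter' n hn
      _ ≤ 4 * (ν {y | l y < l z}) ^ n := by gcongr
      _ = 4 * (Measure.pi fun _ : Fin n => ν)
          (Set.pi Set.univ fun _ : Fin n => {y | l y < l z}) := by
        rw [Measure.pi_pi, Finset.prod_const, Finset.card_univ, Fintype.card_fin]
      _ ≤ _ := by gcongr
  · simp only [hz, not_false_eq_true, indicator_of_notMem]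
    exact zero_le

end Pool.Agent.R292.BB
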