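import Pool.Agent.R292.BB.Stm

/-!
Project BB, part MAIN (helper31): two-sided bounds.
-/

set_option autoImplicit false

open MeasureTheory Set Filter Topology
open scoped ENNReal

namespace Pool.Agent.R292.BB

open Pool.Agent.W712.RP

namespace MAIN

lemma gam_bd {k : ℕ} {b : ℝ} (hk : 0 < k) (hb : -1 < b) : 0 < gam k b ∧ gam k b ≤ 1 := by
  have h1 : (1 : ℝ) ≤ k := by exact_mod_cast hk
  have h2 : 0 < alp k b := by
    unfold alp
    linarith
  unfold gam
  refine ⟨div_pos (by linarith) h2, ?_⟩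
  rw [div_le_one h2]
  unfold alp
  linarith

end MAIN

open MAIN in
theorem t_MAIN (h1 : T_BM) (h2 : T_AC) (h3 : T_EFA) (h4 : T_EFB) (h5 : T_LOS) (h6 : T_UPS)
    (h7 : S_WG) : T_MAIN := by
  intro m hm d hd β hβ
  obtain ⟨hprob, hac, -⟩ := h2 m d hd β hβ
  have hfr : Module.finrank ℝ (∀ i, EuclideanSpace ℝ (Fin (d i))) = ∑ i, d i := by
    rw [Module.finrank_pi_fintype]
    simp
  have hEA := fun (n : ℕ) (hn : (∑ i, d i) + 1 ≤ n) (j : ℕ) (hj : j < ∑ i, d i) =>
    h3 (∀ i, EuclideanSpace ℝ (Fin (d i))) volume (blockBeta d β) hac n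
      (by rw [hfr]; exact hn) j (by rw [hfr]; exact hj)
  have hEB : ∀ (n : ℕ) (_ : (∑ i, d i) + 1 ≤ n) (j : ℕ) (_ : j < ∑ i, d i),
      ∑ I ∈ Finset.powersetCard 1 (Finset.univ : Finset (Fin n)), faceQ (blockBeta d β) n I ≤
      ((j + 1 : ℕ) : ℝ≥0∞) *
        ∑ I ∈ Finset.powersetCard (j + 1) (Finset.univ : Finset (Fin n)),
          faceQ (blockBeta d β) n I ∧
      ∑ I ∈ Finset.powersetCard (j + 1) (Finset.univ : Finset (Fin n)),
        faceQ (blockBeta d β) n I ≤
      ((∑ i, d i).choose (j + 1) : ℝ≥0∞) *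
        ∑ I ∈ Finset.powersetCard (∑ i, d i) (Finset.univ : Finset (Fin n)),
          faceQ (blockBeta d β) n I := by
    intro n hn j hj
    have := h4 (∀ i, EuclideanSpace ℝ (Fin (d i))) volume (blockBeta d β) hac n
      (by rw [hfr]; exact hn) j (by rw [hfr]; exact hj)
    rwa [hfr] at this
  refine ⟨fun i => (h1 (d i) (β i) (hd i) (hβ i)).2.2.1, fun j hj n hn => (hEA n hn j hj).1, ?_⟩
  obtain ⟨c, hc, hlos⟩ := h5 m hm d hd β hβ
  obtain ⟨C, hC, hups⟩ := h6 m hm d hd β hβ
  set a : Fin m → ℝ := fun i => gam (d i) (β i) with ha_def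
  have ha : ∀ i, 0 < a i ∧ a i ≤ 1 := fun i => gam_bd (hd i) (hβ i)
  obtain ⟨hWp, -, -⟩ := h7 m hm a ha
  set D := ∑ i, d i with hD
  have hDpos : 0 < D := Finset.sum_pos (fun i _ => hd i) ⟨⟨0, hm⟩, Finset.mem_univ _⟩
  have hD0 : (0 : ℝ) < D := by exact_mod_cast hDpos
  refine ⟨c / D, 2 ^ D * C, by positivity, by positivity, 2 * D + 3, fun n hn j hj => ?_⟩
  have hn0 : (0 : ℝ) < n := by
    have : 0 < n := by omega
    exact_mod_cast this
  obtain ⟨hW0, hW1⟩ := hWp (1 / n) (by positivity)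
  have hWne : Wf a (1 / n) ≠ ⊤ := ne_top_of_le_ne_top ENNReal.one_ne_top hW1
  set W : ℝ := (Wf a (1 / n)).toReal with hWdef
  have hWof : Wf a (1 / n) = ENNReal.ofReal W := (ENNReal.ofReal_toReal hWne).symm
  have hWpos : 0 < W := ENNReal.toReal_pos hW0.ne' hWne
  have hE0 : 0 ≤ expF d β n j := by
    unfold expF
    exact integral_nonneg fun x => Nat.cast_nonneg _
  have hofE : ENNReal.ofReal (expF d β n j) =
      ∑ I ∈ Finset.powersetCard (j + 1) (Finset.univ : Finset (Fin n)),
        faceQ (blockBeta d β) n I := (hEA n (by omega) j hj).2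
  refine ⟨?_, ?_, hWpos⟩
  · -- lower bound
    have e1 := (hEB n (by omega) j hj).1
    rw [← hofE] at e1
    have e2 : ENNReal.ofReal (n * (c * W)) ≤
        ∑ I ∈ Finset.powersetCard 1 (Finset.univ : Finset (Fin n)),
          faceQ (blockBeta d β) n I := by
      rw [Finset.powersetCard_one, Finset.sum_map]
      have e3 : ENNReal.ofReal (n * (c * W)) = ∑ _i : Fin n, ENNReal.ofReal (c * W) := by
        rw [Finset.sum_const, Finset.card_univ, Fintype.card_fin, nsmul_eq_mul,
          ENNReal.ofReal_mul hn0.le, ENNReal.ofReal_natCast]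
      rw [e3]
      refine Finset.sum_le_sum fun i _ => ?_
      have := hlos n (by omega) i
      rw [hWof, ← ENNReal.ofReal_mul hc.le] at this
      exact this
    have e4 := e2.trans e1
    rw [← ENNReal.ofReal_natCast, ← ENNReal.ofReal_mul (Nat.cast_nonneg _),
      ENNReal.ofReal_le_ofReal_iff (by positivity)] at e4
    have e5 : ((j + 1 : ℕ) : ℝ) * expF d β n j ≤ D * expF d β n j := by
      refine mul_le_mul_of_nonneg_right ?_ hE0
      exact_mod_cast hj
    have e6 := e4.trans e5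
    rw [show c / D * n * W = (n * (c * W)) / D by ring, div_le_iff₀ hD0]
    linarith
  · -- upper bound
    have e1 := (hEB n (by omega) j hj).2
    rw [← hofE] at e1
    have e2 := hups n (by omega)
    have e3 : ENNReal.ofReal (expF d β n j) ≤ ENNReal.ofReal (2 ^ D * C * n * W) := by
      calc ENNReal.ofReal (expF d β n j) ≤ _ := e1
        _ ≤ ((D.choose (j + 1) : ℕ) : ℝ≥0∞) * (ENNReal.ofReal (C * n) * Wf a (1 / n)) := by
            gcongr
        _ ≤ ENNReal.ofReal (2 ^ D) * (ENNReal.ofReal (C * n) * Wf a (1 / n)) := by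
            gcongr
            rw [← ENNReal.ofReal_natCast]
            refine ENNReal.ofReal_le_ofReal ?_
            exact_mod_cast Nat.choose_le_two_pow _ _
        _ = _ := by
            rw [hWof, ← ENNReal.ofReal_mul (by positivity), ← ENNReal.ofReal_mul (by positivity)]
            congr 1
            ring
    rwa [ENNReal.ofReal_le_ofReal_iff (by positivity)] at e3

end Pool.Agent.R292.BB
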