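import Pool.Agent.R292.BB.Stm

/-! BB-MC: small caps. -/

set_option autoImplicit false

open MeasureTheory Set Filter Topology
open scoped ENNReal

namespace Pool.Agent.R292.BB

open Pool.Agent.W712.RP

namespace MC

theorem exists_unit {k : ℕ} (hk : 0 < k) (z : EuclideanSpace ℝ (Fin k)) :
    ∃ u : EuclideanSpace ℝ (Fin k), ‖u‖ = 1 ∧ inner ℝ u z = ‖z‖ := by
  by_cases h : z = 0
  · refine ⟨EuclideanSpace.single (⟨0, hk⟩ : Fin k) (1 : ℝ), by simp, ?_⟩
    rw [h, inner_zero_right, norm_zero]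
  · have hz : ‖z‖ ≠ 0 := norm_ne_zero_iff.2 h
    refine ⟨(‖z‖)⁻¹ • z, ?_, ?_⟩
    · rw [norm_smul, norm_inv, norm_norm, inv_mul_cancel₀ hz]
    · rw [real_inner_smul_left, real_inner_self_eq_norm_sq]
      field_simp

end MC

open MC

/-- Piece MC. -/
theorem t_MC : T_BM → T_AC → T_CAPU → T_MC := by
  intro hBM hAC hCAPU m hm d hd β hβ
  have hprob : ∀ i, IsProbabilityMeasure (betaM (d i) (β i)) := fun i =>
    (hBM (d i) (β i) (hd i) (hβ i)).2.2.1
  have hC := fun i => hCAPU (d i) (β i) (hd i) (hβ i)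
  choose C hC0 hC using hC
  have hm0 : (0 : ℝ) < m := by exact_mod_cast hm
  refine ⟨∏ i, (C i * (m : ℝ) ^ alp (d i) (β i)),
    Finset.prod_pos fun i _ => mul_pos (hC0 i) (Real.rpow_pos_of_pos hm0 _), ?_⟩
  intro z hz
  have hu := fun i => exists_unit (hd i) (z i)
  choose u hu1 hu2 using hu
  have ht : ∀ i, 0 < 1 - ‖z i‖ := fun i => by have := hz i; linarith
  let l : (∀ i, EuclideanSpace ℝ (Fin (d i))) →L[ℝ] ℝ :=
    ∑ i, (1 - ‖z i‖)⁻¹ • ((innerSL ℝ (u i)).comp
      (ContinuousLinearMap.proj (R := ℝ) (φ := fun i => EuclideanSpace ℝ (Fin (d i))) i))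
  have hl : ∀ y, l y = ∑ i, (1 - ‖z i‖)⁻¹ * inner ℝ (u i) (y i) := by
    intro y
    simp only [l, ContinuousLinearMap.sum_apply, ContinuousLinearMap.smul_apply,
      ContinuousLinearMap.comp_apply, ContinuousLinearMap.proj_apply, innerSL_apply_apply,
      smul_eq_mul]
  refine ⟨l, ?_⟩
  obtain ⟨-, -, hae⟩ := hAC m d hd β hβ
  have hsub : {y | l z ≤ l y} ≤ᵐ[blockBeta d β]
      (Set.pi Set.univ fun i => capS (u i) (m * (1 - ‖z i‖))) := by
    filter_upwards [hae] with y hy hly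
    have hly' : l z ≤ l y := hly
    rw [hl, hl] at hly'
    intro i _
    refine ⟨(hy i).le, ?_⟩
    have hin : ∀ i, inner ℝ (u i) (y i) ≤ 1 := fun i => by
      have := real_inner_le_norm (u i) (y i)
      rw [hu1 i, one_mul] at this
      exact this.trans (hy i).le
    have hsum : ∑ i, (1 - ‖z i‖)⁻¹ * (1 - inner ℝ (u i) (y i)) ≤ m := by
      have e1 : ∑ i, (1 - ‖z i‖)⁻¹ * (1 - inner ℝ (u i) (y i)) =
          ∑ i, (1 - ‖z i‖)⁻¹ - ∑ i, (1 - ‖z i‖)⁻¹ * inner ℝ (u i) (y i) := by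
        rw [← Finset.sum_sub_distrib]
        exact Finset.sum_congr rfl fun i _ => by ring
      have e2 : ∑ i, (1 - ‖z i‖)⁻¹ - ∑ i, (1 - ‖z i‖)⁻¹ * inner ℝ (u i) (z i) = m := by
        rw [← Finset.sum_sub_distrib]
        have : ∀ i, (1 - ‖z i‖)⁻¹ - (1 - ‖z i‖)⁻¹ * inner ℝ (u i) (z i) = 1 := by
          intro i
          rw [hu2 i]
          have := (ht i).ne'
          field_simp
        rw [Finset.sum_congr rfl fun i _ => this i]
        simp
      rw [e1]
      linarith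
    have hterm : (1 - ‖z i‖)⁻¹ * (1 - inner ℝ (u i) (y i)) ≤ m := by
      refine le_trans ?_ hsum
      exact Finset.single_le_sum (f := fun i => (1 - ‖z i‖)⁻¹ * (1 - inner ℝ (u i) (y i)))
        (fun i _ => mul_nonneg (inv_nonneg.2 (ht i).le) (by have := hin i; linarith))
        (Finset.mem_univ i)
    rw [inv_mul_le_iff₀ (ht i)] at hterm
    linarith
  calc blockBeta d β {y | l z ≤ l y}
      ≤ blockBeta d β (Set.pi Set.univ fun i => capS (u i) (m * (1 - ‖z i‖))) :=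
        measure_mono_ae hsub
    _ = ∏ i, betaM (d i) (β i) (capS (u i) (m * (1 - ‖z i‖))) := by
        unfold blockBeta
        exact Measure.pi_pi _ _
    _ ≤ ∏ i, ENNReal.ofReal (C i * (m * (1 - ‖z i‖)) ^ alp (d i) (β i)) :=
        Finset.prod_le_prod' fun i _ => hC i (u i) (hu1 i) _ (mul_pos hm0 (ht i))
    _ = ENNReal.ofReal (∏ i, (C i * (m * (1 - ‖z i‖)) ^ alp (d i) (β i))) := by
        rw [ENNReal.ofReal_prod_of_nonneg]
        intro i _
        exact mul_nonneg (hC0 i).le (Real.rpow_nonneg (mul_pos hm0 (ht i)).le _)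
    _ = ENNReal.ofReal ((∏ i, (C i * (m : ℝ) ^ alp (d i) (β i))) * rho d β z) := by
        congr 1
        unfold rho
        rw [← Finset.prod_mul_distrib]
        refine Finset.prod_congr rfl fun i _ => ?_
        rw [max_eq_left (ht i).le, Real.mul_rpow hm0.le (ht i).le]
        ring

end Pool.Agent.R292.BB
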