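import Pool.Agent.R292.BB.Stm

set_option autoImplicit false

open MeasureTheory Set Filter Topology
open scoped ENNReal

namespace Pool.Agent.R292.BB

open Pool.Agent.W712.RP

namespace MPN

lemma alp_pos {k : ℕ} {b : ℝ} (hk : 1 ≤ k) (hb : -1 < b) : 0 < alp k b := by
  unfold alp
  have : (1:ℝ) ≤ k := by exact_mod_cast hk
  linarith

lemma unit_norm {k : ℕ} {z : EuclideanSpace ℝ (Fin k)} (hz : z ≠ 0) : ‖(‖z‖⁻¹ : ℝ) • z‖ = 1 := by
  rw [norm_smul, norm_inv, norm_norm]
  exact inv_mul_cancel₀ (norm_ne_zero_iff.mpr hz)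

lemma inner_unit {k : ℕ} {z : EuclideanSpace ℝ (Fin k)} (hz : z ≠ 0)
    (y : EuclideanSpace ℝ (Fin k)) :
    inner ℝ z y = ‖z‖ * inner ℝ ((‖z‖⁻¹ : ℝ) • z) y := by
  have h : ‖z‖ ≠ 0 := norm_ne_zero_iff.mpr hz
  rw [real_inner_smul_left]
  field_simp

lemma inner_abs {k : ℕ} {u y : EuclideanSpace ℝ (Fin k)} (hu : ‖u‖ = 1) (hy : ‖y‖ ≤ 1) :
    inner ℝ u y ≤ 1 ∧ -1 ≤ inner ℝ u y := by
  have h := abs_real_inner_le_norm u y
  rw [hu, one_mul] at h
  have h2 := abs_le.mp (h.trans hy)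
  exact ⟨h2.2, h2.1⟩

lemma MM_sub {k : ℕ} {z : EuclideanSpace ℝ (Fin k)} (hz : z ≠ 0) (hz1 : ‖z‖ ≤ 1) {A : ℝ}
    (hA : 1 ≤ A) : MM A z ⊆ capS ((‖z‖⁻¹ : ℝ) • z) (2 * A * (1 - ‖z‖)) := by
  rintro y ⟨hy1, hy2⟩
  refine ⟨hy1, ?_⟩
  rw [inner_unit hz] at hy2
  obtain ⟨h1, h2⟩ := inner_abs (unit_norm hz) hy1
  set s := inner ℝ ((‖z‖⁻¹ : ℝ) • z) y
  have hn := norm_nonneg z
  have hAt : 0 ≤ A * (1 - ‖z‖) := mul_nonneg (by linarith) (by linarith)
  rcases le_or_gt 0 s with h | h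
  · nlinarith
  · nlinarith

end MPN

open MPN

theorem t_MP (h1 : T_BM) (h2 : T_CAPU) : T_MP := by
  intro k b hk hb A hA
  obtain ⟨_, _, hprob, _, _⟩ := h1 k b hk hb
  obtain ⟨C0, hC0, hcap⟩ := h2 k b hk hb
  have ha := alp_pos hk hb
  have hA0 : 0 < 2 * A := by linarith
  refine ⟨max 1 (C0 * (2 * A) ^ alp k b), lt_max_of_lt_left one_pos, ?_⟩
  intro z hz1
  by_cases hz : z = 0
  · subst hz
    rw [norm_zero, sub_zero, Real.one_rpow, mul_one]
    calc betaM k b (MM A 0) ≤ 1 := prob_le_one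
      _ = ENNReal.ofReal 1 := by simp
      _ ≤ _ := ENNReal.ofReal_le_ofReal (le_max_left _ _)
  · have ht : 0 ≤ 1 - ‖z‖ := by linarith
    set t := 1 - ‖z‖ with htd
    have hle : ∀ ε : ℝ, 0 < ε → betaM k b (MM A z) ≤
        ENNReal.ofReal (C0 * (2 * A * t + ε) ^ alp k b) := by
      intro ε hε
      have hpos : 0 < 2 * A * t + ε := by
        have := mul_nonneg hA0.le ht
        linarith
      refine (measure_mono ?_).trans (hcap _ (unit_norm hz) _ hpos)
      intro y hy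
      have := MM_sub hz hz1 hA hy
      exact ⟨this.1, this.2.trans (by linarith)⟩
    have hlim : Tendsto (fun ε : ℝ => ENNReal.ofReal (C0 * (2 * A * t + ε) ^ alp k b))
        (𝓝[>] 0) (𝓝 (ENNReal.ofReal (C0 * (2 * A * t + 0) ^ alp k b))) := by
      apply Tendsto.mono_left _ nhdsWithin_le_nhds
      have hc : Continuous (fun ε : ℝ => ENNReal.ofReal (C0 * (2 * A * t + ε) ^ alp k b)) := by
        apply ENNReal.continuous_ofReal.comp
        exact continuous_const.mul
          ((Real.continuous_rpow_const ha.le).comp (continuous_const.add continuous_id))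
      exact hc.tendsto 0
    have h3 : betaM k b (MM A z) ≤ ENNReal.ofReal (C0 * (2 * A * t + 0) ^ alp k b) :=
      ge_of_tendsto hlim (by
        filter_upwards [self_mem_nhdsWithin] with ε hε
        exact hle ε hε)
    refine h3.trans (ENNReal.ofReal_le_ofReal ?_)
    rw [add_zero, Real.mul_rpow hA0.le ht, ← mul_assoc]
    exact mul_le_mul_of_nonneg_right (le_max_right _ _) (Real.rpow_nonneg ht _)

theorem t_MN (h1 : T_BM) (h2 : T_GSET) : T_MN := by
  intro k b hk hb
  obtain ⟨_, _, hprob, _, hae⟩ := h1 k b hk hb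
  obtain ⟨c0, hc0, hg⟩ := h2 k b hk hb
  have ha := alp_pos hk hb
  refine ⟨min 1 (c0 * (1 / 2) ^ alp k b), lt_min one_pos (by positivity), ?_⟩
  intro z hz1
  by_cases hz : z = 0
  · subst hz
    rw [norm_zero, sub_zero, Real.one_rpow, mul_one]
    have hone : betaM k b (MM 2 (0 : EuclideanSpace ℝ (Fin k))) = 1 := by
      refine le_antisymm prob_le_one ?_
      have h1u : betaM k b Set.univ = 1 := measure_univ
      rw [← h1u]
      apply measure_mono_ae
      filter_upwards [hae] with y hy _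
      refine ⟨hy.le, ?_⟩
      rw [inner_zero_left, norm_zero]
      norm_num
    rw [hone]
    calc ENNReal.ofReal (min 1 (c0 * (1 / 2) ^ alp k b)) ≤ ENNReal.ofReal 1 :=
          ENNReal.ofReal_le_ofReal (min_le_left _ _)
      _ = 1 := by simp
  · have ht : 0 ≤ 1 - ‖z‖ := by linarith
    set t := 1 - ‖z‖ with htd
    rcases eq_or_lt_of_le ht with h0 | h0
    · rw [← h0, Real.zero_rpow ha.ne', mul_zero, ENNReal.ofReal_zero]
      exact bot_le
    · have ht1 : t ≤ 1 := by rw [htd]; linarith [norm_nonneg z]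
      have h3 := hg _ (unit_norm hz) (t / 2) (by positivity) (by linarith)
      refine le_trans ?_ (h3.trans (measure_mono ?_))
      · apply ENNReal.ofReal_le_ofReal
        have e : (t / 2) ^ alp k b = (1 / 2) ^ alp k b * t ^ alp k b := by
          rw [← Real.mul_rpow (by norm_num) ht]
          congr 1; ring
        rw [e, ← mul_assoc]
        exact mul_le_mul_of_nonneg_right (min_le_right _ _) (Real.rpow_nonneg ht _)
      · rintro y ⟨_, hy2, hy3⟩
        have hy1 : ‖y‖ ≤ 1 := by linarith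
        refine ⟨hy1, ?_⟩
        rw [inner_unit hz]
        obtain ⟨h4, h5⟩ := inner_abs (unit_norm hz) hy1
        set s := inner ℝ ((‖z‖⁻¹ : ℝ) • z) y
        have hzn : ‖z‖ = 1 - t := by rw [htd]; ring
        rw [hzn]
        have : t * s ≤ t * 1 := mul_le_mul_of_nonneg_left h4 ht
        nlinarith

end Pool.Agent.R292.BB
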