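import Pool.Agent.R292.BB.Stm

/-!
Project BB (helper292): the radial distribution (helper441).
-/

set_option autoImplicit false

open MeasureTheory Set Filter Topology
open scoped ENNReal

namespace Pool.Agent.R292.BB

namespace RAD

/-- radial density of the layer -/
noncomputable def Fs (b s : ℝ) : ℝ → ℝ := (Icc (1 - s) 1).indicator fun y => (1 - y ^ 2) ^ b

theorem one_add_rpow {b r : ℝ} (h0 : 0 ≤ r) (h1 : r ≤ 1) :
    min 1 ((2 : ℝ) ^ b) ≤ (1 + r) ^ b ∧ (1 + r) ^ b ≤ max 1 ((2 : ℝ) ^ b) := by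
  rcases le_total 0 b with hb | hb
  · have h2 : (1 : ℝ) ≤ (1 + r) ^ b := Real.one_le_rpow (by linarith) hb
    have h3 : (1 + r) ^ b ≤ (2 : ℝ) ^ b := Real.rpow_le_rpow (by linarith) (by linarith) hb
    exact ⟨(min_le_left _ _).trans h2, h3.trans (le_max_right _ _)⟩
  · have h2 : (1 + r) ^ b ≤ 1 := Real.rpow_le_one_of_one_le_of_nonpos (by linarith) hb
    have h3 : (2 : ℝ) ^ b ≤ (1 + r) ^ b :=
      Real.rpow_le_rpow_of_nonpos (by linarith) (by linarith) hb
    exact ⟨(min_le_right _ _).trans h3, h2.trans (le_max_left _ _)⟩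

theorem dens {b r : ℝ} (h0 : 0 ≤ r) (h1 : r ≤ 1) :
    min 1 ((2 : ℝ) ^ b) * (1 - r) ^ b ≤ (1 - r ^ 2) ^ b ∧
      (1 - r ^ 2) ^ b ≤ max 1 ((2 : ℝ) ^ b) * (1 - r) ^ b := by
  have e : (1 - r ^ 2) ^ b = (1 + r) ^ b * (1 - r) ^ b := by
    rw [← Real.mul_rpow (by linarith) (by linarith)]
    congr 1
    ring
  have h2 : 0 ≤ (1 - r) ^ b := Real.rpow_nonneg (by linarith) b
  obtain ⟨h3, h4⟩ := one_add_rpow (b := b) h0 h1
  rw [e]
  exact ⟨mul_le_mul_of_nonneg_right h3 h2, mul_le_mul_of_nonneg_right h4 h2⟩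

theorem int_one_sub {b s : ℝ} (hb : -1 < b) (hs : 0 ≤ s) :
    IntegrableOn (fun y : ℝ => (1 - y) ^ b) (Icc (1 - s) 1) volume ∧
      ∫ y in Icc (1 - s) 1, (1 - y) ^ b = s ^ (1 + b) / (1 + b) := by
  have h1 : IntervalIntegrable (fun x : ℝ => x ^ b) volume 0 s :=
    intervalIntegral.intervalIntegrable_rpow' hb
  have h2 : IntervalIntegrable (fun x : ℝ => (1 - x) ^ b) volume (1 - s) 1 := by
    have h := (h1.comp_sub_left 1).symm
    simpa using h
  have h3 : (1 - s : ℝ) ≤ 1 := by linarith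
  refine ⟨(intervalIntegrable_iff_integrableOn_Icc_of_le h3).1 h2, ?_⟩
  rw [integral_Icc_eq_integral_Ioc, ← intervalIntegral.integral_of_le h3,
    intervalIntegral.integral_comp_sub_left (fun x => x ^ b) 1, sub_self, sub_sub_cancel,
    integral_rpow (Or.inl hb), Real.zero_rpow (by linarith), sub_zero, add_comm b 1]

section

variable {k : ℕ} {b s : ℝ} (hb : -1 < b) (hs0 : 0 < s) (hs1 : s ≤ 1)

theorem Fs_nonneg {b s : ℝ} (hs1 : s ≤ 1) (y : ℝ) : 0 ≤ Fs b s y := by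
  unfold Fs
  refine indicator_nonneg (fun x hx => ?_) y
  have h1 : 0 ≤ x := by linarith [hx.1]
  have h2 := hx.2
  exact Real.rpow_nonneg (by nlinarith) b

theorem Fs_meas (b s : ℝ) : Measurable (Fs b s) :=
  (by fun_prop : Measurable fun y : ℝ => (1 - y ^ 2) ^ b).indicator measurableSet_Icc

include hb hs0 hs1

theorem bound (k : ℕ) :
    IntegrableOn (fun y : ℝ => y ^ (k - 1) • Fs b s y) (Ioi 0) volume ∧
    ∫ y in Ioi (0 : ℝ), y ^ (k - 1) • Fs b s y ≤
      max 1 ((2 : ℝ) ^ b) * (s ^ (1 + b) / (1 + b)) ∧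
    (1 / 2 : ℝ) ^ (k - 1) * min 1 ((2 : ℝ) ^ b) * ((s / 2) ^ (1 + b) / (1 + b)) ≤
      ∫ y in Ioi (0 : ℝ), y ^ (k - 1) • Fs b s y := by
  obtain ⟨i1, i2⟩ := int_one_sub hb hs0.le
  obtain ⟨j1, j2⟩ := int_one_sub (s := s / 2) hb (by linarith)
  set g : ℝ → ℝ := fun y => max 1 ((2 : ℝ) ^ b) * (Icc (1 - s) 1).indicator
    (fun y => (1 - y) ^ b) y with hg
  set g' : ℝ → ℝ := fun y => (1 / 2 : ℝ) ^ (k - 1) * min 1 ((2 : ℝ) ^ b) *
    (Icc (1 - s / 2) 1).indicator (fun y => (1 - y) ^ b) y with hg'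
  have hgi : Integrable g volume := ((integrable_indicator_iff measurableSet_Icc).2 i1).const_mul _
  have hgi' : Integrable g' volume :=
    ((integrable_indicator_iff measurableSet_Icc).2 j1).const_mul _
  have hg0 : ∀ y, 0 ≤ g y := by
    intro y
    refine mul_nonneg (by positivity) (indicator_nonneg (fun x hx => ?_) y)
    exact Real.rpow_nonneg (by linarith [hx.2]) b
  have hle : ∀ y ∈ Ioi (0 : ℝ), y ^ (k - 1) • Fs b s y ≤ g y := by
    intro y hy
    have hy0 : (0 : ℝ) < y := hy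
    rw [smul_eq_mul, hg]
    simp only
    unfold Fs
    by_cases h : y ∈ Icc (1 - s) 1
    · rw [indicator_of_mem h, indicator_of_mem h]
      have h3 := (dens (b := b) hy0.le h.2).2
      have h4 : y ^ (k - 1) ≤ 1 := pow_le_one₀ hy0.le h.2
      have h5 : 0 ≤ (1 - y ^ 2) ^ b := Real.rpow_nonneg (by nlinarith [h.2]) b
      calc y ^ (k - 1) * (1 - y ^ 2) ^ b ≤ 1 * (1 - y ^ 2) ^ b :=
            mul_le_mul_of_nonneg_right h4 h5
        _ = (1 - y ^ 2) ^ b := one_mul _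
        _ ≤ _ := h3
    · rw [indicator_of_notMem h, indicator_of_notMem h, mul_zero, mul_zero]
  have hge : ∀ y ∈ Ioi (0 : ℝ), g' y ≤ y ^ (k - 1) • Fs b s y := by
    intro y hy
    have hy0 : (0 : ℝ) < y := hy
    rw [smul_eq_mul, hg']
    simp only
    by_cases h : y ∈ Icc (1 - s / 2) 1
    · have h' : y ∈ Icc (1 - s) 1 := ⟨by linarith [h.1], h.2⟩
      unfold Fs
      rw [indicator_of_mem h, indicator_of_mem h']
      have h3 := (dens (b := b) hy0.le h.2).1
      have h6 : (1 / 2 : ℝ) ≤ y := by linarith [h.1]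
      have h4 : (1 / 2 : ℝ) ^ (k - 1) ≤ y ^ (k - 1) := pow_le_pow_left₀ (by norm_num) h6 _
      have h5 : 0 ≤ min 1 ((2 : ℝ) ^ b) * (1 - y) ^ b :=
        mul_nonneg (by positivity) (Real.rpow_nonneg (by linarith [h.2]) b)
      rw [mul_assoc]
      exact mul_le_mul h4 h3 h5 (by positivity)
    · rw [indicator_of_notMem h, mul_zero]
      exact mul_nonneg (by positivity) (Fs_nonneg hs1 y)
  have hint : IntegrableOn (fun y : ℝ => y ^ (k - 1) • Fs b s y) (Ioi 0) volume := by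
    refine Integrable.mono' hgi.integrableOn ?_ ?_
    · exact ((measurable_id.pow_const (k - 1)).mul (Fs_meas b s)).aestronglyMeasurable
    · refine (ae_restrict_iff' measurableSet_Ioi).2 (Eventually.of_forall fun y hy => ?_)
      have hy0 : (0 : ℝ) < y := hy
      have hnn : 0 ≤ y ^ (k - 1) • Fs b s y :=
        mul_nonneg (pow_nonneg hy0.le _) (Fs_nonneg hs1 y)
      rw [Real.norm_of_nonneg hnn]
      exact hle y hy
  refine ⟨hint, ?_, ?_⟩
  · calc ∫ y in Ioi (0 : ℝ), y ^ (k - 1) • Fs b s y ≤ ∫ y in Ioi (0 : ℝ), g y :=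
          setIntegral_mono_on hint hgi.integrableOn measurableSet_Ioi hle
      _ ≤ ∫ y, g y := setIntegral_le_integral hgi (Eventually.of_forall hg0)
      _ = _ := by
          rw [hg, integral_const_mul, integral_indicator measurableSet_Icc, i2]
  · have e1 : ∫ y in Ioi (0 : ℝ), g' y =
        (1 / 2 : ℝ) ^ (k - 1) * min 1 ((2 : ℝ) ^ b) * ((s / 2) ^ (1 + b) / (1 + b)) := by
      rw [hg', integral_const_mul, setIntegral_indicator measurableSet_Icc]
      have : Ioi (0 : ℝ) ∩ Icc (1 - s / 2) 1 = Icc (1 - s / 2) 1 := by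
        refine inter_eq_self_of_subset_right fun y hy => ?_
        have := hy.1
        exact mem_Ioi.2 (by linarith)
      rw [this, j2]
    rw [← e1]
    exact setIntegral_mono_on hgi'.integrableOn hint measurableSet_Ioi hge

end

theorem raw_eq {k : ℕ} (hk : 1 ≤ k) {b s : ℝ} (hb : -1 < b) (hs0 : 0 < s) (hs1 : s ≤ 1) :
    betaRaw k b {y | 1 - ‖y‖ ≤ s} = ENNReal.ofReal
      (k * (volume : Measure (EuclideanSpace ℝ (Fin k))).real (Metric.ball 0 1) *
        ∫ y in Ioi (0 : ℝ), y ^ (k - 1) • Fs b s y) := by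
  haveI : Nonempty (Fin k) := ⟨⟨0, hk⟩⟩
  haveI : Nontrivial (EuclideanSpace ℝ (Fin k)) := inferInstance
  have hS : MeasurableSet {y : EuclideanSpace ℝ (Fin k) | 1 - ‖y‖ ≤ s} :=
    measurableSet_le (by fun_prop) measurable_const
  have h1 : Integrable (fun y : EuclideanSpace ℝ (Fin k) => Fs b s ‖y‖) volume := by
    rw [integrable_fun_norm_addHaar (volume : Measure (EuclideanSpace ℝ (Fin k))) (f := Fs b s),
      finrank_euclideanSpace_fin]
    exact (bound hb hs0 hs1 k).1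
  have h2 := integral_fun_norm_addHaar (volume : Measure (EuclideanSpace ℝ (Fin k))) (Fs b s)
  rw [finrank_euclideanSpace_fin] at h2
  unfold betaRaw
  rw [withDensity_apply _ hS, Measure.restrict_restrict hS,
    ← lintegral_indicator (hS.inter measurableSet_closedBall)]
  have h3 : ∀ y : EuclideanSpace ℝ (Fin k),
      ({y | 1 - ‖y‖ ≤ s} ∩ Metric.closedBall 0 1).indicator
        (fun y : EuclideanSpace ℝ (Fin k) => ENNReal.ofReal ((1 - ‖y‖ ^ 2) ^ b)) y =
      ENNReal.ofReal (Fs b s ‖y‖) := by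
    intro y
    unfold Fs
    by_cases h : ‖y‖ ∈ Icc (1 - s) 1
    · have h' : y ∈ ({y | 1 - ‖y‖ ≤ s} ∩ Metric.closedBall 0 1 : Set (EuclideanSpace ℝ (Fin k))) :=
        ⟨by have := h.1; show 1 - ‖y‖ ≤ s; linarith, by simpa using h.2⟩
      rw [indicator_of_mem h', indicator_of_mem h]
    · have h' : y ∉ ({y | 1 - ‖y‖ ≤ s} ∩ Metric.closedBall 0 1 : Set (EuclideanSpace ℝ (Fin k))) := by
        rintro ⟨a1, a2⟩
        apply h
        have a3 : 1 - ‖y‖ ≤ s := a1
        exact ⟨by linarith, by simpa using a2⟩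
      rw [indicator_of_notMem h', indicator_of_notMem h, ENNReal.ofReal_zero]
  simp_rw [h3]
  rw [← ofReal_integral_eq_lintegral_ofReal h1 (Eventually.of_forall fun y => Fs_nonneg hs1 _), h2]
  congr 1
  simp [mul_assoc]

end RAD

open RAD in
/-- BB-RAD. -/
theorem t_RAD (h1 : T_BM) : T_RAD := by
  intro k b hk hb
  obtain ⟨hZ0, hZt, hP, -, -⟩ := h1 k b hk hb
  set Z := betaRaw k b Set.univ with hZ
  have hz : 0 < Z.toReal := ENNReal.toReal_pos hZ0 hZt
  have hV : 0 < (volume : Measure (EuclideanSpace ℝ (Fin k))).real (Metric.ball 0 1) :=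
    ENNReal.toReal_pos (Metric.measure_ball_pos _ _ one_pos).ne' measure_ball_lt_top.ne
  set V := (volume : Measure (EuclideanSpace ℝ (Fin k))).real (Metric.ball 0 1) with hVd
  have hk0 : (0 : ℝ) < k := by exact_mod_cast hk
  have hb1 : 0 < 1 + b := by linarith
  have hM : ∀ s : ℝ, 0 < s → s ≤ 1 → betaM k b {y | 1 - ‖y‖ ≤ s} = ENNReal.ofReal
      (Z.toReal⁻¹ * (k * V * ∫ y in Ioi (0 : ℝ), y ^ (k - 1) • Fs b s y)) := by
    intro s hs0 hs1
    unfold betaM
    have e1 : ENNReal.ofReal (Z.toReal⁻¹ * (k * V * ∫ y in Ioi (0 : ℝ), y ^ (k - 1) • Fs b s y)) =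
        ENNReal.ofReal (Z.toReal⁻¹) *
          ENNReal.ofReal (k * V * ∫ y in Ioi (0 : ℝ), y ^ (k - 1) • Fs b s y) :=
      ENNReal.ofReal_mul (inv_nonneg.2 hz.le)
    rw [e1, Measure.smul_apply, raw_eq hk hb hs0 hs1, smul_eq_mul, ← hZ,
      ENNReal.ofReal_inv_of_pos hz, ENNReal.ofReal_toReal hZt]
  set C₀ := Z.toReal⁻¹ * (k * V * (max 1 ((2 : ℝ) ^ b) * (1 / (1 + b)))) with hC₀
  set c₀ := Z.toReal⁻¹ * (k * V * ((1 / 2 : ℝ) ^ (k - 1) * min 1 ((2 : ℝ) ^ b) *
    ((1 / 2) ^ (1 + b) / (1 + b)))) with hc₀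
  refine ⟨c₀, max 1 C₀, by positivity, by positivity, ?_, ?_⟩
  · intro t ht
    rcases le_or_gt t 1 with ht1 | ht1
    · rw [hM t ht ht1]
      refine ENNReal.ofReal_le_ofReal ?_
      have h2 := (bound hb ht ht1 k).2.1
      have ht' : 0 ≤ t ^ (1 + b) := Real.rpow_nonneg ht.le _
      calc Z.toReal⁻¹ * (k * V * ∫ y in Ioi (0 : ℝ), y ^ (k - 1) • Fs b t y)
          ≤ Z.toReal⁻¹ * (k * V * (max 1 ((2 : ℝ) ^ b) * (t ^ (1 + b) / (1 + b)))) := by gcongr
        _ = C₀ * t ^ (1 + b) := by rw [hC₀]; ring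
        _ ≤ _ := mul_le_mul_of_nonneg_right (le_max_right _ _) ht'
    · refine prob_le_one.trans ?_
      rw [← ENNReal.ofReal_one]
      refine ENNReal.ofReal_le_ofReal ?_
      have h2 : (1 : ℝ) ≤ t ^ (1 + b) := Real.one_le_rpow ht1.le hb1.le
      have h3 : (1 : ℝ) ≤ max 1 C₀ := le_max_left _ _
      nlinarith
  · intro t ht ht1
    rw [hM t ht ht1]
    refine ENNReal.ofReal_le_ofReal ?_
    have h2 := (bound hb ht ht1 k).2.2
    calc c₀ * t ^ (1 + b) = Z.toReal⁻¹ * (k * V * ((1 / 2 : ℝ) ^ (k - 1) *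
          min 1 ((2 : ℝ) ^ b) * ((t / 2) ^ (1 + b) / (1 + b)))) := by
          rw [hc₀, show t / 2 = (1 / 2) * t by ring, Real.mul_rpow (by norm_num) ht.le]
          ring
      _ ≤ _ := by gcongr

end Pool.Agent.R292.BB
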