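import Pool.Agent.R292.BB.Stm

/-!
# BB-RHO: the distribution of `rho`
-/

set_option autoImplicit false

open MeasureTheory Set Filter Topology
open scoped ENNReal

namespace Pool.Agent.R292.BB

open Pool.Agent.W712.RP

namespace RHO

theorem alp_pos {k : ℕ} {b : ℝ} (hk : 0 < k) (hb : -1 < b) : 0 < alp k b := by
  have h : (1 : ℝ) ≤ k := by exact_mod_cast hk
  unfold alp
  linarith

theorem gam_pos {k : ℕ} {b : ℝ} (hk : 0 < k) (hb : -1 < b) : 0 < gam k b := by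
  unfold gam
  exact div_pos (by linarith) (alp_pos hk hb)

theorem gam_le {k : ℕ} {b : ℝ} (hk : 0 < k) (hb : -1 < b) : gam k b ≤ 1 := by
  unfold gam
  rw [div_le_one (alp_pos hk hb)]
  have h : (1 : ℝ) ≤ k := by exact_mod_cast hk
  unfold alp
  linarith

/-- The one-block factor. -/
noncomputable def ff (k : ℕ) (b : ℝ) (y : EuclideanSpace ℝ (Fin k)) : ℝ :=
  (max (1 - ‖y‖) 0) ^ alp k b

theorem ff_meas {k : ℕ} {b : ℝ} (hk : 0 < k) (hb : -1 < b) : Measurable (ff k b) := by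
  have h : Continuous (ff k b) :=
    ((continuous_const.sub continuous_norm).max continuous_const).rpow_const
      fun _ => Or.inr (alp_pos hk hb).le
  exact h.measurable

theorem ff_nonneg (k : ℕ) (b : ℝ) (y : EuclideanSpace ℝ (Fin k)) : 0 ≤ ff k b y :=
  Real.rpow_nonneg (le_max_right _ _) _

theorem ff_le {k : ℕ} {b : ℝ} (hk : 0 < k) (hb : -1 < b) {s : ℝ} (hs : 0 < s) :
    {y : EuclideanSpace ℝ (Fin k) | ff k b y ≤ s} = {y | 1 - ‖y‖ ≤ s ^ (alp k b)⁻¹} := by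
  ext y
  have ha := alp_pos hk hb
  simp only [mem_setOf_eq]
  unfold ff
  rw [← Real.le_rpow_inv_iff_of_pos (le_max_right _ _) hs.le ha, max_le_iff]
  exact ⟨fun h => h.1, fun h => ⟨h, Real.rpow_nonneg hs.le _⟩⟩

theorem pow_eq {k : ℕ} {b : ℝ} {s : ℝ} (hs : 0 < s) :
    (s ^ (alp k b)⁻¹) ^ (1 + b) = s ^ gam k b := by
  rw [← Real.rpow_mul hs.le]
  congr 1
  unfold gam
  ring

end RHO

open RHO

theorem t_RHO (h1 : T_BM) (h2 : T_RAD) (h3 : S_WU) (h4 : S_WL) : T_RHO := by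
  intro m hm d hd β hβ
  have hfm : ∀ i, Measurable (ff (d i) (β i)) := fun i => ff_meas (hd i) (hβ i)
  refine ⟨fun i => ⟨gam_pos (hd i) (hβ i), gam_le (hd i) (hβ i)⟩, ?_, ?_⟩
  · show Measurable fun z : ∀ i, EuclideanSpace ℝ (Fin (d i)) => ∏ i, ff (d i) (β i) (z i)
    exact Finset.measurable_prod _ fun i _ => (hfm i).comp (measurable_pi_apply i)
  haveI : ∀ i, IsProbabilityMeasure (betaM (d i) (β i)) := fun i =>
    (h1 (d i) (β i) (hd i) (hβ i)).2.2.1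
  choose c C hc hC hU hL using fun i => h2 (d i) (β i) (hd i) (hβ i)
  have hne : (Finset.univ : Finset (Fin m)).Nonempty := ⟨⟨0, hm⟩, Finset.mem_univ _⟩
  let c₀ : ℝ := Finset.univ.inf' hne c
  have hc₀ : 0 < c₀ := (Finset.lt_inf'_iff hne).2 fun i _ => hc i
  have hc₀le : ∀ i, c₀ ≤ c i := fun i => Finset.inf'_le c (Finset.mem_univ i)
  let C₀ : ℝ := 1 + ∑ i, C i
  have hC₀ : ∀ i, C i ≤ C₀ := fun i => by
    have := Finset.single_le_sum (f := C) (fun j _ => (hC j).le) (Finset.mem_univ i)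
    show C i ≤ 1 + ∑ i, C i
    linarith
  have hC₀1 : 1 ≤ C₀ := by
    have := Finset.sum_nonneg fun j (_ : j ∈ (Finset.univ : Finset (Fin m))) => (hC j).le
    show 1 ≤ 1 + ∑ i, C i
    linarith
  refine ⟨c₀ ^ m, C₀ ^ m, pow_pos hc₀ m, pow_pos (by linarith) m, fun t ht => ⟨?_, ?_⟩⟩
  · refine h4 m (fun i => EuclideanSpace ℝ (Fin (d i))) (fun i => betaM (d i) (β i))
      (fun i => ff (d i) (β i)) hfm (fun i y => ff_nonneg _ _ y)
      (fun i => gam (d i) (β i)) (fun i => gam_pos (hd i) (hβ i)) c₀ hc₀ ?_ t ht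
    intro i s hs hs1
    rw [ff_le (hd i) (hβ i) hs, ← pow_eq hs]
    have hsp : 0 < s ^ (alp (d i) (β i))⁻¹ := Real.rpow_pos_of_pos hs _
    have hs1' : s ^ (alp (d i) (β i))⁻¹ ≤ 1 :=
      Real.rpow_le_one hs.le hs1 (inv_nonneg.2 (alp_pos (hd i) (hβ i)).le)
    refine le_trans (ENNReal.ofReal_le_ofReal ?_) (hL i _ hsp hs1')
    exact mul_le_mul_of_nonneg_right (hc₀le i) (Real.rpow_nonneg hsp.le _)
  · refine h3 m (fun i => EuclideanSpace ℝ (Fin (d i))) (fun i => betaM (d i) (β i))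
      (fun i => ff (d i) (β i)) hfm (fun i y => ff_nonneg _ _ y)
      (fun i => gam (d i) (β i)) (fun i => gam_pos (hd i) (hβ i)) C₀ hC₀1 ?_ t ht
    intro i s hs
    rw [ff_le (hd i) (hβ i) hs, ← pow_eq hs]
    have hsp : 0 < s ^ (alp (d i) (β i))⁻¹ := Real.rpow_pos_of_pos hs _
    refine le_trans (hU i _ hsp) (ENNReal.ofReal_le_ofReal ?_)
    exact mul_le_mul_of_nonneg_right (hC₀ i) (Real.rpow_nonneg hsp.le _)

end Pool.Agent.R292.BB
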