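import Pool.Agent.R292.BB.Stm

/-!
Project BB (helper292): scaling of sectors.
-/

set_option autoImplicit false

open MeasureTheory Set Filter Topology
open scoped ENNReal Pointwise

namespace Pool.Agent.R292.BB

namespace SC

/-- closed sector of radius `R` -/
def cs {k : ℕ} (v : EuclideanSpace ℝ (Fin k)) (t R : ℝ) : Set (EuclideanSpace ℝ (Fin k)) :=
  {y | ‖y‖ ≤ R ∧ (1 - t) * ‖y‖ ≤ inner ℝ v y}

theorem cs_one {k : ℕ} (v : EuclideanSpace ℝ (Fin k)) (t : ℝ) : cs v t 1 = sec v t := rfl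

theorem zero_mem_sec {k : ℕ} (v : EuclideanSpace ℝ (Fin k)) (t : ℝ) : (0 : _) ∈ sec v t := by
  simp [sec]

theorem cs_eq {k : ℕ} (v : EuclideanSpace ℝ (Fin k)) (t R : ℝ) (hR : 0 ≤ R) :
    cs v t R = R • sec v t := by
  rcases hR.eq_or_lt with h0 | h0
  · subst h0
    rw [zero_smul_set ⟨0, zero_mem_sec v t⟩]
    ext y
    simp only [cs, mem_ofPred_eq, norm_le_zero_iff, Set.mem_zero]
    constructor
    · exact fun h => h.1
    · rintro rfl
      simp
  · ext y
    rw [mem_smul_set_iff_inv_smul_mem₀ h0.ne']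
    simp only [cs, sec, mem_ofPred_eq, norm_smul, inner_smul_right, norm_inv, Real.norm_eq_abs,
      abs_of_pos h0]
    have hi : 0 < R⁻¹ := inv_pos.2 h0
    constructor
    · rintro ⟨h1, h2⟩
      refine ⟨?_, ?_⟩
      · rw [inv_mul_le_iff₀ h0]
        linarith
      · calc (1 - t) * (R⁻¹ * ‖y‖) = R⁻¹ * ((1 - t) * ‖y‖) := by ring
          _ ≤ R⁻¹ * inner ℝ v y := mul_le_mul_of_nonneg_left h2 hi.le
    · rintro ⟨h1, h2⟩
      refine ⟨?_, ?_⟩
      · rw [inv_mul_le_iff₀ h0] at h1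
        linarith
      · have h3 : R⁻¹ * ((1 - t) * ‖y‖) ≤ R⁻¹ * inner ℝ v y := by
          calc R⁻¹ * ((1 - t) * ‖y‖) = (1 - t) * (R⁻¹ * ‖y‖) := by ring
            _ ≤ R⁻¹ * inner ℝ v y := h2
        exact le_of_mul_le_mul_left h3 hi

theorem isClosed_cs {k : ℕ} (v : EuclideanSpace ℝ (Fin k)) (t R : ℝ) : IsClosed (cs v t R) := by
  have h1 : Continuous fun y : EuclideanSpace ℝ (Fin k) => (inner ℝ v y : ℝ) := by fun_prop
  exact (isClosed_le continuous_norm continuous_const).inter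
    (isClosed_le (continuous_const.mul continuous_norm) h1)

theorem vol_cs {k : ℕ} (v : EuclideanSpace ℝ (Fin k)) (t R : ℝ) (hR : 0 ≤ R) :
    volume (cs v t R) = ENNReal.ofReal (R ^ k) * volume (sec v t) := by
  rw [cs_eq v t R hR, Measure.addHaar_smul, finrank_euclideanSpace_fin, abs_of_nonneg (by positivity)]

theorem vol_sec_ne_top {k : ℕ} (v : EuclideanSpace ℝ (Fin k)) (t : ℝ) :
    volume (sec v t) ≠ ∞ := by
  have h : sec v t ⊆ Metric.closedBall 0 1 := by
    intro y hy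
    simpa using hy.1
  exact ((measure_mono h).trans_lt measure_closedBall_lt_top).ne

end SC

theorem t_SC : T_SC := by
  intro k hk v t r R hr hrR hR
  have hR0 : 0 ≤ R := hr.trans hrR
  have hset : secR v t r R = SC.cs v t R \ SC.cs v t r := by
    ext y
    simp only [secR, SC.cs, mem_ofPred_eq, Set.mem_sdiff, not_and, not_le]
    constructor
    · rintro ⟨h1, h2, h3⟩
      exact ⟨⟨h2, h3⟩, fun h => absurd h (not_le.2 h1)⟩
    · rintro ⟨⟨h2, h3⟩, h⟩
      refine ⟨?_, h2, h3⟩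
      by_contra hc
      exact absurd (h (not_lt.1 hc)) (not_lt.2 h3)
  have hsub : SC.cs v t r ⊆ SC.cs v t R := fun y hy => ⟨hy.1.trans hrR, hy.2⟩
  have hV := SC.vol_sec_ne_top v t
  rw [hset, measure_sdiff hsub (SC.isClosed_cs v t r).measurableSet.nullMeasurableSet, SC.vol_cs v t R hR0, SC.vol_cs v t r hr,
    ENNReal.ofReal_sub _ (by positivity), ENNReal.sub_mul]
  · intro _ _
    exact hV
  · rw [SC.vol_cs v t r hr]
    exact ENNReal.mul_ne_top ENNReal.ofReal_ne_top hV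

end Pool.Agent.R292.BB
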