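import Pool.Agent.R292.BB.Stm

/-!
Project BB (helper292), piece UPS: the upper bound for the number of facets.
-/

set_option autoImplicit false

open MeasureTheory Set Filter Topology
open scoped ENNReal

namespace Pool.Agent.R292.BB

open Pool.Agent.W712.RP

namespace UPS

theorem rho_nonneg {m : ℕ} (d : Fin m → ℕ) (β : Fin m → ℝ)
    (z : ∀ i, EuclideanSpace ℝ (Fin (d i))) : 0 ≤ rho d β z := by
  unfold rho
  exact Finset.prod_nonneg fun i _ => Real.rpow_nonneg (le_max_right _ _) _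

theorem real_bound (s n : ℕ) (hn : 2 * (s + 1) ≤ n) (c ρ : ℝ) (hc : 0 < c) (h0 : 0 ≤ ρ) :
    (n : ℝ) ^ (s + 1) * (ρ ^ s * Real.exp (-(c * (n - (s + 1)) * ρ))) ≤
      (c⁻¹ ^ s * 8 ^ s * s.factorial * n) * Real.exp (-(n : ℝ) * (c * ρ) / 8) := by
  have hn0 : (0 : ℝ) ≤ n := Nat.cast_nonneg n
  have hn2 : (2 : ℝ) * (s + 1) ≤ n := by exact_mod_cast hn
  set v : ℝ := c * ρ with hv
  have hv0 : 0 ≤ v := mul_nonneg hc.le h0
  have hρ : ρ = c⁻¹ * v := by
    rw [hv]; field_simp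
  have hs0 : 0 ≤ (n : ℝ) * v := mul_nonneg hn0 hv0
  have e1 : Real.exp (-(c * (n - (s + 1)) * ρ)) ≤ Real.exp (-(n : ℝ) * v / 4) := by
    rw [Real.exp_le_exp]
    have h3 : c * ((n : ℝ) - (s + 1)) * ρ = ((n : ℝ) - (s + 1)) * v := by rw [hv]; ring
    rw [h3]
    have h4 : (n : ℝ) / 2 ≤ (n : ℝ) - (s + 1) := by linarith
    have h5 := mul_le_mul_of_nonneg_right h4 hv0
    nlinarith
  have e2 : ((n : ℝ) * v) ^ s * Real.exp (-(n : ℝ) * v / 8) ≤ 8 ^ s * s.factorial := by
    have h2 := Real.pow_div_factorial_le_exp ((n : ℝ) * v / 8) (by positivity) s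
    rw [div_pow, div_div, div_le_iff₀ (by positivity)] at h2
    have h3 : Real.exp (-(n : ℝ) * v / 8) * Real.exp ((n : ℝ) * v / 8) = 1 := by
      rw [← Real.exp_add]
      have : -(n : ℝ) * v / 8 + (n : ℝ) * v / 8 = 0 := by ring
      rw [this, Real.exp_zero]
    calc ((n : ℝ) * v) ^ s * Real.exp (-(n : ℝ) * v / 8)
        ≤ (Real.exp ((n : ℝ) * v / 8) * (8 ^ s * s.factorial)) * Real.exp (-(n : ℝ) * v / 8) :=
          mul_le_mul_of_nonneg_right h2 (Real.exp_pos _).le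
      _ = (Real.exp (-(n : ℝ) * v / 8) * Real.exp ((n : ℝ) * v / 8)) * (8 ^ s * s.factorial) := by
          ring
      _ = 8 ^ s * s.factorial := by rw [h3, one_mul]
  have e3 : Real.exp (-(n : ℝ) * v / 4) =
      Real.exp (-(n : ℝ) * v / 8) * Real.exp (-(n : ℝ) * v / 8) := by
    rw [← Real.exp_add]
    congr 1
    ring
  have hci : 0 ≤ c⁻¹ ^ s := by positivity
  calc (n : ℝ) ^ (s + 1) * (ρ ^ s * Real.exp (-(c * (n - (s + 1)) * ρ)))
      = (c⁻¹ ^ s * (n * ((n : ℝ) * v) ^ s)) * Real.exp (-(c * (n - (s + 1)) * ρ)) := by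
        rw [show ρ ^ s = c⁻¹ ^ s * v ^ s by rw [← mul_pow, ← hρ], mul_pow]
        ring
    _ ≤ (c⁻¹ ^ s * (n * ((n : ℝ) * v) ^ s)) * Real.exp (-(n : ℝ) * v / 4) :=
        mul_le_mul_of_nonneg_left e1 (mul_nonneg hci (mul_nonneg hn0 (pow_nonneg hs0 _)))
    _ = (c⁻¹ ^ s * n * Real.exp (-(n : ℝ) * v / 8)) *
        (((n : ℝ) * v) ^ s * Real.exp (-(n : ℝ) * v / 8)) := by rw [e3]; ring
    _ ≤ (c⁻¹ ^ s * n * Real.exp (-(n : ℝ) * v / 8)) * (8 ^ s * s.factorial) :=
        mul_le_mul_of_nonneg_left e2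
          (mul_nonneg (mul_nonneg hci hn0) (Real.exp_pos _).le)
    _ = (c⁻¹ ^ s * 8 ^ s * s.factorial * n) * Real.exp (-(n : ℝ) * v / 8) := by ring

end UPS

theorem t_UPS (h1 : T_AC) (h2 : T_INT) (h3 : T_RHO) (h4 : S_WG) (h5 : S_WE) : T_UPS := by
  intro m hm d hd β hβ
  obtain ⟨hprob, -, -⟩ := h1 m d hd β hβ
  have := hprob
  have hD : 0 < ∑ i, d i := by
    have : d ⟨0, hm⟩ ≤ ∑ i, d i := Finset.single_le_sum (fun i _ => Nat.zero_le _)
      (Finset.mem_univ _)
    have := hd ⟨0, hm⟩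
    omega
  obtain ⟨s, hs⟩ : ∃ s, ∑ i, d i = s + 1 := ⟨(∑ i, d i) - 1, by omega⟩
  obtain ⟨c, C, hc, hC, hint⟩ := h2 m hm d hd β hβ s
  obtain ⟨hgam, hmeas, c', C', -, hC', hrho⟩ := h3 m hm d hd β hβ
  set a : Fin m → ℝ := fun i => gam (d i) (β i) with ha
  obtain ⟨-, hmono, hgrow⟩ := h4 m hm a hgam
  set M : ℝ := max 1 (1 / c) with hM
  have hM1 : 1 ≤ M := le_max_left _ _
  obtain ⟨C'', hC''⟩ := h5 m hm a hgam (C' * M) (by positivity)
  have hu := hC'' _ (blockBeta d β) (fun z => c * rho d β z) (hmeas.const_mul c)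
    (fun z => mul_nonneg hc.le (UPS.rho_nonneg d β z)) ?_
  swap
  · intro t ht
    have e1 : {z | c * rho d β z ≤ t} = {z | rho d β z ≤ t / c} := by
      ext z
      simp only [Set.mem_ofPred_eq]
      rw [le_div_iff₀ hc, mul_comm]
    rw [e1]
    calc blockBeta d β {z | rho d β z ≤ t / c} ≤ ENNReal.ofReal C' * Wf a (t / c) :=
          (hrho (t / c) (by positivity)).2
      _ ≤ ENNReal.ofReal C' * Wf a (M * t) := by
          gcongr
          apply hmono
          have : 1 / c ≤ M := le_max_right _ _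
          calc t / c = (1 / c) * t := by ring
            _ ≤ M * t := by gcongr
      _ ≤ ENNReal.ofReal C' * (ENNReal.ofReal M * Wf a t) := by
          gcongr
          exact hgrow M t hM1 ht
      _ = ENNReal.ofReal (C' * M) * Wf a t := by
          rw [ENNReal.ofReal_mul hC'.le, mul_assoc]
  set K : ℝ := c⁻¹ ^ s * 8 ^ s * s.factorial with hK
  have hK0 : 0 < K := by positivity
  refine ⟨C * K * max C'' 1, by positivity, ?_⟩
  intro n hn
  rw [hs] at hn ⊢
  have hn1 : 1 ≤ n := by omega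
  set J : ℝ≥0∞ := ∫⁻ z, ENNReal.ofReal ((rho d β z) ^ s *
    Real.exp (-(c * (n - (s + 1)) * rho d β z))) ∂(blockBeta d β) with hJ
  have k1 : ∀ I ∈ Finset.powersetCard (s + 1) (Finset.univ : Finset (Fin n)),
      faceQ (blockBeta d β) n I ≤ ENNReal.ofReal C * J := by
    intro I hI
    exact hint n I (Finset.mem_powersetCard.1 hI).2
  have k2 : (n.choose (s + 1) : ℝ≥0∞) ≤ ENNReal.ofReal ((n : ℝ) ^ (s + 1)) := by
    rw [ENNReal.ofReal_pow (by positivity), ENNReal.ofReal_natCast]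
    have := Nat.choose_le_pow n (s + 1)
    exact_mod_cast this
  have k3 : ENNReal.ofReal ((n : ℝ) ^ (s + 1)) * J ≤
      ENNReal.ofReal (K * n) * (ENNReal.ofReal C'' * Wf a (1 / n)) := by
    calc ENNReal.ofReal ((n : ℝ) ^ (s + 1)) * J
        = ∫⁻ z, ENNReal.ofReal ((n : ℝ) ^ (s + 1) * ((rho d β z) ^ s *
            Real.exp (-(c * (n - (s + 1)) * rho d β z)))) ∂(blockBeta d β) := by
          rw [hJ, ← lintegral_const_mul' _ _ ENNReal.ofReal_ne_top]
          refine lintegral_congr fun z => ?_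
          rw [← ENNReal.ofReal_mul (by positivity)]
      _ ≤ ∫⁻ z, ENNReal.ofReal (K * n) *
            ENNReal.ofReal (Real.exp (-(n : ℝ) * (c * rho d β z) / 8)) ∂(blockBeta d β) := by
          refine lintegral_mono fun z => ?_
          rw [← ENNReal.ofReal_mul (by positivity)]
          exact ENNReal.ofReal_le_ofReal
            (UPS.real_bound s n hn c _ hc (UPS.rho_nonneg d β z))
      _ = ENNReal.ofReal (K * n) *
            ∫⁻ z, ENNReal.ofReal (Real.exp (-(n : ℝ) * (c * rho d β z) / 8))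
              ∂(blockBeta d β) := lintegral_const_mul' _ _ ENNReal.ofReal_ne_top
      _ ≤ ENNReal.ofReal (K * n) * (ENNReal.ofReal C'' * Wf a (1 / n)) := by
          gcongr
          exact hu n hn1
  calc ∑ I ∈ Finset.powersetCard (s + 1) (Finset.univ : Finset (Fin n)),
        faceQ (blockBeta d β) n I
      ≤ (n.choose (s + 1) : ℝ≥0∞) * (ENNReal.ofReal C * J) := by
        refine (Finset.sum_le_card_nsmul _ _ _ k1).trans ?_
        rw [Finset.card_powersetCard, Finset.card_univ, Fintype.card_fin, nsmul_eq_mul]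
    _ ≤ ENNReal.ofReal ((n : ℝ) ^ (s + 1)) * (ENNReal.ofReal C * J) := by gcongr
    _ = ENNReal.ofReal C * (ENNReal.ofReal ((n : ℝ) ^ (s + 1)) * J) := by ring
    _ ≤ ENNReal.ofReal C * (ENNReal.ofReal (K * n) * (ENNReal.ofReal C'' * Wf a (1 / n))) := by
        gcongr
    _ ≤ ENNReal.ofReal C * (ENNReal.ofReal (K * n) *
          (ENNReal.ofReal (max C'' 1) * Wf a (1 / n))) := by
        gcongr
        exact le_max_left _ _
    _ = ENNReal.ofReal (C * K * max C'' 1 * n) * Wf a (1 / n) := by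
        rw [show C * K * max C'' 1 * n = C * ((K * n) * max C'' 1) by ring,
          ENNReal.ofReal_mul hC.le,
          ENNReal.ofReal_mul (p := K * n) (q := max C'' 1) (by positivity)]
        ring

end Pool.Agent.R292.BB
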