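import Pool.Agent.R292.BB.Stm
import Pool.Agent.W880.RP.WU

set_option autoImplicit false

open MeasureTheory Set Filter Topology
open scoped ENNReal

namespace Pool.Agent.R292.BB

open Pool.Agent.W712.RP

namespace WX

open Pool.Agent.W880.RP

/-- two sided asymptotics -/
def Asy (F : ℝ → ℝ≥0∞) (l : ℝ) (k : ℕ) : Prop :=
  ∃ c C : ℝ, 0 < c ∧ 0 < C ∧ ∀ t : ℝ, 0 < t → t ≤ 1 →
    ENNReal.ofReal (c * (t ^ l * (1 + Real.log (1 / t)) ^ k)) ≤ F t ∧
    F t ≤ ENNReal.ofReal (C * (t ^ l * (1 + Real.log (1 / t)) ^ k))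

/-- one more coordinate -/
noncomputable def stp (a : ℝ) (F : ℝ → ℝ≥0∞) (t : ℝ) : ℝ≥0∞ :=
  ∫⁻ r in Ioc (0 : ℝ) 1, F (t / r ^ (1 / a))

theorem log_nn {t : ℝ} (ht : 0 < t) (ht1 : t ≤ 1) : 0 ≤ Real.log (1 / t) :=
  Real.log_nonneg (by rw [le_div_iff₀ ht]; linarith)

theorem s_pos {a t r : ℝ} (ht : 0 < t) (hr : 0 < r) : 0 < t / r ^ (1 / a) :=
  div_pos ht (Real.rpow_pos_of_pos hr _)

theorem s_ge {a t r : ℝ} (ha : 0 < a) (ht : 0 < t) (hr : 0 < r) (hr1 : r ≤ 1) :
    t ≤ t / r ^ (1 / a) := by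
  rw [le_div_iff₀ (Real.rpow_pos_of_pos hr _)]
  have := Real.rpow_le_one hr.le hr1 (by positivity : 0 ≤ 1 / a)
  nlinarith

theorem s_lt {a t r : ℝ} (ha : 0 < a) (ht : 0 < t) (hr : t ^ a < r) : t / r ^ (1 / a) < 1 := by
  have h0 : 0 < t ^ a := Real.rpow_pos_of_pos ht _
  rw [div_lt_one (Real.rpow_pos_of_pos (h0.trans hr) _)]
  calc t = (t ^ a) ^ (1 / a) := by
        rw [← Real.rpow_mul ht.le, mul_one_div_cancel ha.ne', Real.rpow_one]
    _ < r ^ (1 / a) := Real.rpow_lt_rpow h0.le hr (by positivity)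

theorem s_ge_one {a t r : ℝ} (ha : 0 < a) (ht : 0 < t) (hr0 : 0 < r) (hr : r ≤ t ^ a) :
    1 ≤ t / r ^ (1 / a) := by
  rw [le_div_iff₀ (Real.rpow_pos_of_pos hr0 _), one_mul]
  calc r ^ (1 / a) ≤ (t ^ a) ^ (1 / a) := Real.rpow_le_rpow hr0.le hr (by positivity)
    _ = t := by
        rw [← Real.rpow_mul ht.le, mul_one_div_cancel ha.ne', Real.rpow_one]

theorem s_pow {a t r : ℝ} (ht : 0 < t) (hr : 0 < r) (l : ℝ) :
    (t / r ^ (1 / a)) ^ l = t ^ l * r ^ (-(l / a)) := by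
  rw [Real.div_rpow ht.le (Real.rpow_nonneg hr.le _), ← Real.rpow_mul hr.le,
    Real.rpow_neg hr.le, div_eq_mul_inv]
  congr 3
  ring

theorem s_log {a t r : ℝ} (ht : 0 < t) (hr : 0 < r) :
    Real.log (1 / (t / r ^ (1 / a))) = Real.log (1 / t) + (1 / a) * Real.log r := by
  rw [one_div_div, Real.log_div (Real.rpow_pos_of_pos hr _).ne' ht.ne', Real.log_rpow hr,
    one_div t, Real.log_inv]
  ring

theorem stp_le {a t : ℝ} (ha : 0 < a) (ht : 0 < t) (ht1 : t ≤ 1) {F : ℝ → ℝ≥0∞}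
    (hF1 : ∀ s, F s ≤ 1) :
    stp a F t ≤ ENNReal.ofReal (t ^ a) + ∫⁻ r in Ioc (t ^ a) 1, F (t / r ^ (1 / a)) := by
  have h0 : 0 < t ^ a := Real.rpow_pos_of_pos ht _
  have h1 : t ^ a ≤ 1 := Real.rpow_le_one ht.le ht1 ha.le
  unfold stp
  rw [← Ioc_union_Ioc_eq_Ioc h0.le h1]
  refine (lintegral_union_le _ _ _).trans ?_
  gcongr
  calc ∫⁻ r in Ioc 0 (t ^ a), F (t / r ^ (1 / a)) ≤ ∫⁻ r in Ioc 0 (t ^ a), 1 :=
        lintegral_mono fun r => hF1 _
    _ = ENNReal.ofReal (t ^ a) := by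
        rw [lintegral_one, Measure.restrict_apply_univ, Real.volume_Ioc, sub_zero]

theorem stp_ge_pow {a t : ℝ} (ha : 0 < a) (ht : 0 < t) (ht1 : t ≤ 1) {F : ℝ → ℝ≥0∞}
    (hFb : ∀ s, 1 ≤ s → F s = 1) : ENNReal.ofReal (t ^ a) ≤ stp a F t := by
  have h1 : t ^ a ≤ 1 := Real.rpow_le_one ht.le ht1 ha.le
  unfold stp
  calc ENNReal.ofReal (t ^ a) = ∫⁻ r in Ioc 0 (t ^ a), 1 := by
        rw [lintegral_one, Measure.restrict_apply_univ, Real.volume_Ioc, sub_zero]
    _ ≤ ∫⁻ r in Ioc 0 (t ^ a), F (t / r ^ (1 / a)) := by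
        apply setLIntegral_mono' measurableSet_Ioc
        intro r hr
        rw [hFb _ (s_ge_one ha ht hr.1 hr.2)]
    _ ≤ ∫⁻ r in Ioc 0 1, F (t / r ^ (1 / a)) :=
        lintegral_mono_set (Ioc_subset_Ioc_right h1)

theorem stp_ge {a t : ℝ} (ha : 0 < a) (ht : 0 < t) {F : ℝ → ℝ≥0∞}
    (hF : Monotone F) : F t ≤ stp a F t := by
  unfold stp
  calc F t = ∫⁻ r in Ioc (0 : ℝ) 1, F t := by
        rw [lintegral_const, Measure.restrict_apply_univ, Real.volume_Ioc]
        simp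
    _ ≤ ∫⁻ r in Ioc 0 1, F (t / r ^ (1 / a)) := by
        apply setLIntegral_mono' measurableSet_Ioc
        intro r hr
        exact hF (s_ge ha ht hr.1 hr.2)

theorem lint_pow {u ν K : ℝ} (hu : 0 < u) (hu1 : u ≤ 1) (hν : ν ≠ 1) (hK : 0 ≤ K) :
    ∫⁻ r in Ioc u 1, ENNReal.ofReal (K * r ^ (-ν)) =
      ENNReal.ofReal (K * ((1 - u ^ (1 - ν)) / (1 - ν))) := by
  have h0 : (0 : ℝ) ∉ uIcc u 1 := by
    rw [uIcc_of_le hu1]; exact fun h => absurd h.1 (not_le.mpr hu)
  have h1 : IntegrableOn (fun r : ℝ => K * r ^ (-ν)) (Ioc u 1) := by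
    have : ContinuousOn (fun r : ℝ => K * r ^ (-ν)) (Icc u 1) := by
      intro r hr
      exact ((Real.continuousAt_rpow_const _ _
        (Or.inl (by linarith [hr.1]))).const_mul K).continuousWithinAt
    exact this.integrableOn_Icc.mono_set Ioc_subset_Icc_self
  rw [← ofReal_integral_eq_lintegral_ofReal h1 ?_]
  · rw [← intervalIntegral.integral_of_le hu1, intervalIntegral.integral_const_mul,
      integral_rpow (Or.inr ⟨by intro h; apply hν; linarith, h0⟩), Real.one_rpow]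
    congr 3
    · congr 2; ring
    · ring
  · rw [EventuallyLE, ae_restrict_iff' measurableSet_Ioc]
    refine Eventually.of_forall fun r hr => ?_
    exact mul_nonneg hK (Real.rpow_nonneg (hu.trans hr.1).le _)

theorem lint_inv {u K : ℝ} (hu : 0 < u) (hu1 : u ≤ 1) (hK : 0 ≤ K) :
    ∫⁻ r in Ioc u 1, ENNReal.ofReal (K * r ^ (-(1 : ℝ))) =
      ENNReal.ofReal (K * Real.log (1 / u)) := by
  have h1 : IntegrableOn (fun r : ℝ => K * r ^ (-(1 : ℝ))) (Ioc u 1) := by
    have : ContinuousOn (fun r : ℝ => K * r ^ (-(1 : ℝ))) (Icc u 1) := by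
      intro r hr
      exact ((Real.continuousAt_rpow_const _ _
        (Or.inl (by linarith [hr.1]))).const_mul K).continuousWithinAt
    exact this.integrableOn_Icc.mono_set Ioc_subset_Icc_self
  rw [← ofReal_integral_eq_lintegral_ofReal h1 ?_]
  · rw [← intervalIntegral.integral_of_le hu1, intervalIntegral.integral_const_mul]
    congr 2
    have : ∀ r : ℝ, r ^ (-(1 : ℝ)) = r⁻¹ := fun r => Real.rpow_neg_one r
    simp_rw [this]
    exact integral_inv_of_pos hu one_pos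
  · rw [EventuallyLE, ae_restrict_iff' measurableSet_Ioc]
    refine Eventually.of_forall fun r hr => ?_
    exact mul_nonneg hK (Real.rpow_nonneg (hu.trans hr.1).le _)

/-- new exponent below the old ones -/
theorem case_low {a μ C : ℝ} (ha : 0 < a) (hμ : a < μ) (hC : 0 ≤ C) {F : ℝ → ℝ≥0∞}
    (hF1 : ∀ s, F s ≤ 1) (hFb : ∀ s, 1 ≤ s → F s = 1)
    (hF : ∀ s, 0 < s → s < 1 → F s ≤ ENNReal.ofReal (C * s ^ μ)) : Asy (stp a F) a 0 := by
  have hμa : 1 < μ / a := by rw [one_lt_div ha]; exact hμ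
  refine ⟨1, 1 + C / (μ / a - 1), one_pos, by
    have : 0 ≤ C / (μ / a - 1) := div_nonneg hC (by linarith)
    linarith, fun t ht ht1 => ⟨?_, ?_⟩⟩
  · rw [pow_zero, mul_one, one_mul]
    exact stp_ge_pow ha ht ht1 hFb
  · have h0 : 0 < t ^ a := Real.rpow_pos_of_pos ht _
    have h1 : t ^ a ≤ 1 := Real.rpow_le_one ht.le ht1 ha.le
    have hK : 0 ≤ C * t ^ μ := mul_nonneg hC (Real.rpow_nonneg ht.le _)
    refine (stp_le ha ht ht1 hF1).trans ?_
    have h2 : ∫⁻ r in Ioc (t ^ a) 1, F (t / r ^ (1 / a)) ≤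
        ENNReal.ofReal (C * t ^ μ * ((1 - (t ^ a) ^ (1 - μ / a)) / (1 - μ / a))) := by
      rw [← lint_pow h0 h1 hμa.ne' hK]
      apply setLIntegral_mono' measurableSet_Ioc
      intro r hr
      have hr0 : 0 < r := h0.trans hr.1
      refine (hF _ (s_pos ht hr0) (s_lt ha ht hr.1)).trans ?_
      rw [s_pow ht hr0, ← mul_assoc]
    have h3 : C * t ^ μ * ((1 - (t ^ a) ^ (1 - μ / a)) / (1 - μ / a)) ≤
        C / (μ / a - 1) * t ^ a := by
      have e1 : (t ^ a) ^ (1 - μ / a) = t ^ (a - μ) := by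
        rw [← Real.rpow_mul ht.le]
        congr 1
        field_simp
      have e2 : t ^ μ * t ^ (a - μ) = t ^ a := by
        rw [← Real.rpow_add ht]; congr 1; ring
      have e3 : C * t ^ μ * ((1 - (t ^ a) ^ (1 - μ / a)) / (1 - μ / a)) =
          C / (μ / a - 1) * (t ^ a - t ^ μ) := by
        rw [e1]
        have h5 : 1 - μ / a ≠ 0 := by linarith
        have h6 : μ / a - 1 ≠ 0 := by linarith
        rw [← e2, mul_div_assoc', div_mul_eq_mul_div, div_eq_div_iff h5 h6]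
        ring
      rw [e3]
      apply mul_le_mul_of_nonneg_left _ (div_nonneg hC (by linarith))
      linarith [Real.rpow_pos_of_pos ht μ]
    calc ENNReal.ofReal (t ^ a) + ∫⁻ r in Ioc (t ^ a) 1, F (t / r ^ (1 / a))
        ≤ ENNReal.ofReal (t ^ a) + ENNReal.ofReal (C / (μ / a - 1) * t ^ a) := by
          gcongr
          exact h2.trans (ENNReal.ofReal_le_ofReal h3)
      _ = ENNReal.ofReal (t ^ a + C / (μ / a - 1) * t ^ a) := by
          rw [ENNReal.ofReal_add h0.le (mul_nonneg (div_nonneg hC (by linarith)) h0.le)]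
      _ = ENNReal.ofReal ((1 + C / (μ / a - 1)) * (t ^ a * (1 + Real.log (1 / t)) ^ 0)) := by
          rw [pow_zero, mul_one]; congr 1; ring

/-- powers beat logarithms -/
theorem pow_log {ν : ℝ} (hν : 0 < ν) (k : ℕ) : ∃ C : ℝ, 0 < C ∧ ∀ s : ℝ, 0 < s → s ≤ 1 →
    s ^ ν * (1 + Real.log (1 / s)) ^ k ≤ C := by
  set δ := ν / (k + 1) with hδ
  have hδ0 : 0 < δ := by positivity
  refine ⟨(1 + 1 / δ) ^ k, by positivity, fun s hs hs1 => ?_⟩
  have h1s : 1 ≤ 1 / s := by rw [le_div_iff₀ hs]; linarith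
  have hx : 0 < 1 / s := by positivity
  have h1 : 1 + Real.log (1 / s) ≤ (1 + 1 / δ) * (1 / s) ^ δ := by
    have h2 := Real.log_le_rpow_div hx.le hδ0
    have h3 : 1 ≤ (1 / s) ^ δ := Real.one_le_rpow h1s hδ0.le
    calc 1 + Real.log (1 / s) ≤ (1 / s) ^ δ + (1 / s) ^ δ / δ := add_le_add h3 h2
      _ = _ := by ring
  have h4 : (1 + Real.log (1 / s)) ^ k ≤ ((1 + 1 / δ) * (1 / s) ^ δ) ^ k :=
    pow_le_pow_left₀ (by have := log_nn hs hs1; linarith) h1 k
  have h5 : s ^ ν * ((1 / s) ^ δ) ^ k ≤ 1 := by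
    rw [one_div, Real.inv_rpow hs.le, inv_pow, ← Real.rpow_natCast (s ^ δ), ← Real.rpow_mul hs.le,
      ← div_eq_mul_inv, ← Real.rpow_sub hs]
    apply Real.rpow_le_one hs.le hs1
    have : δ * k ≤ ν := by
      rw [hδ, div_mul_eq_mul_div, div_le_iff₀ (by positivity)]
      nlinarith
    linarith
  calc s ^ ν * (1 + Real.log (1 / s)) ^ k ≤ s ^ ν * ((1 + 1 / δ) * (1 / s) ^ δ) ^ k :=
        mul_le_mul_of_nonneg_left h4 (Real.rpow_nonneg hs.le _)
    _ = (1 + 1 / δ) ^ k * (s ^ ν * ((1 / s) ^ δ) ^ k) := by rw [mul_pow]; ring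
    _ ≤ (1 + 1 / δ) ^ k * 1 := mul_le_mul_of_nonneg_left h5 (by positivity)
    _ = _ := mul_one _

theorem case_low' {a l : ℝ} {k : ℕ} (ha : 0 < a) (hl : a < l) {F : ℝ → ℝ≥0∞}
    (hF1 : ∀ s, F s ≤ 1) (hFb : ∀ s, 1 ≤ s → F s = 1) (hF : Asy F l k) :
    Asy (stp a F) a 0 := by
  obtain ⟨c, C, hc, hC, h⟩ := hF
  obtain ⟨D, hD, hD'⟩ := pow_log (show 0 < (l - a) / 2 by linarith) k
  refine case_low (μ := (a + l) / 2) (C := C * D) ha (by linarith) (by positivity) hF1 hFb
    fun s hs hs1 => (h s hs hs1.le).2.trans (ENNReal.ofReal_le_ofReal ?_)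
  have e : s ^ l = s ^ ((a + l) / 2) * s ^ ((l - a) / 2) := by
    rw [← Real.rpow_add hs]; congr 1; ring
  rw [e]
  calc C * (s ^ ((a + l) / 2) * s ^ ((l - a) / 2) * (1 + Real.log (1 / s)) ^ k)
      = C * s ^ ((a + l) / 2) * (s ^ ((l - a) / 2) * (1 + Real.log (1 / s)) ^ k) := by ring
    _ ≤ C * s ^ ((a + l) / 2) * D :=
        mul_le_mul_of_nonneg_left (hD' s hs hs1.le)
          (mul_nonneg hC.le (Real.rpow_nonneg hs.le _))
    _ = C * D * s ^ ((a + l) / 2) := by ring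

/-- new exponent above the old ones -/
theorem case_high {a l : ℝ} {k : ℕ} (ha : 0 < a) (hl0 : 0 < l) (hl : l < a) {F : ℝ → ℝ≥0∞}
    (hFm : Monotone F) (hF1 : ∀ s, F s ≤ 1) (hF : Asy F l k) : Asy (stp a F) l k := by
  obtain ⟨c, C, hc, hC, h⟩ := hF
  have hla : l / a < 1 := by rw [div_lt_one ha]; exact hl
  refine ⟨c, 1 + C / (1 - l / a), hc, by
    have : 0 < C / (1 - l / a) := div_pos hC (by linarith)
    linarith, fun t ht ht1 => ⟨(h t ht ht1).1.trans (stp_ge ha ht hFm), ?_⟩⟩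
  have h0 : 0 < t ^ a := Real.rpow_pos_of_pos ht _
  have h1 : t ^ a ≤ 1 := Real.rpow_le_one ht.le ht1 ha.le
  have hL := log_nn ht ht1
  have hLk : 1 ≤ (1 + Real.log (1 / t)) ^ k := one_le_pow₀ (by linarith)
  have htl : 0 < t ^ l := Real.rpow_pos_of_pos ht _
  have hK : 0 ≤ C * (t ^ l * (1 + Real.log (1 / t)) ^ k) := by positivity
  refine (stp_le ha ht ht1 hF1).trans ?_
  have h2 : ∫⁻ r in Ioc (t ^ a) 1, F (t / r ^ (1 / a)) ≤
      ENNReal.ofReal (C * (t ^ l * (1 + Real.log (1 / t)) ^ k) *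
        ((1 - (t ^ a) ^ (1 - l / a)) / (1 - l / a))) := by
    rw [← lint_pow h0 h1 hla.ne hK]
    apply setLIntegral_mono' measurableSet_Ioc
    intro r hr
    have hr0 : 0 < r := h0.trans hr.1
    have hs0 := s_pos (a := a) ht hr0
    have hs1 := s_lt ha ht hr.1
    refine (h _ hs0 hs1.le).2.trans (ENNReal.ofReal_le_ofReal ?_)
    rw [s_pow ht hr0]
    have h3 : (1 + Real.log (1 / (t / r ^ (1 / a)))) ^ k ≤ (1 + Real.log (1 / t)) ^ k := by
      apply pow_le_pow_left₀ (by have := log_nn hs0 hs1.le; linarith)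
      rw [s_log ht hr0]
      have : (1 / a) * Real.log r ≤ 0 :=
        mul_nonpos_of_nonneg_of_nonpos (by positivity) (Real.log_nonpos hr0.le hr.2)
      linarith
    calc C * (t ^ l * r ^ (-(l / a)) * (1 + Real.log (1 / (t / r ^ (1 / a)))) ^ k)
        ≤ C * (t ^ l * r ^ (-(l / a)) * (1 + Real.log (1 / t)) ^ k) := by
          apply mul_le_mul_of_nonneg_left _ hC.le
          apply mul_le_mul_of_nonneg_left h3
          exact mul_nonneg htl.le (Real.rpow_nonneg hr0.le _)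
      _ = _ := by ring
  have h3 : C * (t ^ l * (1 + Real.log (1 / t)) ^ k) *
      ((1 - (t ^ a) ^ (1 - l / a)) / (1 - l / a)) ≤
      C / (1 - l / a) * (t ^ l * (1 + Real.log (1 / t)) ^ k) := by
    rw [mul_div_assoc', div_mul_eq_mul_div]
    apply div_le_div_of_nonneg_right _ (by linarith)
    have : 0 ≤ (t ^ a) ^ (1 - l / a) := Real.rpow_nonneg h0.le _
    nlinarith
  have h4 : t ^ a ≤ t ^ l * (1 + Real.log (1 / t)) ^ k := by
    have h5 : t ^ a ≤ t ^ l := Real.rpow_le_rpow_of_exponent_ge ht ht1 hl.le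
    nlinarith
  calc ENNReal.ofReal (t ^ a) + ∫⁻ r in Ioc (t ^ a) 1, F (t / r ^ (1 / a))
      ≤ ENNReal.ofReal (t ^ l * (1 + Real.log (1 / t)) ^ k) +
        ENNReal.ofReal (C / (1 - l / a) * (t ^ l * (1 + Real.log (1 / t)) ^ k)) :=
        add_le_add (ENNReal.ofReal_le_ofReal h4) (h2.trans (ENNReal.ofReal_le_ofReal h3))
    _ = ENNReal.ofReal ((1 + C / (1 - l / a)) * (t ^ l * (1 + Real.log (1 / t)) ^ k)) := by
        rw [← ENNReal.ofReal_add (by positivity)
          (mul_nonneg (div_nonneg hC.le (by linarith)) (by positivity))]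
        congr 1; ring

/-- new exponent equal to the old minimum -/
theorem case_eq {a : ℝ} {k : ℕ} (ha : 0 < a) {F : ℝ → ℝ≥0∞}
    (hFm : Monotone F) (hF1 : ∀ s, F s ≤ 1) (hF : Asy F a k) : Asy (stp a F) a (k + 1) := by
  obtain ⟨c, C, hc, hC, h⟩ := hF
  set m := min 1 ((1 / 2) ^ k * (a / 2)) with hm
  have hm0 : 0 < m := lt_min one_pos (by positivity)
  refine ⟨c / 2 * m, 1 + C * a, by positivity, by positivity, fun t ht ht1 => ⟨?_, ?_⟩⟩
  · have h0 : 0 < t ^ a := Real.rpow_pos_of_pos ht _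
    have h1 : t ^ a ≤ 1 := Real.rpow_le_one ht.le ht1 ha.le
    have hL := log_nn ht ht1
    have hLk : 0 < (1 + Real.log (1 / t)) ^ k := by positivity
    have hA := (h t ht ht1).1.trans (stp_ge ha ht hFm)
    -- second bound
    set u := t ^ (a / 2) with hu
    have hu0 : 0 < u := Real.rpow_pos_of_pos ht _
    have hu1 : u ≤ 1 := Real.rpow_le_one ht.le ht1 (by positivity)
    have hK : 0 ≤ c * (t ^ a * ((1 / 2) ^ k * (1 + Real.log (1 / t)) ^ k)) := by positivity
    have hB : ENNReal.ofReal (c * (t ^ a * ((1 / 2) ^ k * (1 + Real.log (1 / t)) ^ k)) *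
        Real.log (1 / u)) ≤ stp a F t := by
      rw [← lint_inv hu0 hu1 hK]
      unfold stp
      refine le_trans ?_ (lintegral_mono_set (Ioc_subset_Ioc_left hu0.le))
      apply setLIntegral_mono' measurableSet_Ioc
      intro r hr
      have hr0 : 0 < r := hu0.trans hr.1
      have hs0 := s_pos (a := a) ht hr0
      have hta : t ^ a ≤ u := Real.rpow_le_rpow_of_exponent_ge ht ht1 (by linarith)
      have hs1 := s_lt ha ht (lt_of_le_of_lt hta hr.1)
      refine le_trans (ENNReal.ofReal_le_ofReal ?_) (h _ hs0 hs1.le).1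
      rw [s_pow ht hr0, div_self ha.ne', s_log ht hr0]
      have h3 : Real.log u ≤ Real.log r := Real.log_le_log hu0 hr.1.le
      have h4 : Real.log u = - (a / 2) * Real.log (1 / t) := by
        rw [hu, Real.log_rpow ht, one_div, Real.log_inv]; ring
      have h5 : (1 / 2) * (1 + Real.log (1 / t)) ≤
          1 + (Real.log (1 / t) + (1 / a) * Real.log r) := by
        have h6 : (1 / a) * Real.log u ≤ (1 / a) * Real.log r :=
          mul_le_mul_of_nonneg_left h3 (by positivity)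
        have h7 : (1 / a) * Real.log u = - (1 / 2) * Real.log (1 / t) := by
          rw [h4]; field_simp
        linarith
      have h8 : (1 / 2) ^ k * (1 + Real.log (1 / t)) ^ k ≤
          (1 + (Real.log (1 / t) + (1 / a) * Real.log r)) ^ k := by
        rw [← mul_pow]
        exact pow_le_pow_left₀ (by positivity) h5 k
      calc c * (t ^ a * ((1 / 2) ^ k * (1 + Real.log (1 / t)) ^ k)) * r ^ (-(1 : ℝ))
          = c * (t ^ a * r ^ (-(1 : ℝ))) * ((1 / 2) ^ k * (1 + Real.log (1 / t)) ^ k) := by ring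
        _ ≤ c * (t ^ a * r ^ (-(1 : ℝ))) *
            (1 + (Real.log (1 / t) + (1 / a) * Real.log r)) ^ k :=
            mul_le_mul_of_nonneg_left h8
              (mul_nonneg hc.le (mul_nonneg h0.le (Real.rpow_nonneg hr0.le _)))
        _ = _ := by ring
    have hlu : Real.log (1 / u) = a / 2 * Real.log (1 / t) := by
      rw [one_div, Real.log_inv, hu, Real.log_rpow ht, one_div, Real.log_inv]; ring
    rw [hlu] at hB
    set X := c * (t ^ a * (1 + Real.log (1 / t)) ^ k) with hX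
    have hX0 : 0 < X := by positivity
    have key : c / 2 * m * (t ^ a * (1 + Real.log (1 / t)) ^ (k + 1)) ≤
        max X (c * (t ^ a * ((1 / 2) ^ k * (1 + Real.log (1 / t)) ^ k)) *
          (a / 2 * Real.log (1 / t))) := by
      have e1 : c / 2 * m * (t ^ a * (1 + Real.log (1 / t)) ^ (k + 1)) =
          (1 / 2) * (m * X + m * (X * Real.log (1 / t))) := by
        rw [hX, pow_succ]; ring
      have e2 : c * (t ^ a * ((1 / 2) ^ k * (1 + Real.log (1 / t)) ^ k)) *
          (a / 2 * Real.log (1 / t)) = ((1 / 2) ^ k * (a / 2)) * (X * Real.log (1 / t)) := by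
        rw [hX]; ring
      rw [e1, e2]
      have h9 : m * X ≤ X := by
        have : m ≤ 1 := min_le_left _ _
        nlinarith
      have h10 : m * (X * Real.log (1 / t)) ≤
          ((1 / 2) ^ k * (a / 2)) * (X * Real.log (1 / t)) :=
        mul_le_mul_of_nonneg_right (min_le_right _ _) (by positivity)
      have h11 := le_max_left X (((1 / 2) ^ k * (a / 2)) * (X * Real.log (1 / t)))
      have h12 := le_max_right X (((1 / 2) ^ k * (a / 2)) * (X * Real.log (1 / t)))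
      linarith
    refine (ENNReal.ofReal_le_ofReal key).trans ?_
    rcases max_choice X (c * (t ^ a * ((1 / 2) ^ k * (1 + Real.log (1 / t)) ^ k)) *
          (a / 2 * Real.log (1 / t))) with h13 | h13
    · rw [h13]; exact hA
    · rw [h13]; exact hB
  · have h0 : 0 < t ^ a := Real.rpow_pos_of_pos ht _
    have h1 : t ^ a ≤ 1 := Real.rpow_le_one ht.le ht1 ha.le
    have hL := log_nn ht ht1
    have hK : 0 ≤ C * (t ^ a * (1 + Real.log (1 / t)) ^ k) := by positivity
    refine (stp_le ha ht ht1 hF1).trans ?_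
    have h2 : ∫⁻ r in Ioc (t ^ a) 1, F (t / r ^ (1 / a)) ≤
        ENNReal.ofReal (C * (t ^ a * (1 + Real.log (1 / t)) ^ k) * Real.log (1 / t ^ a)) := by
      rw [← lint_inv h0 h1 hK]
      apply setLIntegral_mono' measurableSet_Ioc
      intro r hr
      have hr0 : 0 < r := h0.trans hr.1
      have hs0 := s_pos (a := a) ht hr0
      have hs1 := s_lt ha ht hr.1
      refine (h _ hs0 hs1.le).2.trans (ENNReal.ofReal_le_ofReal ?_)
      rw [s_pow ht hr0, div_self ha.ne']
      have h3 : (1 + Real.log (1 / (t / r ^ (1 / a)))) ^ k ≤ (1 + Real.log (1 / t)) ^ k := by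
        apply pow_le_pow_left₀ (by have := log_nn hs0 hs1.le; linarith)
        rw [s_log ht hr0]
        have : (1 / a) * Real.log r ≤ 0 :=
          mul_nonpos_of_nonneg_of_nonpos (by positivity) (Real.log_nonpos hr0.le hr.2)
        linarith
      calc C * (t ^ a * r ^ (-(1 : ℝ)) * (1 + Real.log (1 / (t / r ^ (1 / a)))) ^ k)
          ≤ C * (t ^ a * r ^ (-(1 : ℝ)) * (1 + Real.log (1 / t)) ^ k) := by
            apply mul_le_mul_of_nonneg_left _ hC.le
            apply mul_le_mul_of_nonneg_left h3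
            exact mul_nonneg h0.le (Real.rpow_nonneg hr0.le _)
        _ = _ := by ring
    have hlog : Real.log (1 / t ^ a) = a * Real.log (1 / t) := by
      rw [one_div, Real.log_inv, Real.log_rpow ht, one_div, Real.log_inv]; ring
    rw [hlog] at h2
    have hLk : 1 ≤ (1 + Real.log (1 / t)) ^ (k + 1) := one_le_pow₀ (by linarith)
    have h4 : t ^ a ≤ t ^ a * (1 + Real.log (1 / t)) ^ (k + 1) := by nlinarith
    have h5 : C * (t ^ a * (1 + Real.log (1 / t)) ^ k) * (a * Real.log (1 / t)) ≤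
        C * a * (t ^ a * (1 + Real.log (1 / t)) ^ (k + 1)) := by
      have h6 : 0 ≤ C * a * (t ^ a * (1 + Real.log (1 / t)) ^ k) := by positivity
      calc C * (t ^ a * (1 + Real.log (1 / t)) ^ k) * (a * Real.log (1 / t))
          = C * a * (t ^ a * (1 + Real.log (1 / t)) ^ k) * Real.log (1 / t) := by ring
        _ ≤ C * a * (t ^ a * (1 + Real.log (1 / t)) ^ k) * (1 + Real.log (1 / t)) :=
            mul_le_mul_of_nonneg_left (by linarith) h6
        _ = _ := by rw [pow_succ]; ring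
    calc ENNReal.ofReal (t ^ a) + ∫⁻ r in Ioc (t ^ a) 1, F (t / r ^ (1 / a))
        ≤ ENNReal.ofReal (t ^ a * (1 + Real.log (1 / t)) ^ (k + 1)) +
          ENNReal.ofReal (C * a * (t ^ a * (1 + Real.log (1 / t)) ^ (k + 1))) :=
          add_le_add (ENNReal.ofReal_le_ofReal h4) (h2.trans (ENNReal.ofReal_le_ofReal h5))
      _ = ENNReal.ofReal ((1 + C * a) * (t ^ a * (1 + Real.log (1 / t)) ^ (k + 1))) := by
          rw [← ENNReal.ofReal_add (by positivity) (by positivity)]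
          congr 1; ring

theorem wf_le_one {m : ℕ} (a : Fin m → ℝ) (t : ℝ) : Wf a t ≤ 1 := by
  have h1 : {r : Fin m → ℝ | (∀ i, 0 ≤ r i ∧ r i ≤ 1) ∧ ∏ i, (r i) ^ (1 / a i) ≤ t} ⊆
      Icc (0 : Fin m → ℝ) 1 := by
    rintro r ⟨hr, -⟩
    exact ⟨fun i => (hr i).1, fun i => (hr i).2⟩
  refine (measure_mono h1).trans ?_
  rw [Real.volume_Icc_pi]
  simp

theorem wf_mono {m : ℕ} (a : Fin m → ℝ) : Monotone (Wf a) := by
  intro s t hst
  refine measure_mono ?_
  rintro r ⟨hr, hr'⟩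
  exact ⟨hr, hr'.trans hst⟩

theorem wf_big {m : ℕ} (a : Fin m → ℝ) (ha : ∀ i, 0 < a i) (s : ℝ) (hs : 1 ≤ s) :
    Wf a s = 1 := by
  refine le_antisymm (wf_le_one a s) ?_
  have h1 : Icc (0 : Fin m → ℝ) 1 ⊆
      {r : Fin m → ℝ | (∀ i, 0 ≤ r i ∧ r i ≤ 1) ∧ ∏ i, (r i) ^ (1 / a i) ≤ s} := by
    rintro r ⟨hr1, hr2⟩
    refine ⟨fun i => ⟨hr1 i, hr2 i⟩, le_trans ?_ hs⟩
    refine Finset.prod_le_one (fun i _ => Real.rpow_nonneg (hr1 i) _) (fun i _ => ?_)
    have h1 := ha i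
    exact Real.rpow_le_one (hr1 i) (hr2 i) (by positivity)
  have h2 := measure_mono (μ := volume) h1
  rw [Real.volume_Icc_pi] at h2
  have h3 : ∏ i : Fin m, ENNReal.ofReal ((1 : Fin m → ℝ) i - (0 : Fin m → ℝ) i) = 1 := by simp
  rw [h3] at h2
  exact h2

theorem wf_rec {m : ℕ} (a : Fin (m + 1) → ℝ) {t : ℝ} :
    Wf a t = stp (a 0) (Wf fun j => a ((0 : Fin (m + 1)).succAbove j)) t := by
  rw [wf_eq]
  have key : Measure.pi (fun _ : Fin (m + 1) => U1) {ω | (∏ i, hm (a i) (ω i)) * 1 ≤ t} =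
      (U1.prod (Measure.pi fun _ : Fin m => U1))
        {p | hm (a 0) p.1 * (∏ j, hm (a ((0 : Fin (m+1)).succAbove j)) (p.2 j)) * 1 ≤ t} := by
    have hp := measurePreserving_piFinSuccAbove (fun _ : Fin (m + 1) => U1) 0
    rw [← hp.measure_preimage_equiv]
    apply congrArg
    ext ω
    simp only [mem_preimage, mem_ofPred_eq]
    rw [Fin.prod_univ_succAbove _ 0]
    rfl
  have hms : MeasurableSet {p : ℝ × (Fin m → ℝ) |
      hm (a 0) p.1 * (∏ j, hm (a ((0 : Fin (m+1)).succAbove j)) (p.2 j)) * 1 ≤ t} := by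
    refine measurableSet_le ?_ measurable_const
    exact (((hm_meas _).comp measurable_fst).mul
      ((prod_meas fun j => hm_meas (a ((0 : Fin (m+1)).succAbove j))).comp
        measurable_snd)).mul_const 1
  have hU : (U1 : Measure ℝ) = volume.restrict (Ioc 0 1) := by
    rw [U1, restrict_Ioc_eq_restrict_Icc]
  have hU2 : ∀ f : ℝ → ℝ≥0∞, ∫⁻ x, f x ∂U1 = ∫⁻ x in Ioc (0 : ℝ) 1, f x := fun f => by rw [hU]
  rw [key, Measure.prod_apply hms, hU2]
  unfold stp
  apply setLIntegral_congr_fun measurableSet_Ioc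
  intro r hr
  have hx : 0 < r ^ (1 / a 0) := Real.rpow_pos_of_pos hr.1 _
  simp only []
  rw [wf_eq]
  congr 1
  ext q
  simp only [mem_preimage, mem_ofPred_eq, mul_one, hm, max_eq_left hr.1.le]
  rw [le_div_iff₀ hx, mul_comm]

theorem asy_congr {F G : ℝ → ℝ≥0∞} {l : ℝ} {k : ℕ} (h : ∀ t, F t = G t) (hG : Asy G l k) :
    Asy F l k := by
  have : F = G := funext h
  rw [this]; exact hG

theorem main (m : ℕ) : ∀ (a : Fin (m + 1) → ℝ), (∀ i, 0 < a i) →
    ∃ (a₀ : ℝ) (k : ℕ), (∀ i, a₀ ≤ a i) ∧ (∃ i, a i = a₀) ∧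
      Set.ncard {i | a i = a₀} = k + 1 ∧ Asy (Wf a) a₀ k := by
  induction m with
  | zero =>
    intro a ha
    have hsub : ∀ i : Fin (0 + 1), i = 0 := fun i => Fin.ext (by have := i.2; simp)
    refine ⟨a 0, 0, fun i => by rw [hsub i], ⟨0, rfl⟩, ?_, ?_⟩
    · have : {i | a i = a 0} = {0} := by
        ext i
        simp [hsub i]
      rw [this, Set.ncard_singleton]
    · refine asy_congr (fun t => wf_rec a) ?_
      refine case_low (μ := a 0 + 1) (C := 0) (ha 0) (by linarith) le_rfl (wf_le_one _)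
        (wf_big _ fun i => ha _) ?_
      intro s hs hs1
      have : {r : Fin 0 → ℝ | (∀ i, 0 ≤ r i ∧ r i ≤ 1) ∧
          ∏ i, (r i) ^ (1 / (fun j => a ((0 : Fin 1).succAbove j)) i) ≤ s} = ∅ := by
        ext r
        simp [hs1]
      rw [Wf, this]
      simp
  | succ m ih =>
    intro a ha
    obtain ⟨l, k, h1, ⟨i₁, h2⟩, h3, h4⟩ := ih (fun j => a ((0 : Fin (m + 2)).succAbove j))
      (fun j => ha _)
    have hl0 : 0 < l := by rw [← h2]; exact ha _
    simp only [Fin.succAbove_zero] at h1 h2 h3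
    rcases lt_trichotomy (a 0) l with hlt | heq | hgt
    · refine ⟨a 0, 0, ?_, ⟨0, rfl⟩, ?_, asy_congr (fun t => wf_rec a)
        (case_low' (ha 0) hlt (wf_le_one _) (wf_big _ fun i => ha _) h4)⟩
      · intro i
        refine Fin.cases le_rfl (fun j => hlt.le.trans (h1 j)) i
      · have : {i | a i = a 0} = {0} := by
          ext i
          refine Fin.cases (by simp) (fun j => ?_) i
          simp only [mem_setOf_eq, mem_singleton_iff]
          have := h1 j
          constructor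
          · intro h; linarith
          · intro h; exact absurd h (Fin.succ_ne_zero j)
        rw [this, Set.ncard_singleton]
    · refine ⟨l, k + 1, ?_, ⟨0, heq⟩, ?_, asy_congr (fun t => wf_rec a) ?_⟩
      · intro i
        refine Fin.cases heq.ge (fun j => h1 j) i
      · have : {i | a i = l} = insert 0 (Fin.succ '' {j : Fin (m + 1) | a j.succ = l}) := by
          ext i
          refine Fin.cases (by simp [heq]) (fun j => ?_) i
          simp only [mem_setOf_eq, mem_insert_iff, mem_image]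
          constructor
          · intro h; exact Or.inr ⟨j, h, rfl⟩
          · rintro (h | ⟨j', h, h'⟩)
            · exact absurd h (Fin.succ_ne_zero j)
            · rw [← h']; exact h
        rw [this, Set.ncard_insert_of_notMem, Set.ncard_image_of_injective _ (Fin.succ_injective _),
          h3]
        rintro ⟨j, _, hj⟩
        exact absurd hj (Fin.succ_ne_zero j)
      · rw [heq]
        exact case_eq hl0 (wf_mono _) (wf_le_one _) h4
    · refine ⟨l, k, ?_, ⟨i₁.succ, h2⟩, ?_, asy_congr (fun t => wf_rec a)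
        (case_high (ha 0) hl0 hgt (wf_mono _) (wf_le_one _) h4)⟩
      · intro i
        refine Fin.cases hgt.le (fun j => h1 j) i
      · have : {i | a i = l} = Fin.succ '' {j : Fin (m + 1) | a j.succ = l} := by
          ext i
          refine Fin.cases ?_ (fun j => ?_) i
          · simp only [mem_setOf_eq, mem_image]
            constructor
            · intro h; linarith
            · rintro ⟨j, _, hj⟩; exact absurd hj (Fin.succ_ne_zero j)
          · simp only [mem_setOf_eq, mem_image]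
            constructor
            · intro h; exact ⟨j, h, rfl⟩
            · rintro ⟨j', h, h'⟩; rw [← h']; exact h
        rw [this, Set.ncard_image_of_injective _ (Fin.succ_injective _), h3]

end WX

open WX in
theorem t_WX : T_WX := by
  intro m hm a ha a₀ hmin hex
  obtain ⟨m, rfl⟩ : ∃ m', m = m' + 1 := ⟨m - 1, by omega⟩
  obtain ⟨a₁, k, h1, ⟨i₁, h2⟩, h3, c, C, hc, hC, h4⟩ := main m a ha
  obtain ⟨i₀, hi₀⟩ := hex
  have he : a₁ = a₀ := le_antisymm (by rw [← hi₀]; exact h1 i₀) (by rw [← h2]; exact hmin i₁)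
  subst he
  refine ⟨c, C, hc, hC, fun t ht ht1 => ?_⟩
  rw [h3, Nat.add_sub_cancel]
  exact h4 t ht ht1

end Pool.Agent.R292.BB
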