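import Pool.Agent.R292.BB.Stm
import Pool.Agent.R292.BB.GP
import Pool.Agent.R292.BB.EFA
import Pool.Agent.R292.BB.EFB
import Pool.Agent.R292.BB.LOW
import Pool.Agent.R292.BB.BM
import Pool.Agent.R292.BB.CONE
import Pool.Agent.R292.BB.SC
import Pool.Agent.R292.BB.GSET
import Pool.Agent.R292.BB.CAPU
import Pool.Agent.R292.BB.RAD
import Pool.Agent.R292.BB.MPN
import Pool.Agent.R292.BB.GEO
import Pool.Agent.R292.BB.AC
import Pool.Agent.R292.BB.HSC
import Pool.Agent.R292.BB.INT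
import Pool.Agent.R292.BB.RHO
import Pool.Agent.R292.BB.UPS
import Pool.Agent.R292.BB.MC
import Pool.Agent.R292.BB.LOS
import Pool.Agent.R292.BB.MAIN
import Pool.Agent.R292.BB.WX
import Pool.Agent.R292.BB.FIN
import Pool.Agent.W371.RP.Face
import Pool.Agent.W199.RP.CNT
import Pool.Agent.W381.RP.MF
import Pool.Agent.W315.RP.Wg
import Pool.Agent.W356.RP.WE
import Pool.Agent.W880.RP.WU

/-!
Project BB (helper292): assembly.
-/

set_option autoImplicit false

namespace Pool.Agent.R292.BB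

open Pool.Agent.W712.RP

theorem aFS : S_FS := Pool.Agent.W371.RP.fs
theorem aFE : S_FE := Pool.Agent.W371.RP.fe aFS
theorem aCNT : S_CNT := Pool.Agent.W199.RP.sCNT
theorem aFC : S_FC := Pool.Agent.W371.RP.fc
theorem aMF : S_MF := Pool.Agent.W381.RP.s_mf
theorem aWG : S_WG := Pool.Agent.W315.RP.wg
theorem aWE : S_WE := Pool.Agent.W356.RP.we aWG
theorem aWU : S_WU := Pool.Agent.W880.RP.wu
theorem aWL : S_WL := Pool.Agent.W880.RP.wl

theorem aGP : T_GP := t_GP
theorem aEFA : T_EFA := t_EFA aGP aFC aMF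
theorem aEFB : T_EFB := t_EFB aGP aFS aFE aCNT aMF
theorem aLOW : T_LOW := t_LOW aMF
theorem aBM : T_BM := t_BM
theorem aCONE : T_CONE := t_CONE
theorem aSC : T_SC := t_SC
theorem aGSET : T_GSET := t_GSET aBM aCONE aSC
theorem aCAPU : T_CAPU := t_CAPU aBM aCONE aSC
theorem aRAD : T_RAD := t_RAD aBM
theorem aMP : T_MP := t_MP aBM aCAPU
theorem aMN : T_MN := t_MN aBM aGSET
theorem aGEO : T_GEO := t_GEO
theorem aAC : T_AC := t_AC aBM
theorem aHSC : T_HSC := t_HSC
theorem aPT : T_PT := t_PT aHSC aGEO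
theorem aINT : T_INT := t_INT aBM aAC aPT aGSET aMP aMN
theorem aRHO : T_RHO := t_RHO aBM aRAD aWU aWL
theorem aUPS : T_UPS := t_UPS aAC aINT aRHO aWG aWE
theorem aMC : T_MC := t_MC aBM aAC aCAPU
theorem aLOS : T_LOS := t_LOS aBM aAC aLOW aMC aRHO aWG
theorem aMAIN : T_MAIN := t_MAIN aBM aAC aEFA aEFB aLOS aUPS aWG
theorem aWX : T_WX := t_WX

theorem finalA : FinalA := t_FINA aMAIN aRHO aWX
theorem finalB : FinalB := t_FINB aMAIN

end Pool.Agent.R292.BB
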