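import Pool.Agent.W712.RP.Stm

/-!
Project BB (helper292), problems MP_26f5cf_pr and MP_7073fe_pr: block-beta random polytopes.
Definitions used in the final statements.
-/

set_option autoImplicit false

open MeasureTheory Set Filter Topology
open scoped ENNReal

namespace Pool.Agent.R292.BB

open Pool.Agent.W712.RP

/-- The measure with density `(1 - ‖y‖ ^ 2) ^ b` on the closed unit ball of `ℝ^k`. -/
noncomputable def betaRaw (k : ℕ) (b : ℝ) : Measure (EuclideanSpace ℝ (Fin k)) :=
  ((volume : Measure (EuclideanSpace ℝ (Fin k))).restrict (Metric.closedBall 0 1)).withDensity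
    (fun y => ENNReal.ofReal ((1 - ‖y‖ ^ 2) ^ b))

/-- The beta distribution on the unit ball of `ℝ^k`: the normalised measure `betaRaw`. -/
noncomputable def betaM (k : ℕ) (b : ℝ) : Measure (EuclideanSpace ℝ (Fin k)) :=
  (betaRaw k b Set.univ)⁻¹ • betaRaw k b

/-- The block-beta distribution on the product of unit balls. -/
noncomputable def blockBeta {m : ℕ} (d : Fin m → ℕ) (β : Fin m → ℝ) :
    Measure (∀ i, EuclideanSpace ℝ (Fin (d i))) :=
  Measure.pi fun i => betaM (d i) (β i)

/-- The law of `n` independent points with the block-beta distribution. -/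
noncomputable def bbLaw {m : ℕ} (d : Fin m → ℕ) (β : Fin m → ℝ) (n : ℕ) :
    Measure (Fin n → ∀ i, EuclideanSpace ℝ (Fin (d i))) :=
  Measure.pi fun _ : Fin n => blockBeta d β

/-- The expected number of `j`-dimensional faces of the convex hull of `n` independent points
with the block-beta distribution. -/
noncomputable def expF {m : ℕ} (d : Fin m → ℕ) (β : Fin m → ℝ) (n j : ℕ) : ℝ :=
  ∫ x : Fin n → ∀ i, EuclideanSpace ℝ (Fin (d i)),
    (faceNum (convexHull ℝ (Set.range x)) j : ℝ) ∂(bbLaw d β n)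

/-- The beta-adjusted dimension. -/
noncomputable def adim (k : ℕ) (b : ℝ) : ℝ := ((k : ℝ) + b) / (1 + b)

/-- The largest beta-adjusted dimension. -/
noncomputable def kmax {m : ℕ} (d : Fin m → ℕ) (β : Fin m → ℝ) : ℝ :=
  ⨆ i, adim (d i) (β i)

/-- The number of blocks with the largest beta-adjusted dimension. -/
noncomputable def numMax {m : ℕ} (d : Fin m → ℕ) (β : Fin m → ℝ) : ℕ :=
  Set.ncard {i : Fin m | adim (d i) (β i) = kmax d β}

/-- The final statement for MP_7073fe_pr (all `β i > -1`, all `j ≤ d - 1`). -/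
def FinalA : Prop :=
  ∀ (m : ℕ) (_ : 0 < m) (d : Fin m → ℕ) (_ : ∀ i, 0 < d i) (β : Fin m → ℝ) (_ : ∀ i, -1 < β i),
    (∀ i, IsProbabilityMeasure (betaM (d i) (β i))) ∧
    (∀ j < ∑ i, d i, ∀ n, (∑ i, d i) + 1 ≤ n →
      Integrable (fun x : Fin n → ∀ i, EuclideanSpace ℝ (Fin (d i)) =>
        (faceNum (convexHull ℝ (Set.range x)) j : ℝ)) (bbLaw d β n)) ∧
    ∀ j < ∑ i, d i, Asymp (fun n => expF d β n j)
      (fun n => (n : ℝ) ^ ((kmax d β - 1) / (kmax d β + 1)) *
        (Real.log n) ^ (numMax d β - 1))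

/-- The final statement for MP_26f5cf_pr. -/
def FinalB : Prop :=
  ∀ (m : ℕ) (_ : 0 < m) (d : Fin m → ℕ) (_ : ∀ i, 0 < d i) (β : Fin m → ℝ) (_ : ∀ i, -1 < β i),
    (∀ i, IsProbabilityMeasure (betaM (d i) (β i))) ∧
    (∀ j < ∑ i, d i, ∀ n, (∑ i, d i) + 1 ≤ n →
      Integrable (fun x : Fin n → ∀ i, EuclideanSpace ℝ (Fin (d i)) =>
        (faceNum (convexHull ℝ (Set.range x)) j : ℝ)) (bbLaw d β n)) ∧
    ∀ j < ∑ i, d i, Asymp (fun n => expF d β n j)
      (fun n => expF d β n ((∑ i, d i) - 1))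

end Pool.Agent.R292.BB
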