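import Pool.Agent.R292.BB.Stm

/-!
Project BB, part INT (helper31): the probability of a face event.
-/

set_option autoImplicit false

open MeasureTheory Set Filter Topology
open scoped ENNReal

namespace Pool.Agent.R292.BB

namespace INT

open Pool.Agent.W712.RP

variable {m : ℕ} {d : Fin m → ℕ}

/-- The product of the caps centred at `z`. -/
def Ms (A : ℝ) (z : ∀ i, EuclideanSpace ℝ (Fin (d i))) :
    Set (∀ i, EuclideanSpace ℝ (Fin (d i))) :=
  Set.univ.pi (fun i => MM A (z i))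

lemma meas_rel {n : ℕ} (A : ℝ) (j : Fin n) :
    MeasurableSet {p : (Fin n → ∀ i, EuclideanSpace ℝ (Fin (d i))) ×
      (∀ i, EuclideanSpace ℝ (Fin (d i))) | p.1 j ∈ Ms A p.2} := by
  have h : {p : (Fin n → ∀ i, EuclideanSpace ℝ (Fin (d i))) ×
      (∀ i, EuclideanSpace ℝ (Fin (d i))) | p.1 j ∈ Ms A p.2} =
      ⋂ i, ({p | ‖p.1 j i‖ ≤ 1} ∩ {p | 1 - inner ℝ (p.2 i) (p.1 j i) ≤ A * (1 - ‖p.2 i‖)}) := by
    ext p
    simp [Ms, MM]
  rw [h]
  refine MeasurableSet.iInter fun i => MeasurableSet.inter ?_ ?_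
  · refine IsClosed.measurableSet (isClosed_le ?_ continuous_const)
    fun_prop
  · refine IsClosed.measurableSet (isClosed_le ?_ ?_)
    · refine continuous_const.sub (Continuous.inner ?_ ?_) <;> fun_prop
    · fun_prop

lemma meas_MM {k : ℕ} (A : ℝ) (z : EuclideanSpace ℝ (Fin k)) : MeasurableSet (MM A z) := by
  have h : MM A z = {y | ‖y‖ ≤ 1} ∩ {y | 1 - inner ℝ z y ≤ A * (1 - ‖z‖)} := by
    ext y
    simp [MM]
  rw [h]
  refine MeasurableSet.inter ?_ ?_
  · exact IsClosed.measurableSet (isClosed_le continuous_norm continuous_const)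
  · refine IsClosed.measurableSet (isClosed_le ?_ continuous_const)
    exact continuous_const.sub (Continuous.inner continuous_const continuous_id)

lemma meas_Ms (A : ℝ) (z : ∀ i, EuclideanSpace ℝ (Fin (d i))) : MeasurableSet (Ms A z) :=
  MeasurableSet.univ_pi fun i => meas_MM A (z i)

lemma meas_rho (β : Fin m → ℝ) : Measurable (rho d β) := by
  unfold rho
  refine Finset.measurable_prod _ fun i _ => ?_
  refine Measurable.pow_const ?_ _
  refine Measurable.max ?_ measurable_const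
  exact (measurable_const.sub (measurable_pi_apply i).norm)

lemma rho_pos (β : Fin m → ℝ) (z : ∀ i, EuclideanSpace ℝ (Fin (d i))) (hz : ∀ i, ‖z i‖ < 1) :
    0 < rho d β z := by
  unfold rho
  refine Finset.prod_pos fun i _ => Real.rpow_pos_of_pos ?_ _
  exact lt_max_of_lt_left (by linarith [hz i])

lemma rho_nonneg (β : Fin m → ℝ) (z : ∀ i, EuclideanSpace ℝ (Fin (d i))) :
    0 ≤ rho d β z := by
  unfold rho
  exact Finset.prod_nonneg fun i _ => Real.rpow_nonneg (le_max_right _ _) _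

/-- The set of configurations seen from `z`. -/
def box (n : ℕ) (I : Finset (Fin n)) (z : ∀ i, EuclideanSpace ℝ (Fin (d i))) :
    Set (Fin n → ∀ i, EuclideanSpace ℝ (Fin (d i))) :=
  Set.univ.pi (fun j => if j ∈ I then Ms (128 * m) z else (Ms 2 z)ᶜ)

lemma mem_box {n : ℕ} {I : Finset (Fin n)} {z : ∀ i, EuclideanSpace ℝ (Fin (d i))}
    {x : Fin n → ∀ i, EuclideanSpace ℝ (Fin (d i))} :
    x ∈ box n I z ↔ (∀ j ∈ I, x j ∈ Ms (128 * m) z) ∧ ∀ j, j ∉ I → x j ∉ Ms 2 z := by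
  unfold box
  simp only [Set.mem_pi, Set.mem_univ, true_imp_iff]
  constructor
  · intro h
    refine ⟨fun j hj => ?_, fun j hj => ?_⟩
    · have := h j
      rwa [if_pos hj] at this
    · have := h j
      rwa [if_neg hj] at this
  · rintro ⟨h1, h2⟩ j
    by_cases hj : j ∈ I
    · rw [if_pos hj]; exact h1 j hj
    · rw [if_neg hj]; exact h2 j hj

lemma meas_box (n : ℕ) (I : Finset (Fin n)) (z : ∀ i, EuclideanSpace ℝ (Fin (d i))) :
    MeasurableSet (box n I z) := by
  refine MeasurableSet.univ_pi fun j => ?_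
  by_cases hj : j ∈ I
  · rw [if_pos hj]; exact meas_Ms _ _
  · rw [if_neg hj]; exact (meas_Ms _ _).compl

lemma meas_boxrel (n : ℕ) (I : Finset (Fin n)) :
    MeasurableSet {p : (Fin n → ∀ i, EuclideanSpace ℝ (Fin (d i))) ×
      (∀ i, EuclideanSpace ℝ (Fin (d i))) | p.1 ∈ box n I p.2} := by
  have h : {p : (Fin n → ∀ i, EuclideanSpace ℝ (Fin (d i))) ×
      (∀ i, EuclideanSpace ℝ (Fin (d i))) | p.1 ∈ box n I p.2} =
      ⋂ j, {p | if j ∈ I then p.1 j ∈ Ms (128 * m) p.2 else p.1 j ∉ Ms 2 p.2} := by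
    ext p
    simp only [Set.mem_setOf_eq, Set.mem_iInter, mem_box]
    constructor
    · rintro ⟨h1, h2⟩ j
      by_cases hj : j ∈ I
      · rw [if_pos hj]; exact h1 j hj
      · rw [if_neg hj]; exact h2 j hj
    · intro h
      refine ⟨fun j hj => ?_, fun j hj => ?_⟩
      · have := h j
        rwa [if_pos hj] at this
      · have := h j
        rwa [if_neg hj] at this
  rw [h]
  refine MeasurableSet.iInter fun j => ?_
  by_cases hj : j ∈ I
  · simp only [if_pos hj]
    exact meas_rel (128 * m) j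
  · simp only [if_neg hj]
    exact (meas_rel 2 j).compl

/-- The kernel. -/
noncomputable def krn (β : Fin m → ℝ) (n : ℕ) (I : Finset (Fin n)) (w : ℝ)
    (p : (Fin n → ∀ i, EuclideanSpace ℝ (Fin (d i))) × (∀ i, EuclideanSpace ℝ (Fin (d i)))) :
    ℝ≥0∞ :=
  {p : (Fin n → ∀ i, EuclideanSpace ℝ (Fin (d i))) ×
      (∀ i, EuclideanSpace ℝ (Fin (d i))) | p.1 ∈ box n I p.2}.indicator
    (fun p => ENNReal.ofReal (w * (rho d β p.2)⁻¹)) p

lemma meas_krn (β : Fin m → ℝ) (n : ℕ) (I : Finset (Fin n)) (w : ℝ) :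
    Measurable (krn (d := d) β n I w) := by
  unfold krn
  refine Measurable.indicator ?_ (meas_boxrel n I)
  refine Measurable.ennreal_ofReal ?_
  exact ((meas_rho β).comp measurable_snd).inv.const_mul w

/-- Product of measures of the blocks. -/
lemma pi_mul_le {ι : Type} [Fintype ι] (a : ι → ℝ≥0∞) (b f : ι → ℝ) (hb : ∀ i, 0 ≤ b i)
    (hf : ∀ i, 0 ≤ f i) (h : ∀ i, a i ≤ ENNReal.ofReal (b i * f i)) :
    ∏ i, a i ≤ ENNReal.ofReal ((∏ i, b i) * ∏ i, f i) := by
  rw [← Finset.prod_mul_distrib, ENNReal.ofReal_prod_of_nonneg]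
  · exact Finset.prod_le_prod' fun i _ => h i
  · exact fun i _ => mul_nonneg (hb i) (hf i)

lemma le_pi_mul {ι : Type} [Fintype ι] (a : ι → ℝ≥0∞) (b f : ι → ℝ) (hb : ∀ i, 0 ≤ b i)
    (hf : ∀ i, 0 ≤ f i) (h : ∀ i, ENNReal.ofReal (b i * f i) ≤ a i) :
    ENNReal.ofReal ((∏ i, b i) * ∏ i, f i) ≤ ∏ i, a i := by
  rw [← Finset.prod_mul_distrib, ENNReal.ofReal_prod_of_nonneg]
  · exact Finset.prod_le_prod' fun i _ => h i
  · exact fun i _ => mul_nonneg (hb i) (hf i)

lemma pi_box (ν : Measure (∀ i, EuclideanSpace ℝ (Fin (d i)))) [IsProbabilityMeasure ν]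
    (n : ℕ) (I : Finset (Fin n)) (z : ∀ i, EuclideanSpace ℝ (Fin (d i))) :
    (Measure.pi fun _ : Fin n => ν) (box n I z) =
      ν (Ms (128 * m) z) ^ I.card * ν ((Ms 2 z)ᶜ) ^ (n - I.card) := by
  unfold box
  rw [Measure.pi_pi]
  have h1 : ∀ j : Fin n, ν (if j ∈ I then Ms (128 * m) z else (Ms 2 z)ᶜ) =
      if j ∈ I then ν (Ms (128 * m) z) else ν ((Ms 2 z)ᶜ) := by
    intro j
    by_cases hj : j ∈ I
    · simp [hj]
    · simp [hj]
  simp only [h1]
  rw [Finset.prod_ite, Finset.prod_const, Finset.prod_const]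
  have h2 : (Finset.univ.filter fun j : Fin n => j ∈ I) = I := by
    ext j; simp
  have h3 : (Finset.univ.filter fun j : Fin n => j ∉ I) = Iᶜ := by
    ext j; simp
  rw [h2, h3, Finset.card_compl, Fintype.card_fin]

lemma measure_gset_le {β : Fin m → ℝ} (g : Fin m → ℝ) (hg0 : ∀ i, 0 < g i)
    (hg : ∀ i, ∀ v : EuclideanSpace ℝ (Fin (d i)), ‖v‖ = 1 → ∀ t : ℝ, 0 < t → t ≤ 1 →
      ENNReal.ofReal (g i * t ^ alp (d i) (β i)) ≤ betaM (d i) (β i) (gset v t))
    [∀ i, IsProbabilityMeasure (betaM (d i) (β i))]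
    (v : ∀ i, EuclideanSpace ℝ (Fin (d i))) (t : Fin m → ℝ)
    (hv : ∀ i, ‖v i‖ = 1 ∧ 0 < t i ∧ t i ≤ 1) :
    ENNReal.ofReal ((∏ i, g i) * ∏ i, (t i) ^ alp (d i) (β i)) ≤
      blockBeta d β (Set.univ.pi fun i => gset (v i) (t i)) := by
  unfold blockBeta
  rw [Measure.pi_pi]
  refine le_pi_mul _ _ _ (fun i => (hg0 i).le) (fun i => Real.rpow_nonneg (hv i).2.1.le _) ?_
  intro i
  exact hg i (v i) (hv i).1 (t i) (hv i).2.1 (hv i).2.2

end INT

open INT in
theorem t_INT (h1 : T_BM) (h2 : T_AC) (h3 : T_PT) (h4 : T_GSET) (h5 : T_MP) (h6 : T_MN) :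
    T_INT := by
  intro m hm d hd β hβ s
  have hk : ∀ i, 1 ≤ d i := fun i => hd i
  have hm1 : (1 : ℝ) ≤ m := by exact_mod_cast hm
  have hA : (1 : ℝ) ≤ 128 * m := by linarith
  choose g hg0 hg using fun i => h4 (d i) (β i) (hk i) (hβ i)
  choose P hP0 hP using fun i => h5 (d i) (β i) (hk i) (hβ i) (128 * m) hA
  choose q hq0 hq using fun i => h6 (d i) (β i) (hk i) (hβ i)
  obtain ⟨hprob, hac, hlt⟩ := h2 m d hd β hβ
  have := hprob
  have : ∀ i, IsProbabilityMeasure (betaM (d i) (β i)) :=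
    fun i => (h1 (d i) (β i) (hk i) (hβ i)).2.2.1
  have hG : 0 < ∏ i, g i := Finset.prod_pos fun i _ => hg0 i
  have hPP : 0 < ∏ i, P i := Finset.prod_pos fun i _ => hP0 i
  have hQ : 0 < ∏ i, q i := Finset.prod_pos fun i _ => hq0 i
  have halp : ∀ i, 0 < alp (d i) (β i) := by
    intro i
    unfold alp
    have : (1 : ℝ) ≤ d i := by exact_mod_cast hk i
    linarith [hβ i]
  refine ⟨∏ i, q i, (∏ i, g i)⁻¹ * (∏ i, P i) ^ (s + 1), hQ, by positivity, ?_⟩
  intro n I hI
  have hn : s + 1 ≤ n := by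
    rw [← hI]
    simpa using Finset.card_le_univ I
  set ν := blockBeta d β with hν
  -- the pointwise bound
  have hpt : ∀ x ∈ {x : Fin n → ∀ i, EuclideanSpace ℝ (Fin (d i)) |
      Pool.Agent.W712.RP.FaceSet x I ∧ ∀ j i, ‖x j i‖ < 1},
      1 ≤ ∫⁻ z, krn (d := d) β n I (∏ i, g i)⁻¹ (x, z) ∂ν := by
    rintro x ⟨hx1, hx2⟩
    obtain ⟨v, t, hvt, hz⟩ := h3 m hm d hd n x I (Finset.card_pos.1 (by omega)) hx2 hx1
    set T : ℝ := ∏ i, (t i) ^ alp (d i) (β i) with hT
    have hT0 : 0 < T := Finset.prod_pos fun i _ => Real.rpow_pos_of_pos (hvt i).2.1 _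
    have hge := measure_gset_le (β := β) g hg0 hg v t hvt
    have hsub : (Set.univ.pi fun i => gset (v i) (t i)) ⊆
        {z | ENNReal.ofReal ((∏ i, g i)⁻¹ * T⁻¹) ≤
          krn (d := d) β n I (∏ i, g i)⁻¹ (x, z)} := by
      intro z hzm
      have hzm' : ∀ i, z i ∈ gset (v i) (t i) := fun i => hzm i (Set.mem_univ i)
      obtain ⟨hz1, hz2⟩ := hz z hzm'
      have hbox : x ∈ box n I z := by
        rw [mem_box]
        refine ⟨fun j hj i _ => hz1 j hj i, fun j hj hmem => hz2 j hj fun i => hmem i (Set.mem_univ i)⟩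
      have hker : krn (d := d) β n I (∏ i, g i)⁻¹ (x, z) =
          ENNReal.ofReal ((∏ i, g i)⁻¹ * (rho d β z)⁻¹) := by
        unfold krn
        rw [Set.indicator_of_mem]
        exact hbox
      show ENNReal.ofReal ((∏ i, g i)⁻¹ * T⁻¹) ≤ _
      rw [hker]
      refine ENNReal.ofReal_le_ofReal ?_
      refine mul_le_mul_of_nonneg_left ?_ (inv_nonneg.2 hG.le)
      have hr0 : 0 < rho d β z := by
        refine rho_pos β z fun i => ?_
        have := (hzm' i).2.1
        have := (hvt i).2.1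
        linarith
      refine inv_anti₀ hr0 ?_
      rw [hT]
      unfold rho
      refine Finset.prod_le_prod (fun i _ => Real.rpow_nonneg (le_max_right _ _) _) fun i _ => ?_
      refine Real.rpow_le_rpow (le_max_right _ _) ?_ (halp i).le
      refine max_le ?_ (hvt i).2.1.le
      have := (hzm' i).1
      linarith
    have hmk : Measurable fun z => krn (d := d) β n I (∏ i, g i)⁻¹ (x, z) :=
      (meas_krn β n I _).comp (measurable_const.prodMk measurable_id)
    calc (1 : ℝ≥0∞) = ENNReal.ofReal ((∏ i, g i)⁻¹ * T⁻¹) *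
          ENNReal.ofReal ((∏ i, g i) * T) := by
          rw [← ENNReal.ofReal_mul (by positivity)]
          rw [show (∏ i, g i)⁻¹ * T⁻¹ * ((∏ i, g i) * T) = 1 by field_simp]
          simp
      _ ≤ ENNReal.ofReal ((∏ i, g i)⁻¹ * T⁻¹) *
          ν (Set.univ.pi fun i => gset (v i) (t i)) := by gcongr
      _ ≤ ENNReal.ofReal ((∏ i, g i)⁻¹ * T⁻¹) *
          ν {z | ENNReal.ofReal ((∏ i, g i)⁻¹ * T⁻¹) ≤
            krn (d := d) β n I (∏ i, g i)⁻¹ (x, z)} := by gcongr
      _ ≤ ∫⁻ z, krn (d := d) β n I (∏ i, g i)⁻¹ (x, z) ∂ν :=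
          mul_meas_ge_le_lintegral hmk _
  -- the event without the boundary
  have hae : ∀ᵐ x ∂(Measure.pi fun _ : Fin n => ν), ∀ j i, ‖x j i‖ < 1 := by
    rw [Filter.eventually_all]
    intro j
    have := (MeasureTheory.Measure.quasiMeasurePreserving_eval (μ := fun _ : Fin n => ν) j).ae hlt
    exact this
  have hle : faceQ ν n I ≤ (Measure.pi fun _ : Fin n => ν)
      {x : Fin n → ∀ i, EuclideanSpace ℝ (Fin (d i)) |
      Pool.Agent.W712.RP.FaceSet x I ∧ ∀ j i, ‖x j i‖ < 1} := by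
    unfold faceQ
    refine measure_mono_ae ?_
    filter_upwards [hae] with x hx hx2
    exact ⟨hx2, hx⟩
  have hmker : Measurable (Function.uncurry fun (x : Fin n → ∀ i, EuclideanSpace ℝ (Fin (d i)))
      (z : ∀ i, EuclideanSpace ℝ (Fin (d i))) => krn (d := d) β n I (∏ i, g i)⁻¹ (x, z)) :=
    meas_krn β n I _
  refine hle.trans ((meas_le_lintegral₀ (Measurable.lintegral_prod_right hmker).aemeasurable
    hpt).trans ?_)
  rw [lintegral_lintegral_swap hmker.aemeasurable]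
  rw [← lintegral_const_mul' _ _ ENNReal.ofReal_ne_top]
  refine lintegral_mono_ae ?_
  filter_upwards [hlt] with z hz
  have hr : 0 < rho d β z := rho_pos β z hz
  have hin : ∫⁻ x, krn (d := d) β n I (∏ i, g i)⁻¹ (x, z) ∂(Measure.pi fun _ : Fin n => ν) =
      ENNReal.ofReal ((∏ i, g i)⁻¹ * (rho d β z)⁻¹) *
        (Measure.pi fun _ : Fin n => ν) (box n I z) := by
    rw [← lintegral_indicator_const (meas_box n I z)]
    rfl
  rw [hin, pi_box, hI]
  have hMp : ν (Ms (128 * m) z) ≤ ENNReal.ofReal ((∏ i, P i) * rho d β z) := by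
    rw [hν]
    unfold blockBeta Ms rho
    rw [Measure.pi_pi]
    refine pi_mul_le _ _ _ (fun i => (hP0 i).le)
      (fun i => Real.rpow_nonneg (le_max_right _ _) _) fun i => ?_
    rw [max_eq_left (by linarith [hz i])]
    exact hP i (z i) (hz i).le
  have hMn : ENNReal.ofReal ((∏ i, q i) * rho d β z) ≤ ν (Ms 2 z) := by
    rw [hν]
    unfold blockBeta Ms rho
    rw [Measure.pi_pi]
    refine le_pi_mul _ _ _ (fun i => (hq0 i).le)
      (fun i => Real.rpow_nonneg (le_max_right _ _) _) fun i => ?_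
    rw [max_eq_left (by linarith [hz i])]
    exact hq i (z i) (hz i).le
  have hMc : ν ((Ms 2 z)ᶜ) ≤ ENNReal.ofReal (Real.exp (-((∏ i, q i) * rho d β z))) := by
    rw [prob_compl_eq_one_sub (meas_Ms 2 z)]
    calc 1 - ν (Ms 2 z) ≤ 1 - ENNReal.ofReal ((∏ i, q i) * rho d β z) :=
          tsub_le_tsub_left hMn _
      _ = ENNReal.ofReal (1 - (∏ i, q i) * rho d β z) := by
          rw [ENNReal.ofReal_sub _ (by positivity), ENNReal.ofReal_one]
      _ ≤ _ := by
          refine ENNReal.ofReal_le_ofReal ?_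
          have := Real.add_one_le_exp (-((∏ i, q i) * rho d β z))
          linarith
  calc ENNReal.ofReal ((∏ i, g i)⁻¹ * (rho d β z)⁻¹) *
        (ν (Ms (128 * m) z) ^ (s + 1) * ν ((Ms 2 z)ᶜ) ^ (n - (s + 1)))
      ≤ ENNReal.ofReal ((∏ i, g i)⁻¹ * (rho d β z)⁻¹) *
        (ENNReal.ofReal ((∏ i, P i) * rho d β z) ^ (s + 1) *
          ENNReal.ofReal (Real.exp (-((∏ i, q i) * rho d β z))) ^ (n - (s + 1))) := by
        gcongr
    _ = _ := by
        rw [← ENNReal.ofReal_pow (by positivity), ← ENNReal.ofReal_pow (by positivity),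
          ← ENNReal.ofReal_mul (by positivity), ← ENNReal.ofReal_mul (by positivity),
          ← ENNReal.ofReal_mul (by positivity)]
        congr 1
        rw [← Real.exp_nat_mul]
        have hcast : (((n - (s + 1) : ℕ) : ℝ)) = (n : ℝ) - (s + 1) := by
          rw [Nat.cast_sub hn]
          push_cast
          ring
        rw [hcast]
        rw [show ((n : ℝ) - (s + 1)) * -((∏ i, q i) * rho d β z) =
          -((∏ i, q i) * (n - (s + 1)) * rho d β z) by ring]
        rw [mul_pow, pow_succ (rho d β z) s]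
        field_simp

end Pool.Agent.R292.BB
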