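import Pool.Agent.R292.BB.Defs

/-!
Project BB (helper292): statements of the parts.
-/

set_option autoImplicit false

open MeasureTheory Set Filter Topology
open scoped ENNReal

namespace Pool.Agent.R292.BB

open Pool.Agent.W712.RP

/-! ### General probability measures (adapt the proofs in `Pool.Agent.W*.RP`) -/

/-- The probability of a face event. -/
noncomputable def faceQ {E : Type} [NormedAddCommGroup E] [NormedSpace ℝ E] [MeasurableSpace E]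
    (ν : Measure E) (n : ℕ) (I : Finset (Fin n)) : ℝ≥0∞ :=
  (Measure.pi fun _ : Fin n => ν) {x : Fin n → E | FaceSet x I}

/-- BB-GP: general position almost surely. -/
def T_GP : Prop :=
  ∀ (E : Type) [NormedAddCommGroup E] [NormedSpace ℝ E] [FiniteDimensional ℝ E]
    [MeasurableSpace E] [BorelSpace E] (μ : Measure E) [μ.IsAddHaarMeasure]
    (ν : Measure E) [IsProbabilityMeasure ν], ν ≪ μ → 1 ≤ Module.finrank ℝ E →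
    ∀ n : ℕ, ∀ᵐ x ∂(Measure.pi fun _ : Fin n => ν), GenPos x

/-- BB-EFA: expected face numbers as sums of probabilities; integrability. -/
def T_EFA : Prop :=
  ∀ (E : Type) [NormedAddCommGroup E] [NormedSpace ℝ E] [FiniteDimensional ℝ E]
    [MeasurableSpace E] [BorelSpace E] (μ : Measure E) [μ.IsAddHaarMeasure]
    (ν : Measure E) [IsProbabilityMeasure ν], ν ≪ μ →
    ∀ n : ℕ, Module.finrank ℝ E + 1 ≤ n → ∀ j < Module.finrank ℝ E,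
    Integrable (fun x : Fin n → E => (faceNum (convexHull ℝ (Set.range x)) j : ℝ))
      (Measure.pi fun _ : Fin n => ν) ∧
    ENNReal.ofReal (∫ x : Fin n → E, (faceNum (convexHull ℝ (Set.range x)) j : ℝ)
      ∂(Measure.pi fun _ : Fin n => ν)) =
      ∑ I ∈ Finset.powersetCard (j + 1) (Finset.univ : Finset (Fin n)), faceQ ν n I

/-- BB-EFB: comparison of the expected face numbers. -/
def T_EFB : Prop :=
  ∀ (E : Type) [NormedAddCommGroup E] [NormedSpace ℝ E] [FiniteDimensional ℝ E]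
    [MeasurableSpace E] [BorelSpace E] (μ : Measure E) [μ.IsAddHaarMeasure]
    (ν : Measure E) [IsProbabilityMeasure ν], ν ≪ μ →
    ∀ n : ℕ, Module.finrank ℝ E + 1 ≤ n → ∀ j < Module.finrank ℝ E,
    ∑ I ∈ Finset.powersetCard 1 (Finset.univ : Finset (Fin n)), faceQ ν n I ≤
      ((j + 1 : ℕ) : ℝ≥0∞) *
        ∑ I ∈ Finset.powersetCard (j + 1) (Finset.univ : Finset (Fin n)), faceQ ν n I ∧
    ∑ I ∈ Finset.powersetCard (j + 1) (Finset.univ : Finset (Fin n)), faceQ ν n I ≤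
      ((Module.finrank ℝ E).choose (j + 1) : ℝ≥0∞) *
        ∑ I ∈ Finset.powersetCard (Module.finrank ℝ E) (Finset.univ : Finset (Fin n)),
          faceQ ν n I

/-- BB-LOW: lower bound for the vertex probability. -/
def T_LOW : Prop :=
  ∀ (E : Type) [NormedAddCommGroup E] [NormedSpace ℝ E] [FiniteDimensional ℝ E]
    [MeasurableSpace E] [BorelSpace E] (ν : Measure E) [IsProbabilityMeasure ν],
    ∀ n : ℕ, 2 ≤ n → ∀ A : Set E, MeasurableSet A →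
    (∀ z ∈ A, ∃ l : E →L[ℝ] ℝ, ν {y | l z ≤ l y} ≤ ENNReal.ofReal (1 / n)) →
    ∀ i : Fin (n + 1), ν A ≤ 4 * faceQ ν (n + 1) {i}

/-! ### One ball -/

/-- The exponent of the measure of a cap. -/
noncomputable def alp (k : ℕ) (b : ℝ) : ℝ := ((k : ℝ) + 1) / 2 + b

/-- The exponent `(1 + b) / alp k b = 2 / (adim k b + 1)`. -/
noncomputable def gam (k : ℕ) (b : ℝ) : ℝ := (1 + b) / alp k b

/-- Sector of the unit ball around the direction `v`. -/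
def sec {k : ℕ} (v : EuclideanSpace ℝ (Fin k)) (t : ℝ) : Set (EuclideanSpace ℝ (Fin k)) :=
  {y | ‖y‖ ≤ 1 ∧ (1 - t) * ‖y‖ ≤ inner ℝ v y}

/-- The part `r < ‖y‖ ≤ R` of the sector. -/
def secR {k : ℕ} (v : EuclideanSpace ℝ (Fin k)) (t r R : ℝ) : Set (EuclideanSpace ℝ (Fin k)) :=
  {y | r < ‖y‖ ∧ ‖y‖ ≤ R ∧ (1 - t) * ‖y‖ ≤ inner ℝ v y}

/-- Cap of the unit ball. -/
def capS {k : ℕ} (v : EuclideanSpace ℝ (Fin k)) (t : ℝ) : Set (EuclideanSpace ℝ (Fin k)) :=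
  {y | ‖y‖ ≤ 1 ∧ 1 - inner ℝ v y ≤ t}

/-- The good centres for the cap with direction `v`. -/
def gset {k : ℕ} (v : EuclideanSpace ℝ (Fin k)) (t : ℝ) : Set (EuclideanSpace ℝ (Fin k)) :=
  {y | 1 - t ≤ ‖y‖ ∧ ‖y‖ < 1 - t / 2 ∧ 1 - inner ℝ v y ≤ 2 * t}

/-- Cap of relative size `A` centred at `z`. -/
def MM {k : ℕ} (A : ℝ) (z : EuclideanSpace ℝ (Fin k)) : Set (EuclideanSpace ℝ (Fin k)) :=
  {y | ‖y‖ ≤ 1 ∧ 1 - inner ℝ z y ≤ A * (1 - ‖z‖)}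

/-- BB-BM: basic properties of the beta distribution. -/
def T_BM : Prop :=
  ∀ (k : ℕ) (b : ℝ), 1 ≤ k → -1 < b →
    betaRaw k b Set.univ ≠ 0 ∧ betaRaw k b Set.univ ≠ ∞ ∧ IsProbabilityMeasure (betaM k b) ∧
    betaM k b ≪ volume ∧ ∀ᵐ y ∂(betaM k b), ‖y‖ < 1

/-- BB-CONE: volume of sectors. -/
def T_CONE : Prop :=
  ∀ k : ℕ, 1 ≤ k → ∃ c C : ℝ, 0 < c ∧ 0 < C ∧ ∀ v : EuclideanSpace ℝ (Fin k), ‖v‖ = 1 →
    ∀ t : ℝ, 0 < t → t ≤ 1 →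
    ENNReal.ofReal (c * t ^ (((k : ℝ) - 1) / 2)) ≤ volume (sec v t) ∧
    volume (sec v t) ≤ ENNReal.ofReal (C * t ^ (((k : ℝ) - 1) / 2))

/-- BB-SC: scaling of sectors. -/
def T_SC : Prop :=
  ∀ k : ℕ, 1 ≤ k → ∀ (v : EuclideanSpace ℝ (Fin k)) (t r R : ℝ), 0 ≤ r → r ≤ R → R ≤ 1 →
    volume (secR v t r R) = ENNReal.ofReal (R ^ k - r ^ k) * volume (sec v t)

/-- BB-GSET: lower bound for the measure of `gset`. -/
def T_GSET : Prop :=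
  ∀ (k : ℕ) (b : ℝ), 1 ≤ k → -1 < b → ∃ c : ℝ, 0 < c ∧
    ∀ v : EuclideanSpace ℝ (Fin k), ‖v‖ = 1 → ∀ t : ℝ, 0 < t → t ≤ 1 →
    ENNReal.ofReal (c * t ^ alp k b) ≤ betaM k b (gset v t)

/-- BB-CAPU: upper bound for the measure of caps. -/
def T_CAPU : Prop :=
  ∀ (k : ℕ) (b : ℝ), 1 ≤ k → -1 < b → ∃ C : ℝ, 0 < C ∧
    ∀ v : EuclideanSpace ℝ (Fin k), ‖v‖ = 1 → ∀ t : ℝ, 0 < t →
    betaM k b (capS v t) ≤ ENNReal.ofReal (C * t ^ alp k b)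

/-- BB-RAD: the radial distribution. -/
def T_RAD : Prop :=
  ∀ (k : ℕ) (b : ℝ), 1 ≤ k → -1 < b → ∃ c C : ℝ, 0 < c ∧ 0 < C ∧
    (∀ t : ℝ, 0 < t → betaM k b {y | 1 - ‖y‖ ≤ t} ≤ ENNReal.ofReal (C * t ^ (1 + b))) ∧
    (∀ t : ℝ, 0 < t → t ≤ 1 →
      ENNReal.ofReal (c * t ^ (1 + b)) ≤ betaM k b {y | 1 - ‖y‖ ≤ t})

/-- BB-MP: measure of `MM A z`, upper bound. -/
def T_MP : Prop :=
  ∀ (k : ℕ) (b : ℝ), 1 ≤ k → -1 < b → ∀ A : ℝ, 1 ≤ A → ∃ C : ℝ, 0 < C ∧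
    ∀ z : EuclideanSpace ℝ (Fin k), ‖z‖ ≤ 1 →
    betaM k b (MM A z) ≤ ENNReal.ofReal (C * (1 - ‖z‖) ^ alp k b)

/-- BB-MN: measure of `MM 2 z`, lower bound. -/
def T_MN : Prop :=
  ∀ (k : ℕ) (b : ℝ), 1 ≤ k → -1 < b → ∃ c : ℝ, 0 < c ∧
    ∀ z : EuclideanSpace ℝ (Fin k), ‖z‖ ≤ 1 →
    ENNReal.ofReal (c * (1 - ‖z‖) ^ alp k b) ≤ betaM k b (MM 2 z)

/-- BB-GEO: the good centres are good. -/
def T_GEO : Prop :=
  ∀ (k m : ℕ), 1 ≤ m → ∀ (v z : EuclideanSpace ℝ (Fin k)) (t : ℝ), ‖v‖ = 1 → 0 < t → t ≤ 2 →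
    z ∈ gset v (t / (16 * m)) →
    (∀ y ∈ capS v t, y ∈ MM (128 * m) z) ∧ (∀ y ∈ MM 2 z, y ∈ capS v (t / m))

/-! ### Products of balls -/

/-- BB-AC: basic properties of the block-beta distribution. -/
def T_AC : Prop :=
  ∀ (m : ℕ) (d : Fin m → ℕ) (_ : ∀ i, 0 < d i) (β : Fin m → ℝ) (_ : ∀ i, -1 < β i),
    IsProbabilityMeasure (blockBeta d β) ∧ blockBeta d β ≪ volume ∧
    ∀ᵐ z ∂(blockBeta d β), ∀ i, ‖z i‖ < 1

/-- BB-HSC: caps of the product are close to products of caps. -/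
def T_HSC : Prop :=
  ∀ (m : ℕ) (_ : 0 < m) (d : Fin m → ℕ) (_ : ∀ i, 0 < d i)
    (l : (∀ i, EuclideanSpace ℝ (Fin (d i))) →L[ℝ] ℝ) (c : ℝ),
    (∃ y : ∀ i, EuclideanSpace ℝ (Fin (d i)), (∀ i, ‖y i‖ < 1) ∧ c ≤ l y) →
    ∃ (v : ∀ i, EuclideanSpace ℝ (Fin (d i))) (t : Fin m → ℝ),
      (∀ i, ‖v i‖ = 1 ∧ 0 < t i ∧ t i ≤ 2) ∧
      (∀ y : ∀ i, EuclideanSpace ℝ (Fin (d i)), (∀ i, ‖y i‖ ≤ 1) → c ≤ l y →
        ∀ i, y i ∈ capS (v i) (t i)) ∧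
      (∀ y : ∀ i, EuclideanSpace ℝ (Fin (d i)), (∀ i, y i ∈ capS (v i) (t i / m)) → c ≤ l y)

/-- BB-PT: pointwise statement. -/
def T_PT : Prop :=
  ∀ (m : ℕ) (_ : 0 < m) (d : Fin m → ℕ) (_ : ∀ i, 0 < d i) (n : ℕ)
    (x : Fin n → ∀ i, EuclideanSpace ℝ (Fin (d i))) (I : Finset (Fin n)), I.Nonempty →
    (∀ j i, ‖x j i‖ < 1) → FaceSet x I →
    ∃ (v : ∀ i, EuclideanSpace ℝ (Fin (d i))) (t : Fin m → ℝ),
      (∀ i, ‖v i‖ = 1 ∧ 0 < t i ∧ t i ≤ 1) ∧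
      ∀ z : ∀ i, EuclideanSpace ℝ (Fin (d i)), (∀ i, z i ∈ gset (v i) (t i)) →
        (∀ j ∈ I, ∀ i, x j i ∈ MM (128 * m) (z i)) ∧
        (∀ j, j ∉ I → ¬ ∀ i, x j i ∈ MM 2 (z i))

/-- The approximate measure of the smallest cap containing `z`. -/
noncomputable def rho {m : ℕ} (d : Fin m → ℕ) (β : Fin m → ℝ)
    (z : ∀ i, EuclideanSpace ℝ (Fin (d i))) : ℝ :=
  ∏ i, (max (1 - ‖z i‖) 0) ^ alp (d i) (β i)

/-- BB-INT: the probability of a face event. -/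
def T_INT : Prop :=
  ∀ (m : ℕ) (_ : 0 < m) (d : Fin m → ℕ) (_ : ∀ i, 0 < d i) (β : Fin m → ℝ) (_ : ∀ i, -1 < β i)
    (s : ℕ), ∃ c C : ℝ, 0 < c ∧ 0 < C ∧ ∀ (n : ℕ) (I : Finset (Fin n)), I.card = s + 1 →
    faceQ (blockBeta d β) n I ≤ ENNReal.ofReal C *
      ∫⁻ z, ENNReal.ofReal ((rho d β z) ^ s * Real.exp (-(c * (n - (s + 1)) * rho d β z)))
        ∂(blockBeta d β)

/-- BB-RHO: the distribution of `rho`. -/
def T_RHO : Prop :=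
  ∀ (m : ℕ) (_ : 0 < m) (d : Fin m → ℕ) (_ : ∀ i, 0 < d i) (β : Fin m → ℝ) (_ : ∀ i, -1 < β i),
    (∀ i, 0 < gam (d i) (β i) ∧ gam (d i) (β i) ≤ 1) ∧ Measurable (rho d β) ∧
    ∃ c C : ℝ, 0 < c ∧ 0 < C ∧ ∀ t : ℝ, 0 < t →
      ENNReal.ofReal c * Wf (fun i => gam (d i) (β i)) t ≤ blockBeta d β {z | rho d β z ≤ t} ∧
      blockBeta d β {z | rho d β z ≤ t} ≤ ENNReal.ofReal C * Wf (fun i => gam (d i) (β i)) t

/-- BB-UPS: the upper bound for the number of facets. -/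
def T_UPS : Prop :=
  ∀ (m : ℕ) (_ : 0 < m) (d : Fin m → ℕ) (_ : ∀ i, 0 < d i) (β : Fin m → ℝ) (_ : ∀ i, -1 < β i),
    ∃ C : ℝ, 0 < C ∧ ∀ n : ℕ, 2 * (∑ i, d i) ≤ n →
    ∑ I ∈ Finset.powersetCard (∑ i, d i) (Finset.univ : Finset (Fin n)),
      faceQ (blockBeta d β) n I ≤
      ENNReal.ofReal (C * n) * Wf (fun i => gam (d i) (β i)) (1 / n)

/-- BB-MC: small caps. -/
def T_MC : Prop :=
  ∀ (m : ℕ) (_ : 0 < m) (d : Fin m → ℕ) (_ : ∀ i, 0 < d i) (β : Fin m → ℝ) (_ : ∀ i, -1 < β i),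
    ∃ C : ℝ, 0 < C ∧ ∀ z : ∀ i, EuclideanSpace ℝ (Fin (d i)), (∀ i, ‖z i‖ < 1) →
      ∃ l : (∀ i, EuclideanSpace ℝ (Fin (d i))) →L[ℝ] ℝ,
        blockBeta d β {y | l z ≤ l y} ≤ ENNReal.ofReal (C * rho d β z)

/-- BB-LOS: the lower bound for the vertex probability. -/
def T_LOS : Prop :=
  ∀ (m : ℕ) (_ : 0 < m) (d : Fin m → ℕ) (_ : ∀ i, 0 < d i) (β : Fin m → ℝ) (_ : ∀ i, -1 < β i),
    ∃ c : ℝ, 0 < c ∧ ∀ n : ℕ, 3 ≤ n → ∀ i : Fin n,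
    ENNReal.ofReal c * Wf (fun i => gam (d i) (β i)) (1 / n) ≤ faceQ (blockBeta d β) n {i}

/-- BB-MAIN: two-sided bounds. -/
def T_MAIN : Prop :=
  ∀ (m : ℕ) (_ : 0 < m) (d : Fin m → ℕ) (_ : ∀ i, 0 < d i) (β : Fin m → ℝ) (_ : ∀ i, -1 < β i),
    (∀ i, IsProbabilityMeasure (betaM (d i) (β i))) ∧
    (∀ j < ∑ i, d i, ∀ n, (∑ i, d i) + 1 ≤ n →
      Integrable (fun x : Fin n → ∀ i, EuclideanSpace ℝ (Fin (d i)) =>
        (faceNum (convexHull ℝ (Set.range x)) j : ℝ)) (bbLaw d β n)) ∧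
    ∃ c C : ℝ, 0 < c ∧ 0 < C ∧ ∃ n₀ : ℕ, ∀ n ≥ n₀, ∀ j < ∑ i, d i,
        c * n * (Wf (fun i => gam (d i) (β i)) (1 / n)).toReal ≤ expF d β n j ∧
        expF d β n j ≤ C * n * (Wf (fun i => gam (d i) (β i)) (1 / n)).toReal ∧
        0 < (Wf (fun i => gam (d i) (β i)) (1 / n)).toReal

/-- BB-WX: the explicit order of the model distribution function. -/
def T_WX : Prop :=
  ∀ (m : ℕ) (_ : 0 < m) (a : Fin m → ℝ) (_ : ∀ i, 0 < a i) (a₀ : ℝ) (_ : ∀ i, a₀ ≤ a i)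
    (_ : ∃ i, a i = a₀),
    ∃ c C : ℝ, 0 < c ∧ 0 < C ∧ ∀ t : ℝ, 0 < t → t ≤ 1 →
      ENNReal.ofReal (c * (t ^ a₀ * (1 + Real.log (1 / t)) ^ (Set.ncard {i | a i = a₀} - 1))) ≤
        Wf a t ∧
      Wf a t ≤
        ENNReal.ofReal (C * (t ^ a₀ * (1 + Real.log (1 / t)) ^ (Set.ncard {i | a i = a₀} - 1)))

end Pool.Agent.R292.BB
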